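import Mathlib

/-!
The algebra `A0` of dimension 32: windows of the twisted graded algebra
`B = exterior algebra of K^3` with an extra generator `xi` of degree one.
-/

namespace Pool.Agent.H38.B2

/-- the 32 coordinates of `A0`: `d i` are the diagonal entries, `p ij` the entries of degree one
(`u` and the `xi`-coefficient `s`), `q ij` the entries of degree two (`m + w xi`), `r 03` the
entries of degree three (`c vol + n xi`). -/
inductive Ix
  | d0 | d1 | d2 | d3 | p01u1 | p01u2 | p01u3 | p01s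
  | p12u1 | p12u2 | p12u3 | p12s | p23u1 | p23u2 | p23u3 | p23s
  | q02m1 | q02m2 | q02m3 | q02w1 | q02w2 | q02w3 | q13m1 | q13m2
  | q13m3 | q13w1 | q13w2 | q13w3 | r03c | r03n1 | r03n2 | r03n3
  deriving DecidableEq

instance : Fintype Ix := ⟨{.d0, .d1, .d2, .d3, .p01u1, .p01u2, .p01u3, .p01s, .p12u1, .p12u2, .p12u3, .p12s, .p23u1, .p23u2, .p23u3, .p23s, .q02m1, .q02m2, .q02m3, .q02w1, .q02w2, .q02w3, .q13m1, .q13m2, .q13m3, .q13w1, .q13w2, .q13w3, .r03c, .r03n1, .r03n2, .r03n3}, by intro x; cases x <;> decide⟩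

/-- the algebra `A0`, as a vector space. -/
def A0 (K : Type*) := Ix → K

variable {K : Type*} [Field K]

namespace A0

instance : AddCommGroup (A0 K) := inferInstanceAs (AddCommGroup (Ix → K))

instance : Module K (A0 K) := inferInstanceAs (Module K (Ix → K))

instance : Module.Finite K (A0 K) := inferInstanceAs (Module.Finite K (Ix → K))

@[ext] theorem ext {x y : A0 K} (h : ∀ i, x i = y i) : x = y := funext h

@[simp] theorem add_apply (x y : A0 K) (i : Ix) : (x + y) i = x i + y i := rfl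
@[simp] theorem sub_apply (x y : A0 K) (i : Ix) : (x - y) i = x i - y i := rfl
@[simp] theorem neg_apply (x : A0 K) (i : Ix) : (-x) i = - x i := rfl
@[simp] theorem zero_apply (i : Ix) : (0 : A0 K) i = 0 := rfl
@[simp] theorem smul_apply (c : K) (x : A0 K) (i : Ix) : (c • x) i = c * x i := rfl

/-- the coordinate functionals. -/
def coord (i : Ix) : A0 K →ₗ[K] K where
  toFun x := x i
  map_add' _ _ := rfl
  map_smul' _ _ := rfl

@[simp] theorem coord_apply (i : Ix) (x : A0 K) : coord i x = x i := rfl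

theorem sum_apply {ι : Type*} (s : Finset ι) (f : ι → A0 K) (i : Ix) :
    (∑ k ∈ s, f k) i = ∑ k ∈ s, f k i := map_sum (coord i) f s

/-- the product of `A0`: `x * y` is `y` first, then `x`. -/
def mul' (x y : A0 K) : A0 K
  | .d0 => x .d0 * y .d0
  | .d1 => x .d1 * y .d1
  | .d2 => x .d2 * y .d2
  | .d3 => x .d3 * y .d3
  | .p01u1 => x .d1 * y .p01u1 + x .p01u1 * y .d0
  | .p01u2 => x .d1 * y .p01u2 + x .p01u2 * y .d0
  | .p01u3 => x .d1 * y .p01u3 + x .p01u3 * y .d0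
  | .p01s => x .d1 * y .p01s + x .p01s * y .d0
  | .p12u1 => x .d2 * y .p12u1 + x .p12u1 * y .d1
  | .p12u2 => x .d2 * y .p12u2 + x .p12u2 * y .d1
  | .p12u3 => x .d2 * y .p12u3 + x .p12u3 * y .d1
  | .p12s => x .d2 * y .p12s + x .p12s * y .d1
  | .p23u1 => x .d3 * y .p23u1 + x .p23u1 * y .d2
  | .p23u2 => x .d3 * y .p23u2 + x .p23u2 * y .d2
  | .p23u3 => x .d3 * y .p23u3 + x .p23u3 * y .d2
  | .p23s => x .d3 * y .p23s + x .p23s * y .d2
  | .q02m1 => x .d2 * y .q02m1 + x .q02m1 * y .d0 + (x .p12u2 * y .p01u3 - x .p12u3 * y .p01u2) + x .p12s * (2 * y .p01u2)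
  | .q02m2 => x .d2 * y .q02m2 + x .q02m2 * y .d0 + (x .p12u3 * y .p01u1 - x .p12u1 * y .p01u3) + x .p12s * (2 * y .p01u1)
  | .q02m3 => x .d2 * y .q02m3 + x .q02m3 * y .d0 + (x .p12u1 * y .p01u2 - x .p12u2 * y .p01u1) + x .p12s * y .p01u3
  | .q02w1 => x .d2 * y .q02w1 + x .q02w1 * y .d0 + y .p01s * x .p12u1 - x .p12s * y .p01u1
  | .q02w2 => x .d2 * y .q02w2 + x .q02w2 * y .d0 + y .p01s * x .p12u2 - x .p12s * y .p01u2
  | .q02w3 => x .d2 * y .q02w3 + x .q02w3 * y .d0 + y .p01s * x .p12u3 - x .p12s * y .p01u3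
  | .q13m1 => x .d3 * y .q13m1 + x .q13m1 * y .d1 + (x .p23u2 * y .p12u3 - x .p23u3 * y .p12u2) + x .p23s * (2 * y .p12u2)
  | .q13m2 => x .d3 * y .q13m2 + x .q13m2 * y .d1 + (x .p23u3 * y .p12u1 - x .p23u1 * y .p12u3) + x .p23s * (2 * y .p12u1)
  | .q13m3 => x .d3 * y .q13m3 + x .q13m3 * y .d1 + (x .p23u1 * y .p12u2 - x .p23u2 * y .p12u1) + x .p23s * y .p12u3
  | .q13w1 => x .d3 * y .q13w1 + x .q13w1 * y .d1 + y .p12s * x .p23u1 - x .p23s * y .p12u1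
  | .q13w2 => x .d3 * y .q13w2 + x .q13w2 * y .d1 + y .p12s * x .p23u2 - x .p23s * y .p12u2
  | .q13w3 => x .d3 * y .q13w3 + x .q13w3 * y .d1 + y .p12s * x .p23u3 - x .p23s * y .p12u3
  | .r03c => x .d3 * y .r03c + x .r03c * y .d0 + (x .p23u1 * y .q02m1 + x .p23u2 * y .q02m2 + x .p23u3 * y .q02m3) + (x .q13m1 * y .p01u1 + x .q13m2 * y .p01u2 + x .q13m3 * y .p01u3) + (x .q13w1 * (2 * y .p01u2) + x .q13w2 * (2 * y .p01u1) + x .q13w3 * y .p01u3)
  | .r03n1 => x .d3 * y .r03n1 + x .r03n1 * y .d0 + (x .p23u2 * y .q02w3 - x .p23u3 * y .q02w2) + x .p23s * y .q02m1 + x .p23s * (2 * y .q02w2) + y .p01s * x .q13m1 - (x .q13w2 * y .p01u3 - x .q13w3 * y .p01u2)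
  | .r03n2 => x .d3 * y .r03n2 + x .r03n2 * y .d0 + (x .p23u3 * y .q02w1 - x .p23u1 * y .q02w3) + x .p23s * y .q02m2 + x .p23s * (2 * y .q02w1) + y .p01s * x .q13m2 - (x .q13w3 * y .p01u1 - x .q13w1 * y .p01u3)
  | .r03n3 => x .d3 * y .r03n3 + x .r03n3 * y .d0 + (x .p23u1 * y .q02w2 - x .p23u2 * y .q02w1) + x .p23s * y .q02m3 + x .p23s * y .q02w3 + y .p01s * x .q13m3 - (x .q13w1 * y .p01u2 - x .q13w2 * y .p01u1)

instance : Mul (A0 K) := ⟨mul'⟩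

/-- the unit. -/
def one' : A0 K
  | .d0 => 1
  | .d1 => 1
  | .d2 => 1
  | .d3 => 1
  | _ => 0

instance : One (A0 K) := ⟨one'⟩

section
variable (x y : A0 K)
@[simp] theorem mul_d0 : (x * y) .d0 = x .d0 * y .d0 := rfl
@[simp] theorem mul_d1 : (x * y) .d1 = x .d1 * y .d1 := rfl
@[simp] theorem mul_d2 : (x * y) .d2 = x .d2 * y .d2 := rfl
@[simp] theorem mul_d3 : (x * y) .d3 = x .d3 * y .d3 := rfl
@[simp] theorem mul_p01u1 : (x * y) .p01u1 = x .d1 * y .p01u1 + x .p01u1 * y .d0 := rfl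
@[simp] theorem mul_p01u2 : (x * y) .p01u2 = x .d1 * y .p01u2 + x .p01u2 * y .d0 := rfl
@[simp] theorem mul_p01u3 : (x * y) .p01u3 = x .d1 * y .p01u3 + x .p01u3 * y .d0 := rfl
@[simp] theorem mul_p01s : (x * y) .p01s = x .d1 * y .p01s + x .p01s * y .d0 := rfl
@[simp] theorem mul_p12u1 : (x * y) .p12u1 = x .d2 * y .p12u1 + x .p12u1 * y .d1 := rfl
@[simp] theorem mul_p12u2 : (x * y) .p12u2 = x .d2 * y .p12u2 + x .p12u2 * y .d1 := rfl
@[simp] theorem mul_p12u3 : (x * y) .p12u3 = x .d2 * y .p12u3 + x .p12u3 * y .d1 := rfl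
@[simp] theorem mul_p12s : (x * y) .p12s = x .d2 * y .p12s + x .p12s * y .d1 := rfl
@[simp] theorem mul_p23u1 : (x * y) .p23u1 = x .d3 * y .p23u1 + x .p23u1 * y .d2 := rfl
@[simp] theorem mul_p23u2 : (x * y) .p23u2 = x .d3 * y .p23u2 + x .p23u2 * y .d2 := rfl
@[simp] theorem mul_p23u3 : (x * y) .p23u3 = x .d3 * y .p23u3 + x .p23u3 * y .d2 := rfl
@[simp] theorem mul_p23s : (x * y) .p23s = x .d3 * y .p23s + x .p23s * y .d2 := rfl
@[simp] theorem mul_q02m1 : (x * y) .q02m1 = x .d2 * y .q02m1 + x .q02m1 * y .d0 + (x .p12u2 * y .p01u3 - x .p12u3 * y .p01u2) + x .p12s * (2 * y .p01u2) := rfl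
@[simp] theorem mul_q02m2 : (x * y) .q02m2 = x .d2 * y .q02m2 + x .q02m2 * y .d0 + (x .p12u3 * y .p01u1 - x .p12u1 * y .p01u3) + x .p12s * (2 * y .p01u1) := rfl
@[simp] theorem mul_q02m3 : (x * y) .q02m3 = x .d2 * y .q02m3 + x .q02m3 * y .d0 + (x .p12u1 * y .p01u2 - x .p12u2 * y .p01u1) + x .p12s * y .p01u3 := rfl
@[simp] theorem mul_q02w1 : (x * y) .q02w1 = x .d2 * y .q02w1 + x .q02w1 * y .d0 + y .p01s * x .p12u1 - x .p12s * y .p01u1 := rfl
@[simp] theorem mul_q02w2 : (x * y) .q02w2 = x .d2 * y .q02w2 + x .q02w2 * y .d0 + y .p01s * x .p12u2 - x .p12s * y .p01u2 := rfl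
@[simp] theorem mul_q02w3 : (x * y) .q02w3 = x .d2 * y .q02w3 + x .q02w3 * y .d0 + y .p01s * x .p12u3 - x .p12s * y .p01u3 := rfl
@[simp] theorem mul_q13m1 : (x * y) .q13m1 = x .d3 * y .q13m1 + x .q13m1 * y .d1 + (x .p23u2 * y .p12u3 - x .p23u3 * y .p12u2) + x .p23s * (2 * y .p12u2) := rfl
@[simp] theorem mul_q13m2 : (x * y) .q13m2 = x .d3 * y .q13m2 + x .q13m2 * y .d1 + (x .p23u3 * y .p12u1 - x .p23u1 * y .p12u3) + x .p23s * (2 * y .p12u1) := rfl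
@[simp] theorem mul_q13m3 : (x * y) .q13m3 = x .d3 * y .q13m3 + x .q13m3 * y .d1 + (x .p23u1 * y .p12u2 - x .p23u2 * y .p12u1) + x .p23s * y .p12u3 := rfl
@[simp] theorem mul_q13w1 : (x * y) .q13w1 = x .d3 * y .q13w1 + x .q13w1 * y .d1 + y .p12s * x .p23u1 - x .p23s * y .p12u1 := rfl
@[simp] theorem mul_q13w2 : (x * y) .q13w2 = x .d3 * y .q13w2 + x .q13w2 * y .d1 + y .p12s * x .p23u2 - x .p23s * y .p12u2 := rfl
@[simp] theorem mul_q13w3 : (x * y) .q13w3 = x .d3 * y .q13w3 + x .q13w3 * y .d1 + y .p12s * x .p23u3 - x .p23s * y .p12u3 := rfl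
@[simp] theorem mul_r03c : (x * y) .r03c = x .d3 * y .r03c + x .r03c * y .d0 + (x .p23u1 * y .q02m1 + x .p23u2 * y .q02m2 + x .p23u3 * y .q02m3) + (x .q13m1 * y .p01u1 + x .q13m2 * y .p01u2 + x .q13m3 * y .p01u3) + (x .q13w1 * (2 * y .p01u2) + x .q13w2 * (2 * y .p01u1) + x .q13w3 * y .p01u3) := rfl
@[simp] theorem mul_r03n1 : (x * y) .r03n1 = x .d3 * y .r03n1 + x .r03n1 * y .d0 + (x .p23u2 * y .q02w3 - x .p23u3 * y .q02w2) + x .p23s * y .q02m1 + x .p23s * (2 * y .q02w2) + y .p01s * x .q13m1 - (x .q13w2 * y .p01u3 - x .q13w3 * y .p01u2) := rfl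
@[simp] theorem mul_r03n2 : (x * y) .r03n2 = x .d3 * y .r03n2 + x .r03n2 * y .d0 + (x .p23u3 * y .q02w1 - x .p23u1 * y .q02w3) + x .p23s * y .q02m2 + x .p23s * (2 * y .q02w1) + y .p01s * x .q13m2 - (x .q13w3 * y .p01u1 - x .q13w1 * y .p01u3) := rfl
@[simp] theorem mul_r03n3 : (x * y) .r03n3 = x .d3 * y .r03n3 + x .r03n3 * y .d0 + (x .p23u1 * y .q02w2 - x .p23u2 * y .q02w1) + x .p23s * y .q02m3 + x .p23s * y .q02w3 + y .p01s * x .q13m3 - (x .q13w1 * y .p01u2 - x .q13w2 * y .p01u1) := rfl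
@[simp] theorem one_d0 : (1 : A0 K) .d0 = 1 := rfl
@[simp] theorem one_d1 : (1 : A0 K) .d1 = 1 := rfl
@[simp] theorem one_d2 : (1 : A0 K) .d2 = 1 := rfl
@[simp] theorem one_d3 : (1 : A0 K) .d3 = 1 := rfl
@[simp] theorem one_p01u1 : (1 : A0 K) .p01u1 = 0 := rfl
@[simp] theorem one_p01u2 : (1 : A0 K) .p01u2 = 0 := rfl
@[simp] theorem one_p01u3 : (1 : A0 K) .p01u3 = 0 := rfl
@[simp] theorem one_p01s : (1 : A0 K) .p01s = 0 := rfl
@[simp] theorem one_p12u1 : (1 : A0 K) .p12u1 = 0 := rfl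
@[simp] theorem one_p12u2 : (1 : A0 K) .p12u2 = 0 := rfl
@[simp] theorem one_p12u3 : (1 : A0 K) .p12u3 = 0 := rfl
@[simp] theorem one_p12s : (1 : A0 K) .p12s = 0 := rfl
@[simp] theorem one_p23u1 : (1 : A0 K) .p23u1 = 0 := rfl
@[simp] theorem one_p23u2 : (1 : A0 K) .p23u2 = 0 := rfl
@[simp] theorem one_p23u3 : (1 : A0 K) .p23u3 = 0 := rfl
@[simp] theorem one_p23s : (1 : A0 K) .p23s = 0 := rfl
@[simp] theorem one_q02m1 : (1 : A0 K) .q02m1 = 0 := rfl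
@[simp] theorem one_q02m2 : (1 : A0 K) .q02m2 = 0 := rfl
@[simp] theorem one_q02m3 : (1 : A0 K) .q02m3 = 0 := rfl
@[simp] theorem one_q02w1 : (1 : A0 K) .q02w1 = 0 := rfl
@[simp] theorem one_q02w2 : (1 : A0 K) .q02w2 = 0 := rfl
@[simp] theorem one_q02w3 : (1 : A0 K) .q02w3 = 0 := rfl
@[simp] theorem one_q13m1 : (1 : A0 K) .q13m1 = 0 := rfl
@[simp] theorem one_q13m2 : (1 : A0 K) .q13m2 = 0 := rfl
@[simp] theorem one_q13m3 : (1 : A0 K) .q13m3 = 0 := rfl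
@[simp] theorem one_q13w1 : (1 : A0 K) .q13w1 = 0 := rfl
@[simp] theorem one_q13w2 : (1 : A0 K) .q13w2 = 0 := rfl
@[simp] theorem one_q13w3 : (1 : A0 K) .q13w3 = 0 := rfl
@[simp] theorem one_r03c : (1 : A0 K) .r03c = 0 := rfl
@[simp] theorem one_r03n1 : (1 : A0 K) .r03n1 = 0 := rfl
@[simp] theorem one_r03n2 : (1 : A0 K) .r03n2 = 0 := rfl
@[simp] theorem one_r03n3 : (1 : A0 K) .r03n3 = 0 := rfl

end

instance : Ring (A0 K) :=
  { (inferInstance : AddCommGroup (A0 K)), (inferInstance : Mul (A0 K)),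
    (inferInstance : One (A0 K)) with
  mul_assoc x y z := by
    ext i
    cases i <;> simp only [mul_d0, mul_d1, mul_d2, mul_d3, mul_p01u1, mul_p01u2, mul_p01u3, mul_p01s, mul_p12u1, mul_p12u2, mul_p12u3, mul_p12s, mul_p23u1, mul_p23u2, mul_p23u3, mul_p23s, mul_q02m1, mul_q02m2, mul_q02m3, mul_q02w1, mul_q02w2, mul_q02w3, mul_q13m1, mul_q13m2, mul_q13m3, mul_q13w1, mul_q13w2, mul_q13w3, mul_r03c, mul_r03n1, mul_r03n2, mul_r03n3] <;> ring
  one_mul x := by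
    ext i
    cases i <;> simp
  mul_one x := by
    ext i
    cases i <;> simp
  left_distrib x y z := by
    ext i
    cases i <;> simp only [add_apply, mul_d0, mul_d1, mul_d2, mul_d3, mul_p01u1, mul_p01u2, mul_p01u3, mul_p01s, mul_p12u1, mul_p12u2, mul_p12u3, mul_p12s, mul_p23u1, mul_p23u2, mul_p23u3, mul_p23s, mul_q02m1, mul_q02m2, mul_q02m3, mul_q02w1, mul_q02w2, mul_q02w3, mul_q13m1, mul_q13m2, mul_q13m3, mul_q13w1, mul_q13w2, mul_q13w3, mul_r03c, mul_r03n1, mul_r03n2, mul_r03n3] <;> ring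
  right_distrib x y z := by
    ext i
    cases i <;> simp only [add_apply, mul_d0, mul_d1, mul_d2, mul_d3, mul_p01u1, mul_p01u2, mul_p01u3, mul_p01s, mul_p12u1, mul_p12u2, mul_p12u3, mul_p12s, mul_p23u1, mul_p23u2, mul_p23u3, mul_p23s, mul_q02m1, mul_q02m2, mul_q02m3, mul_q02w1, mul_q02w2, mul_q02w3, mul_q13m1, mul_q13m2, mul_q13m3, mul_q13w1, mul_q13w2, mul_q13w3, mul_r03c, mul_r03n1, mul_r03n2, mul_r03n3] <;> ring
  zero_mul x := by
    ext i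
    cases i <;> simp
  mul_zero x := by
    ext i
    cases i <;> simp
  }

instance : Algebra K (A0 K) := Algebra.ofModule
  (by
    intro c x y
    ext i
    cases i <;> simp only [smul_apply, mul_d0, mul_d1, mul_d2, mul_d3, mul_p01u1, mul_p01u2, mul_p01u3, mul_p01s, mul_p12u1, mul_p12u2, mul_p12u3, mul_p12s, mul_p23u1, mul_p23u2, mul_p23u3, mul_p23s, mul_q02m1, mul_q02m2, mul_q02m3, mul_q02w1, mul_q02w2, mul_q02w3, mul_q13m1, mul_q13m2, mul_q13m3, mul_q13w1, mul_q13w2, mul_q13w3, mul_r03c, mul_r03n1, mul_r03n2, mul_r03n3] <;> ring)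
  (by
    intro c x y
    ext i
    cases i <;> simp only [smul_apply, mul_d0, mul_d1, mul_d2, mul_d3, mul_p01u1, mul_p01u2, mul_p01u3, mul_p01s, mul_p12u1, mul_p12u2, mul_p12u3, mul_p12s, mul_p23u1, mul_p23u2, mul_p23u3, mul_p23s, mul_q02m1, mul_q02m2, mul_q02m3, mul_q02w1, mul_q02w2, mul_q02w3, mul_q13m1, mul_q13m2, mul_q13m3, mul_q13w1, mul_q13w2, mul_q13w3, mul_r03c, mul_r03n1, mul_r03n2, mul_r03n3] <;> ring)

end A0

end Pool.Agent.H38.B2
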