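import Pool.Agent.H38.B2.A0

/-!
Elements and functionals of `A0`, and the contraction `kap`.
-/

namespace Pool.Agent.H38.B2

variable {K : Type*} [Field K]

namespace A0

/-- the element `xi` -/
def xi : A0 K
  | .p01s => 1
  | .p12s => 1
  | .p23s => 1
  | _ => 0

/-- the first element of the exterior algebra -/
def al1 : A0 K
  | .p01u1 => 1
  | .p12u1 => 1
  | .p23u1 => 1
  | _ => 0

/-- the second element of the exterior algebra -/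
def al2 : A0 K
  | .p01u2 => 1
  | .p12u2 => 1
  | .p23u2 => 1
  | _ => 0

/-- the third element of the exterior algebra -/
def al3 : A0 K
  | .p01u3 => 1
  | .p12u3 => 1
  | .p23u3 => 1
  | _ => 0

/-- the volume element -/
def vol : A0 K
  | .r03c => 1
  | _ => 0

/-- idempotent -/
def e0 : A0 K
  | .d0 => 1
  | _ => 0

/-- idempotent -/
def e1 : A0 K
  | .d1 => 1
  | _ => 0

/-- idempotent -/
def e2 : A0 K
  | .d2 => 1
  | _ => 0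

/-- idempotent -/
def e3 : A0 K
  | .d3 => 1
  | _ => 0

/-- the idempotent `e0 + e2` -/
def ev : A0 K
  | .d0 => 1
  | .d2 => 1
  | _ => 0

/-- the idempotent `e1 + e3` -/
def od : A0 K
  | .d1 => 1
  | .d3 => 1
  | _ => 0

/-- the element `e0 - e1 + e2 - e3` -/
def om : A0 K
  | .d0 => 1
  | .d1 => -1
  | .d2 => 1
  | .d3 => -1
  | _ => 0

/-- underlying function of `kap` -/
def kapFun (x : A0 K) : A0 K
  | .d1 => x .p01s
  | .d2 => x .p12s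
  | .d3 => x .p23s
  | .p12u1 => x .q02w1
  | .p12u2 => x .q02w2
  | .p12u3 => x .q02w3
  | .p23u1 => x .q13w1
  | .p23u2 => x .q13w2
  | .p23u3 => x .q13w3
  | .q13m1 => x .r03n1
  | .q13m2 => x .r03n2
  | .q13m3 => x .r03n3
  | _ => 0

/-- the `xi`-coefficient, moved one column to the right -/
def kap : A0 K →ₗ[K] A0 K where
  toFun := kapFun
  map_add' x y := by
    ext i
    cases i <;> simp [kapFun]
  map_smul' c x := by
    ext i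
    cases i <;> simp [kapFun]

@[simp] theorem kap_d0 (x : A0 K) : kap x .d0 = 0 := rfl
@[simp] theorem kap_d1 (x : A0 K) : kap x .d1 = x .p01s := rfl
@[simp] theorem kap_d2 (x : A0 K) : kap x .d2 = x .p12s := rfl
@[simp] theorem kap_d3 (x : A0 K) : kap x .d3 = x .p23s := rfl
@[simp] theorem kap_p01u1 (x : A0 K) : kap x .p01u1 = 0 := rfl
@[simp] theorem kap_p01u2 (x : A0 K) : kap x .p01u2 = 0 := rfl
@[simp] theorem kap_p01u3 (x : A0 K) : kap x .p01u3 = 0 := rfl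
@[simp] theorem kap_p01s (x : A0 K) : kap x .p01s = 0 := rfl
@[simp] theorem kap_p12u1 (x : A0 K) : kap x .p12u1 = x .q02w1 := rfl
@[simp] theorem kap_p12u2 (x : A0 K) : kap x .p12u2 = x .q02w2 := rfl
@[simp] theorem kap_p12u3 (x : A0 K) : kap x .p12u3 = x .q02w3 := rfl
@[simp] theorem kap_p12s (x : A0 K) : kap x .p12s = 0 := rfl
@[simp] theorem kap_p23u1 (x : A0 K) : kap x .p23u1 = x .q13w1 := rfl
@[simp] theorem kap_p23u2 (x : A0 K) : kap x .p23u2 = x .q13w2 := rfl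
@[simp] theorem kap_p23u3 (x : A0 K) : kap x .p23u3 = x .q13w3 := rfl
@[simp] theorem kap_p23s (x : A0 K) : kap x .p23s = 0 := rfl
@[simp] theorem kap_q02m1 (x : A0 K) : kap x .q02m1 = 0 := rfl
@[simp] theorem kap_q02m2 (x : A0 K) : kap x .q02m2 = 0 := rfl
@[simp] theorem kap_q02m3 (x : A0 K) : kap x .q02m3 = 0 := rfl
@[simp] theorem kap_q02w1 (x : A0 K) : kap x .q02w1 = 0 := rfl
@[simp] theorem kap_q02w2 (x : A0 K) : kap x .q02w2 = 0 := rfl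
@[simp] theorem kap_q02w3 (x : A0 K) : kap x .q02w3 = 0 := rfl
@[simp] theorem kap_q13m1 (x : A0 K) : kap x .q13m1 = x .r03n1 := rfl
@[simp] theorem kap_q13m2 (x : A0 K) : kap x .q13m2 = x .r03n2 := rfl
@[simp] theorem kap_q13m3 (x : A0 K) : kap x .q13m3 = x .r03n3 := rfl
@[simp] theorem kap_q13w1 (x : A0 K) : kap x .q13w1 = 0 := rfl
@[simp] theorem kap_q13w2 (x : A0 K) : kap x .q13w2 = 0 := rfl
@[simp] theorem kap_q13w3 (x : A0 K) : kap x .q13w3 = 0 := rfl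
@[simp] theorem kap_r03c (x : A0 K) : kap x .r03c = 0 := rfl
@[simp] theorem kap_r03n1 (x : A0 K) : kap x .r03n1 = 0 := rfl
@[simp] theorem kap_r03n2 (x : A0 K) : kap x .r03n2 = 0 := rfl
@[simp] theorem kap_r03n3 (x : A0 K) : kap x .r03n3 = 0 := rfl

/-- underlying function of `lam` -/
def lamFun (x : A0 K) : A0 K
  | .d0 => x .d0
  | .p01u1 => x .p01u1
  | .p01u2 => x .p01u2
  | .p01u3 => x .p01u3
  | .q02m1 => x .q02m1
  | .q02m2 => x .q02m2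
  | .q02m3 => x .q02m3
  | .r03c => x .r03c
  | _ => 0

/-- the part without `xi` of the column `0` -/
def lam : A0 K →ₗ[K] A0 K where
  toFun := lamFun
  map_add' x y := by
    ext i
    cases i <;> simp [lamFun]
  map_smul' c x := by
    ext i
    cases i <;> simp [lamFun]

@[simp] theorem lam_d0 (x : A0 K) : lam x .d0 = x .d0 := rfl
@[simp] theorem lam_d1 (x : A0 K) : lam x .d1 = 0 := rfl
@[simp] theorem lam_d2 (x : A0 K) : lam x .d2 = 0 := rfl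
@[simp] theorem lam_d3 (x : A0 K) : lam x .d3 = 0 := rfl
@[simp] theorem lam_p01u1 (x : A0 K) : lam x .p01u1 = x .p01u1 := rfl
@[simp] theorem lam_p01u2 (x : A0 K) : lam x .p01u2 = x .p01u2 := rfl
@[simp] theorem lam_p01u3 (x : A0 K) : lam x .p01u3 = x .p01u3 := rfl
@[simp] theorem lam_p01s (x : A0 K) : lam x .p01s = 0 := rfl
@[simp] theorem lam_p12u1 (x : A0 K) : lam x .p12u1 = 0 := rfl
@[simp] theorem lam_p12u2 (x : A0 K) : lam x .p12u2 = 0 := rfl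
@[simp] theorem lam_p12u3 (x : A0 K) : lam x .p12u3 = 0 := rfl
@[simp] theorem lam_p12s (x : A0 K) : lam x .p12s = 0 := rfl
@[simp] theorem lam_p23u1 (x : A0 K) : lam x .p23u1 = 0 := rfl
@[simp] theorem lam_p23u2 (x : A0 K) : lam x .p23u2 = 0 := rfl
@[simp] theorem lam_p23u3 (x : A0 K) : lam x .p23u3 = 0 := rfl
@[simp] theorem lam_p23s (x : A0 K) : lam x .p23s = 0 := rfl
@[simp] theorem lam_q02m1 (x : A0 K) : lam x .q02m1 = x .q02m1 := rfl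
@[simp] theorem lam_q02m2 (x : A0 K) : lam x .q02m2 = x .q02m2 := rfl
@[simp] theorem lam_q02m3 (x : A0 K) : lam x .q02m3 = x .q02m3 := rfl
@[simp] theorem lam_q02w1 (x : A0 K) : lam x .q02w1 = 0 := rfl
@[simp] theorem lam_q02w2 (x : A0 K) : lam x .q02w2 = 0 := rfl
@[simp] theorem lam_q02w3 (x : A0 K) : lam x .q02w3 = 0 := rfl
@[simp] theorem lam_q13m1 (x : A0 K) : lam x .q13m1 = 0 := rfl
@[simp] theorem lam_q13m2 (x : A0 K) : lam x .q13m2 = 0 := rfl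
@[simp] theorem lam_q13m3 (x : A0 K) : lam x .q13m3 = 0 := rfl
@[simp] theorem lam_q13w1 (x : A0 K) : lam x .q13w1 = 0 := rfl
@[simp] theorem lam_q13w2 (x : A0 K) : lam x .q13w2 = 0 := rfl
@[simp] theorem lam_q13w3 (x : A0 K) : lam x .q13w3 = 0 := rfl
@[simp] theorem lam_r03c (x : A0 K) : lam x .r03c = x .r03c := rfl
@[simp] theorem lam_r03n1 (x : A0 K) : lam x .r03n1 = 0 := rfl
@[simp] theorem lam_r03n2 (x : A0 K) : lam x .r03n2 = 0 := rfl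
@[simp] theorem lam_r03n3 (x : A0 K) : lam x .r03n3 = 0 := rfl

@[simp] theorem xi_d0 : (xi : A0 K) .d0 = 0 := rfl
@[simp] theorem xi_d1 : (xi : A0 K) .d1 = 0 := rfl
@[simp] theorem xi_d2 : (xi : A0 K) .d2 = 0 := rfl
@[simp] theorem xi_d3 : (xi : A0 K) .d3 = 0 := rfl
@[simp] theorem xi_p01u1 : (xi : A0 K) .p01u1 = 0 := rfl
@[simp] theorem xi_p01u2 : (xi : A0 K) .p01u2 = 0 := rfl
@[simp] theorem xi_p01u3 : (xi : A0 K) .p01u3 = 0 := rfl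
@[simp] theorem xi_p01s : (xi : A0 K) .p01s = 1 := rfl
@[simp] theorem xi_p12u1 : (xi : A0 K) .p12u1 = 0 := rfl
@[simp] theorem xi_p12u2 : (xi : A0 K) .p12u2 = 0 := rfl
@[simp] theorem xi_p12u3 : (xi : A0 K) .p12u3 = 0 := rfl
@[simp] theorem xi_p12s : (xi : A0 K) .p12s = 1 := rfl
@[simp] theorem xi_p23u1 : (xi : A0 K) .p23u1 = 0 := rfl
@[simp] theorem xi_p23u2 : (xi : A0 K) .p23u2 = 0 := rfl
@[simp] theorem xi_p23u3 : (xi : A0 K) .p23u3 = 0 := rfl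
@[simp] theorem xi_p23s : (xi : A0 K) .p23s = 1 := rfl
@[simp] theorem xi_q02m1 : (xi : A0 K) .q02m1 = 0 := rfl
@[simp] theorem xi_q02m2 : (xi : A0 K) .q02m2 = 0 := rfl
@[simp] theorem xi_q02m3 : (xi : A0 K) .q02m3 = 0 := rfl
@[simp] theorem xi_q02w1 : (xi : A0 K) .q02w1 = 0 := rfl
@[simp] theorem xi_q02w2 : (xi : A0 K) .q02w2 = 0 := rfl
@[simp] theorem xi_q02w3 : (xi : A0 K) .q02w3 = 0 := rfl
@[simp] theorem xi_q13m1 : (xi : A0 K) .q13m1 = 0 := rfl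
@[simp] theorem xi_q13m2 : (xi : A0 K) .q13m2 = 0 := rfl
@[simp] theorem xi_q13m3 : (xi : A0 K) .q13m3 = 0 := rfl
@[simp] theorem xi_q13w1 : (xi : A0 K) .q13w1 = 0 := rfl
@[simp] theorem xi_q13w2 : (xi : A0 K) .q13w2 = 0 := rfl
@[simp] theorem xi_q13w3 : (xi : A0 K) .q13w3 = 0 := rfl
@[simp] theorem xi_r03c : (xi : A0 K) .r03c = 0 := rfl
@[simp] theorem xi_r03n1 : (xi : A0 K) .r03n1 = 0 := rfl
@[simp] theorem xi_r03n2 : (xi : A0 K) .r03n2 = 0 := rfl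
@[simp] theorem xi_r03n3 : (xi : A0 K) .r03n3 = 0 := rfl

@[simp] theorem al1_d0 : (al1 : A0 K) .d0 = 0 := rfl
@[simp] theorem al1_d1 : (al1 : A0 K) .d1 = 0 := rfl
@[simp] theorem al1_d2 : (al1 : A0 K) .d2 = 0 := rfl
@[simp] theorem al1_d3 : (al1 : A0 K) .d3 = 0 := rfl
@[simp] theorem al1_p01u1 : (al1 : A0 K) .p01u1 = 1 := rfl
@[simp] theorem al1_p01u2 : (al1 : A0 K) .p01u2 = 0 := rfl
@[simp] theorem al1_p01u3 : (al1 : A0 K) .p01u3 = 0 := rfl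
@[simp] theorem al1_p01s : (al1 : A0 K) .p01s = 0 := rfl
@[simp] theorem al1_p12u1 : (al1 : A0 K) .p12u1 = 1 := rfl
@[simp] theorem al1_p12u2 : (al1 : A0 K) .p12u2 = 0 := rfl
@[simp] theorem al1_p12u3 : (al1 : A0 K) .p12u3 = 0 := rfl
@[simp] theorem al1_p12s : (al1 : A0 K) .p12s = 0 := rfl
@[simp] theorem al1_p23u1 : (al1 : A0 K) .p23u1 = 1 := rfl
@[simp] theorem al1_p23u2 : (al1 : A0 K) .p23u2 = 0 := rfl
@[simp] theorem al1_p23u3 : (al1 : A0 K) .p23u3 = 0 := rfl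
@[simp] theorem al1_p23s : (al1 : A0 K) .p23s = 0 := rfl
@[simp] theorem al1_q02m1 : (al1 : A0 K) .q02m1 = 0 := rfl
@[simp] theorem al1_q02m2 : (al1 : A0 K) .q02m2 = 0 := rfl
@[simp] theorem al1_q02m3 : (al1 : A0 K) .q02m3 = 0 := rfl
@[simp] theorem al1_q02w1 : (al1 : A0 K) .q02w1 = 0 := rfl
@[simp] theorem al1_q02w2 : (al1 : A0 K) .q02w2 = 0 := rfl
@[simp] theorem al1_q02w3 : (al1 : A0 K) .q02w3 = 0 := rfl
@[simp] theorem al1_q13m1 : (al1 : A0 K) .q13m1 = 0 := rfl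
@[simp] theorem al1_q13m2 : (al1 : A0 K) .q13m2 = 0 := rfl
@[simp] theorem al1_q13m3 : (al1 : A0 K) .q13m3 = 0 := rfl
@[simp] theorem al1_q13w1 : (al1 : A0 K) .q13w1 = 0 := rfl
@[simp] theorem al1_q13w2 : (al1 : A0 K) .q13w2 = 0 := rfl
@[simp] theorem al1_q13w3 : (al1 : A0 K) .q13w3 = 0 := rfl
@[simp] theorem al1_r03c : (al1 : A0 K) .r03c = 0 := rfl
@[simp] theorem al1_r03n1 : (al1 : A0 K) .r03n1 = 0 := rfl
@[simp] theorem al1_r03n2 : (al1 : A0 K) .r03n2 = 0 := rfl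
@[simp] theorem al1_r03n3 : (al1 : A0 K) .r03n3 = 0 := rfl

@[simp] theorem al2_d0 : (al2 : A0 K) .d0 = 0 := rfl
@[simp] theorem al2_d1 : (al2 : A0 K) .d1 = 0 := rfl
@[simp] theorem al2_d2 : (al2 : A0 K) .d2 = 0 := rfl
@[simp] theorem al2_d3 : (al2 : A0 K) .d3 = 0 := rfl
@[simp] theorem al2_p01u1 : (al2 : A0 K) .p01u1 = 0 := rfl
@[simp] theorem al2_p01u2 : (al2 : A0 K) .p01u2 = 1 := rfl
@[simp] theorem al2_p01u3 : (al2 : A0 K) .p01u3 = 0 := rfl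
@[simp] theorem al2_p01s : (al2 : A0 K) .p01s = 0 := rfl
@[simp] theorem al2_p12u1 : (al2 : A0 K) .p12u1 = 0 := rfl
@[simp] theorem al2_p12u2 : (al2 : A0 K) .p12u2 = 1 := rfl
@[simp] theorem al2_p12u3 : (al2 : A0 K) .p12u3 = 0 := rfl
@[simp] theorem al2_p12s : (al2 : A0 K) .p12s = 0 := rfl
@[simp] theorem al2_p23u1 : (al2 : A0 K) .p23u1 = 0 := rfl
@[simp] theorem al2_p23u2 : (al2 : A0 K) .p23u2 = 1 := rfl
@[simp] theorem al2_p23u3 : (al2 : A0 K) .p23u3 = 0 := rfl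
@[simp] theorem al2_p23s : (al2 : A0 K) .p23s = 0 := rfl
@[simp] theorem al2_q02m1 : (al2 : A0 K) .q02m1 = 0 := rfl
@[simp] theorem al2_q02m2 : (al2 : A0 K) .q02m2 = 0 := rfl
@[simp] theorem al2_q02m3 : (al2 : A0 K) .q02m3 = 0 := rfl
@[simp] theorem al2_q02w1 : (al2 : A0 K) .q02w1 = 0 := rfl
@[simp] theorem al2_q02w2 : (al2 : A0 K) .q02w2 = 0 := rfl
@[simp] theorem al2_q02w3 : (al2 : A0 K) .q02w3 = 0 := rfl
@[simp] theorem al2_q13m1 : (al2 : A0 K) .q13m1 = 0 := rfl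
@[simp] theorem al2_q13m2 : (al2 : A0 K) .q13m2 = 0 := rfl
@[simp] theorem al2_q13m3 : (al2 : A0 K) .q13m3 = 0 := rfl
@[simp] theorem al2_q13w1 : (al2 : A0 K) .q13w1 = 0 := rfl
@[simp] theorem al2_q13w2 : (al2 : A0 K) .q13w2 = 0 := rfl
@[simp] theorem al2_q13w3 : (al2 : A0 K) .q13w3 = 0 := rfl
@[simp] theorem al2_r03c : (al2 : A0 K) .r03c = 0 := rfl
@[simp] theorem al2_r03n1 : (al2 : A0 K) .r03n1 = 0 := rfl
@[simp] theorem al2_r03n2 : (al2 : A0 K) .r03n2 = 0 := rfl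
@[simp] theorem al2_r03n3 : (al2 : A0 K) .r03n3 = 0 := rfl

@[simp] theorem al3_d0 : (al3 : A0 K) .d0 = 0 := rfl
@[simp] theorem al3_d1 : (al3 : A0 K) .d1 = 0 := rfl
@[simp] theorem al3_d2 : (al3 : A0 K) .d2 = 0 := rfl
@[simp] theorem al3_d3 : (al3 : A0 K) .d3 = 0 := rfl
@[simp] theorem al3_p01u1 : (al3 : A0 K) .p01u1 = 0 := rfl
@[simp] theorem al3_p01u2 : (al3 : A0 K) .p01u2 = 0 := rfl
@[simp] theorem al3_p01u3 : (al3 : A0 K) .p01u3 = 1 := rfl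
@[simp] theorem al3_p01s : (al3 : A0 K) .p01s = 0 := rfl
@[simp] theorem al3_p12u1 : (al3 : A0 K) .p12u1 = 0 := rfl
@[simp] theorem al3_p12u2 : (al3 : A0 K) .p12u2 = 0 := rfl
@[simp] theorem al3_p12u3 : (al3 : A0 K) .p12u3 = 1 := rfl
@[simp] theorem al3_p12s : (al3 : A0 K) .p12s = 0 := rfl
@[simp] theorem al3_p23u1 : (al3 : A0 K) .p23u1 = 0 := rfl
@[simp] theorem al3_p23u2 : (al3 : A0 K) .p23u2 = 0 := rfl
@[simp] theorem al3_p23u3 : (al3 : A0 K) .p23u3 = 1 := rfl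
@[simp] theorem al3_p23s : (al3 : A0 K) .p23s = 0 := rfl
@[simp] theorem al3_q02m1 : (al3 : A0 K) .q02m1 = 0 := rfl
@[simp] theorem al3_q02m2 : (al3 : A0 K) .q02m2 = 0 := rfl
@[simp] theorem al3_q02m3 : (al3 : A0 K) .q02m3 = 0 := rfl
@[simp] theorem al3_q02w1 : (al3 : A0 K) .q02w1 = 0 := rfl
@[simp] theorem al3_q02w2 : (al3 : A0 K) .q02w2 = 0 := rfl
@[simp] theorem al3_q02w3 : (al3 : A0 K) .q02w3 = 0 := rfl
@[simp] theorem al3_q13m1 : (al3 : A0 K) .q13m1 = 0 := rfl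
@[simp] theorem al3_q13m2 : (al3 : A0 K) .q13m2 = 0 := rfl
@[simp] theorem al3_q13m3 : (al3 : A0 K) .q13m3 = 0 := rfl
@[simp] theorem al3_q13w1 : (al3 : A0 K) .q13w1 = 0 := rfl
@[simp] theorem al3_q13w2 : (al3 : A0 K) .q13w2 = 0 := rfl
@[simp] theorem al3_q13w3 : (al3 : A0 K) .q13w3 = 0 := rfl
@[simp] theorem al3_r03c : (al3 : A0 K) .r03c = 0 := rfl
@[simp] theorem al3_r03n1 : (al3 : A0 K) .r03n1 = 0 := rfl
@[simp] theorem al3_r03n2 : (al3 : A0 K) .r03n2 = 0 := rfl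
@[simp] theorem al3_r03n3 : (al3 : A0 K) .r03n3 = 0 := rfl

@[simp] theorem vol_d0 : (vol : A0 K) .d0 = 0 := rfl
@[simp] theorem vol_d1 : (vol : A0 K) .d1 = 0 := rfl
@[simp] theorem vol_d2 : (vol : A0 K) .d2 = 0 := rfl
@[simp] theorem vol_d3 : (vol : A0 K) .d3 = 0 := rfl
@[simp] theorem vol_p01u1 : (vol : A0 K) .p01u1 = 0 := rfl
@[simp] theorem vol_p01u2 : (vol : A0 K) .p01u2 = 0 := rfl
@[simp] theorem vol_p01u3 : (vol : A0 K) .p01u3 = 0 := rfl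
@[simp] theorem vol_p01s : (vol : A0 K) .p01s = 0 := rfl
@[simp] theorem vol_p12u1 : (vol : A0 K) .p12u1 = 0 := rfl
@[simp] theorem vol_p12u2 : (vol : A0 K) .p12u2 = 0 := rfl
@[simp] theorem vol_p12u3 : (vol : A0 K) .p12u3 = 0 := rfl
@[simp] theorem vol_p12s : (vol : A0 K) .p12s = 0 := rfl
@[simp] theorem vol_p23u1 : (vol : A0 K) .p23u1 = 0 := rfl
@[simp] theorem vol_p23u2 : (vol : A0 K) .p23u2 = 0 := rfl
@[simp] theorem vol_p23u3 : (vol : A0 K) .p23u3 = 0 := rfl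
@[simp] theorem vol_p23s : (vol : A0 K) .p23s = 0 := rfl
@[simp] theorem vol_q02m1 : (vol : A0 K) .q02m1 = 0 := rfl
@[simp] theorem vol_q02m2 : (vol : A0 K) .q02m2 = 0 := rfl
@[simp] theorem vol_q02m3 : (vol : A0 K) .q02m3 = 0 := rfl
@[simp] theorem vol_q02w1 : (vol : A0 K) .q02w1 = 0 := rfl
@[simp] theorem vol_q02w2 : (vol : A0 K) .q02w2 = 0 := rfl
@[simp] theorem vol_q02w3 : (vol : A0 K) .q02w3 = 0 := rfl
@[simp] theorem vol_q13m1 : (vol : A0 K) .q13m1 = 0 := rfl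
@[simp] theorem vol_q13m2 : (vol : A0 K) .q13m2 = 0 := rfl
@[simp] theorem vol_q13m3 : (vol : A0 K) .q13m3 = 0 := rfl
@[simp] theorem vol_q13w1 : (vol : A0 K) .q13w1 = 0 := rfl
@[simp] theorem vol_q13w2 : (vol : A0 K) .q13w2 = 0 := rfl
@[simp] theorem vol_q13w3 : (vol : A0 K) .q13w3 = 0 := rfl
@[simp] theorem vol_r03c : (vol : A0 K) .r03c = 1 := rfl
@[simp] theorem vol_r03n1 : (vol : A0 K) .r03n1 = 0 := rfl
@[simp] theorem vol_r03n2 : (vol : A0 K) .r03n2 = 0 := rfl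
@[simp] theorem vol_r03n3 : (vol : A0 K) .r03n3 = 0 := rfl

@[simp] theorem e0_d0 : (e0 : A0 K) .d0 = 1 := rfl
@[simp] theorem e0_d1 : (e0 : A0 K) .d1 = 0 := rfl
@[simp] theorem e0_d2 : (e0 : A0 K) .d2 = 0 := rfl
@[simp] theorem e0_d3 : (e0 : A0 K) .d3 = 0 := rfl
@[simp] theorem e0_p01u1 : (e0 : A0 K) .p01u1 = 0 := rfl
@[simp] theorem e0_p01u2 : (e0 : A0 K) .p01u2 = 0 := rfl
@[simp] theorem e0_p01u3 : (e0 : A0 K) .p01u3 = 0 := rfl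
@[simp] theorem e0_p01s : (e0 : A0 K) .p01s = 0 := rfl
@[simp] theorem e0_p12u1 : (e0 : A0 K) .p12u1 = 0 := rfl
@[simp] theorem e0_p12u2 : (e0 : A0 K) .p12u2 = 0 := rfl
@[simp] theorem e0_p12u3 : (e0 : A0 K) .p12u3 = 0 := rfl
@[simp] theorem e0_p12s : (e0 : A0 K) .p12s = 0 := rfl
@[simp] theorem e0_p23u1 : (e0 : A0 K) .p23u1 = 0 := rfl
@[simp] theorem e0_p23u2 : (e0 : A0 K) .p23u2 = 0 := rfl
@[simp] theorem e0_p23u3 : (e0 : A0 K) .p23u3 = 0 := rfl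
@[simp] theorem e0_p23s : (e0 : A0 K) .p23s = 0 := rfl
@[simp] theorem e0_q02m1 : (e0 : A0 K) .q02m1 = 0 := rfl
@[simp] theorem e0_q02m2 : (e0 : A0 K) .q02m2 = 0 := rfl
@[simp] theorem e0_q02m3 : (e0 : A0 K) .q02m3 = 0 := rfl
@[simp] theorem e0_q02w1 : (e0 : A0 K) .q02w1 = 0 := rfl
@[simp] theorem e0_q02w2 : (e0 : A0 K) .q02w2 = 0 := rfl
@[simp] theorem e0_q02w3 : (e0 : A0 K) .q02w3 = 0 := rfl
@[simp] theorem e0_q13m1 : (e0 : A0 K) .q13m1 = 0 := rfl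
@[simp] theorem e0_q13m2 : (e0 : A0 K) .q13m2 = 0 := rfl
@[simp] theorem e0_q13m3 : (e0 : A0 K) .q13m3 = 0 := rfl
@[simp] theorem e0_q13w1 : (e0 : A0 K) .q13w1 = 0 := rfl
@[simp] theorem e0_q13w2 : (e0 : A0 K) .q13w2 = 0 := rfl
@[simp] theorem e0_q13w3 : (e0 : A0 K) .q13w3 = 0 := rfl
@[simp] theorem e0_r03c : (e0 : A0 K) .r03c = 0 := rfl
@[simp] theorem e0_r03n1 : (e0 : A0 K) .r03n1 = 0 := rfl
@[simp] theorem e0_r03n2 : (e0 : A0 K) .r03n2 = 0 := rfl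
@[simp] theorem e0_r03n3 : (e0 : A0 K) .r03n3 = 0 := rfl

@[simp] theorem e1_d0 : (e1 : A0 K) .d0 = 0 := rfl
@[simp] theorem e1_d1 : (e1 : A0 K) .d1 = 1 := rfl
@[simp] theorem e1_d2 : (e1 : A0 K) .d2 = 0 := rfl
@[simp] theorem e1_d3 : (e1 : A0 K) .d3 = 0 := rfl
@[simp] theorem e1_p01u1 : (e1 : A0 K) .p01u1 = 0 := rfl
@[simp] theorem e1_p01u2 : (e1 : A0 K) .p01u2 = 0 := rfl
@[simp] theorem e1_p01u3 : (e1 : A0 K) .p01u3 = 0 := rfl
@[simp] theorem e1_p01s : (e1 : A0 K) .p01s = 0 := rfl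
@[simp] theorem e1_p12u1 : (e1 : A0 K) .p12u1 = 0 := rfl
@[simp] theorem e1_p12u2 : (e1 : A0 K) .p12u2 = 0 := rfl
@[simp] theorem e1_p12u3 : (e1 : A0 K) .p12u3 = 0 := rfl
@[simp] theorem e1_p12s : (e1 : A0 K) .p12s = 0 := rfl
@[simp] theorem e1_p23u1 : (e1 : A0 K) .p23u1 = 0 := rfl
@[simp] theorem e1_p23u2 : (e1 : A0 K) .p23u2 = 0 := rfl
@[simp] theorem e1_p23u3 : (e1 : A0 K) .p23u3 = 0 := rfl
@[simp] theorem e1_p23s : (e1 : A0 K) .p23s = 0 := rfl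
@[simp] theorem e1_q02m1 : (e1 : A0 K) .q02m1 = 0 := rfl
@[simp] theorem e1_q02m2 : (e1 : A0 K) .q02m2 = 0 := rfl
@[simp] theorem e1_q02m3 : (e1 : A0 K) .q02m3 = 0 := rfl
@[simp] theorem e1_q02w1 : (e1 : A0 K) .q02w1 = 0 := rfl
@[simp] theorem e1_q02w2 : (e1 : A0 K) .q02w2 = 0 := rfl
@[simp] theorem e1_q02w3 : (e1 : A0 K) .q02w3 = 0 := rfl
@[simp] theorem e1_q13m1 : (e1 : A0 K) .q13m1 = 0 := rfl
@[simp] theorem e1_q13m2 : (e1 : A0 K) .q13m2 = 0 := rfl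
@[simp] theorem e1_q13m3 : (e1 : A0 K) .q13m3 = 0 := rfl
@[simp] theorem e1_q13w1 : (e1 : A0 K) .q13w1 = 0 := rfl
@[simp] theorem e1_q13w2 : (e1 : A0 K) .q13w2 = 0 := rfl
@[simp] theorem e1_q13w3 : (e1 : A0 K) .q13w3 = 0 := rfl
@[simp] theorem e1_r03c : (e1 : A0 K) .r03c = 0 := rfl
@[simp] theorem e1_r03n1 : (e1 : A0 K) .r03n1 = 0 := rfl
@[simp] theorem e1_r03n2 : (e1 : A0 K) .r03n2 = 0 := rfl
@[simp] theorem e1_r03n3 : (e1 : A0 K) .r03n3 = 0 := rfl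

@[simp] theorem e2_d0 : (e2 : A0 K) .d0 = 0 := rfl
@[simp] theorem e2_d1 : (e2 : A0 K) .d1 = 0 := rfl
@[simp] theorem e2_d2 : (e2 : A0 K) .d2 = 1 := rfl
@[simp] theorem e2_d3 : (e2 : A0 K) .d3 = 0 := rfl
@[simp] theorem e2_p01u1 : (e2 : A0 K) .p01u1 = 0 := rfl
@[simp] theorem e2_p01u2 : (e2 : A0 K) .p01u2 = 0 := rfl
@[simp] theorem e2_p01u3 : (e2 : A0 K) .p01u3 = 0 := rfl
@[simp] theorem e2_p01s : (e2 : A0 K) .p01s = 0 := rfl
@[simp] theorem e2_p12u1 : (e2 : A0 K) .p12u1 = 0 := rfl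
@[simp] theorem e2_p12u2 : (e2 : A0 K) .p12u2 = 0 := rfl
@[simp] theorem e2_p12u3 : (e2 : A0 K) .p12u3 = 0 := rfl
@[simp] theorem e2_p12s : (e2 : A0 K) .p12s = 0 := rfl
@[simp] theorem e2_p23u1 : (e2 : A0 K) .p23u1 = 0 := rfl
@[simp] theorem e2_p23u2 : (e2 : A0 K) .p23u2 = 0 := rfl
@[simp] theorem e2_p23u3 : (e2 : A0 K) .p23u3 = 0 := rfl
@[simp] theorem e2_p23s : (e2 : A0 K) .p23s = 0 := rfl
@[simp] theorem e2_q02m1 : (e2 : A0 K) .q02m1 = 0 := rfl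
@[simp] theorem e2_q02m2 : (e2 : A0 K) .q02m2 = 0 := rfl
@[simp] theorem e2_q02m3 : (e2 : A0 K) .q02m3 = 0 := rfl
@[simp] theorem e2_q02w1 : (e2 : A0 K) .q02w1 = 0 := rfl
@[simp] theorem e2_q02w2 : (e2 : A0 K) .q02w2 = 0 := rfl
@[simp] theorem e2_q02w3 : (e2 : A0 K) .q02w3 = 0 := rfl
@[simp] theorem e2_q13m1 : (e2 : A0 K) .q13m1 = 0 := rfl
@[simp] theorem e2_q13m2 : (e2 : A0 K) .q13m2 = 0 := rfl
@[simp] theorem e2_q13m3 : (e2 : A0 K) .q13m3 = 0 := rfl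
@[simp] theorem e2_q13w1 : (e2 : A0 K) .q13w1 = 0 := rfl
@[simp] theorem e2_q13w2 : (e2 : A0 K) .q13w2 = 0 := rfl
@[simp] theorem e2_q13w3 : (e2 : A0 K) .q13w3 = 0 := rfl
@[simp] theorem e2_r03c : (e2 : A0 K) .r03c = 0 := rfl
@[simp] theorem e2_r03n1 : (e2 : A0 K) .r03n1 = 0 := rfl
@[simp] theorem e2_r03n2 : (e2 : A0 K) .r03n2 = 0 := rfl
@[simp] theorem e2_r03n3 : (e2 : A0 K) .r03n3 = 0 := rfl

@[simp] theorem e3_d0 : (e3 : A0 K) .d0 = 0 := rfl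
@[simp] theorem e3_d1 : (e3 : A0 K) .d1 = 0 := rfl
@[simp] theorem e3_d2 : (e3 : A0 K) .d2 = 0 := rfl
@[simp] theorem e3_d3 : (e3 : A0 K) .d3 = 1 := rfl
@[simp] theorem e3_p01u1 : (e3 : A0 K) .p01u1 = 0 := rfl
@[simp] theorem e3_p01u2 : (e3 : A0 K) .p01u2 = 0 := rfl
@[simp] theorem e3_p01u3 : (e3 : A0 K) .p01u3 = 0 := rfl
@[simp] theorem e3_p01s : (e3 : A0 K) .p01s = 0 := rfl
@[simp] theorem e3_p12u1 : (e3 : A0 K) .p12u1 = 0 := rfl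
@[simp] theorem e3_p12u2 : (e3 : A0 K) .p12u2 = 0 := rfl
@[simp] theorem e3_p12u3 : (e3 : A0 K) .p12u3 = 0 := rfl
@[simp] theorem e3_p12s : (e3 : A0 K) .p12s = 0 := rfl
@[simp] theorem e3_p23u1 : (e3 : A0 K) .p23u1 = 0 := rfl
@[simp] theorem e3_p23u2 : (e3 : A0 K) .p23u2 = 0 := rfl
@[simp] theorem e3_p23u3 : (e3 : A0 K) .p23u3 = 0 := rfl
@[simp] theorem e3_p23s : (e3 : A0 K) .p23s = 0 := rfl
@[simp] theorem e3_q02m1 : (e3 : A0 K) .q02m1 = 0 := rfl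
@[simp] theorem e3_q02m2 : (e3 : A0 K) .q02m2 = 0 := rfl
@[simp] theorem e3_q02m3 : (e3 : A0 K) .q02m3 = 0 := rfl
@[simp] theorem e3_q02w1 : (e3 : A0 K) .q02w1 = 0 := rfl
@[simp] theorem e3_q02w2 : (e3 : A0 K) .q02w2 = 0 := rfl
@[simp] theorem e3_q02w3 : (e3 : A0 K) .q02w3 = 0 := rfl
@[simp] theorem e3_q13m1 : (e3 : A0 K) .q13m1 = 0 := rfl
@[simp] theorem e3_q13m2 : (e3 : A0 K) .q13m2 = 0 := rfl
@[simp] theorem e3_q13m3 : (e3 : A0 K) .q13m3 = 0 := rfl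
@[simp] theorem e3_q13w1 : (e3 : A0 K) .q13w1 = 0 := rfl
@[simp] theorem e3_q13w2 : (e3 : A0 K) .q13w2 = 0 := rfl
@[simp] theorem e3_q13w3 : (e3 : A0 K) .q13w3 = 0 := rfl
@[simp] theorem e3_r03c : (e3 : A0 K) .r03c = 0 := rfl
@[simp] theorem e3_r03n1 : (e3 : A0 K) .r03n1 = 0 := rfl
@[simp] theorem e3_r03n2 : (e3 : A0 K) .r03n2 = 0 := rfl
@[simp] theorem e3_r03n3 : (e3 : A0 K) .r03n3 = 0 := rfl

@[simp] theorem ev_d0 : (ev : A0 K) .d0 = 1 := rfl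
@[simp] theorem ev_d1 : (ev : A0 K) .d1 = 0 := rfl
@[simp] theorem ev_d2 : (ev : A0 K) .d2 = 1 := rfl
@[simp] theorem ev_d3 : (ev : A0 K) .d3 = 0 := rfl
@[simp] theorem ev_p01u1 : (ev : A0 K) .p01u1 = 0 := rfl
@[simp] theorem ev_p01u2 : (ev : A0 K) .p01u2 = 0 := rfl
@[simp] theorem ev_p01u3 : (ev : A0 K) .p01u3 = 0 := rfl
@[simp] theorem ev_p01s : (ev : A0 K) .p01s = 0 := rfl
@[simp] theorem ev_p12u1 : (ev : A0 K) .p12u1 = 0 := rfl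
@[simp] theorem ev_p12u2 : (ev : A0 K) .p12u2 = 0 := rfl
@[simp] theorem ev_p12u3 : (ev : A0 K) .p12u3 = 0 := rfl
@[simp] theorem ev_p12s : (ev : A0 K) .p12s = 0 := rfl
@[simp] theorem ev_p23u1 : (ev : A0 K) .p23u1 = 0 := rfl
@[simp] theorem ev_p23u2 : (ev : A0 K) .p23u2 = 0 := rfl
@[simp] theorem ev_p23u3 : (ev : A0 K) .p23u3 = 0 := rfl
@[simp] theorem ev_p23s : (ev : A0 K) .p23s = 0 := rfl
@[simp] theorem ev_q02m1 : (ev : A0 K) .q02m1 = 0 := rfl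
@[simp] theorem ev_q02m2 : (ev : A0 K) .q02m2 = 0 := rfl
@[simp] theorem ev_q02m3 : (ev : A0 K) .q02m3 = 0 := rfl
@[simp] theorem ev_q02w1 : (ev : A0 K) .q02w1 = 0 := rfl
@[simp] theorem ev_q02w2 : (ev : A0 K) .q02w2 = 0 := rfl
@[simp] theorem ev_q02w3 : (ev : A0 K) .q02w3 = 0 := rfl
@[simp] theorem ev_q13m1 : (ev : A0 K) .q13m1 = 0 := rfl
@[simp] theorem ev_q13m2 : (ev : A0 K) .q13m2 = 0 := rfl
@[simp] theorem ev_q13m3 : (ev : A0 K) .q13m3 = 0 := rfl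
@[simp] theorem ev_q13w1 : (ev : A0 K) .q13w1 = 0 := rfl
@[simp] theorem ev_q13w2 : (ev : A0 K) .q13w2 = 0 := rfl
@[simp] theorem ev_q13w3 : (ev : A0 K) .q13w3 = 0 := rfl
@[simp] theorem ev_r03c : (ev : A0 K) .r03c = 0 := rfl
@[simp] theorem ev_r03n1 : (ev : A0 K) .r03n1 = 0 := rfl
@[simp] theorem ev_r03n2 : (ev : A0 K) .r03n2 = 0 := rfl
@[simp] theorem ev_r03n3 : (ev : A0 K) .r03n3 = 0 := rfl

@[simp] theorem od_d0 : (od : A0 K) .d0 = 0 := rfl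
@[simp] theorem od_d1 : (od : A0 K) .d1 = 1 := rfl
@[simp] theorem od_d2 : (od : A0 K) .d2 = 0 := rfl
@[simp] theorem od_d3 : (od : A0 K) .d3 = 1 := rfl
@[simp] theorem od_p01u1 : (od : A0 K) .p01u1 = 0 := rfl
@[simp] theorem od_p01u2 : (od : A0 K) .p01u2 = 0 := rfl
@[simp] theorem od_p01u3 : (od : A0 K) .p01u3 = 0 := rfl
@[simp] theorem od_p01s : (od : A0 K) .p01s = 0 := rfl
@[simp] theorem od_p12u1 : (od : A0 K) .p12u1 = 0 := rfl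
@[simp] theorem od_p12u2 : (od : A0 K) .p12u2 = 0 := rfl
@[simp] theorem od_p12u3 : (od : A0 K) .p12u3 = 0 := rfl
@[simp] theorem od_p12s : (od : A0 K) .p12s = 0 := rfl
@[simp] theorem od_p23u1 : (od : A0 K) .p23u1 = 0 := rfl
@[simp] theorem od_p23u2 : (od : A0 K) .p23u2 = 0 := rfl
@[simp] theorem od_p23u3 : (od : A0 K) .p23u3 = 0 := rfl
@[simp] theorem od_p23s : (od : A0 K) .p23s = 0 := rfl
@[simp] theorem od_q02m1 : (od : A0 K) .q02m1 = 0 := rfl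
@[simp] theorem od_q02m2 : (od : A0 K) .q02m2 = 0 := rfl
@[simp] theorem od_q02m3 : (od : A0 K) .q02m3 = 0 := rfl
@[simp] theorem od_q02w1 : (od : A0 K) .q02w1 = 0 := rfl
@[simp] theorem od_q02w2 : (od : A0 K) .q02w2 = 0 := rfl
@[simp] theorem od_q02w3 : (od : A0 K) .q02w3 = 0 := rfl
@[simp] theorem od_q13m1 : (od : A0 K) .q13m1 = 0 := rfl
@[simp] theorem od_q13m2 : (od : A0 K) .q13m2 = 0 := rfl
@[simp] theorem od_q13m3 : (od : A0 K) .q13m3 = 0 := rfl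
@[simp] theorem od_q13w1 : (od : A0 K) .q13w1 = 0 := rfl
@[simp] theorem od_q13w2 : (od : A0 K) .q13w2 = 0 := rfl
@[simp] theorem od_q13w3 : (od : A0 K) .q13w3 = 0 := rfl
@[simp] theorem od_r03c : (od : A0 K) .r03c = 0 := rfl
@[simp] theorem od_r03n1 : (od : A0 K) .r03n1 = 0 := rfl
@[simp] theorem od_r03n2 : (od : A0 K) .r03n2 = 0 := rfl
@[simp] theorem od_r03n3 : (od : A0 K) .r03n3 = 0 := rfl

@[simp] theorem om_d0 : (om : A0 K) .d0 = 1 := rfl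
@[simp] theorem om_d1 : (om : A0 K) .d1 = -1 := rfl
@[simp] theorem om_d2 : (om : A0 K) .d2 = 1 := rfl
@[simp] theorem om_d3 : (om : A0 K) .d3 = -1 := rfl
@[simp] theorem om_p01u1 : (om : A0 K) .p01u1 = 0 := rfl
@[simp] theorem om_p01u2 : (om : A0 K) .p01u2 = 0 := rfl
@[simp] theorem om_p01u3 : (om : A0 K) .p01u3 = 0 := rfl
@[simp] theorem om_p01s : (om : A0 K) .p01s = 0 := rfl
@[simp] theorem om_p12u1 : (om : A0 K) .p12u1 = 0 := rfl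
@[simp] theorem om_p12u2 : (om : A0 K) .p12u2 = 0 := rfl
@[simp] theorem om_p12u3 : (om : A0 K) .p12u3 = 0 := rfl
@[simp] theorem om_p12s : (om : A0 K) .p12s = 0 := rfl
@[simp] theorem om_p23u1 : (om : A0 K) .p23u1 = 0 := rfl
@[simp] theorem om_p23u2 : (om : A0 K) .p23u2 = 0 := rfl
@[simp] theorem om_p23u3 : (om : A0 K) .p23u3 = 0 := rfl
@[simp] theorem om_p23s : (om : A0 K) .p23s = 0 := rfl
@[simp] theorem om_q02m1 : (om : A0 K) .q02m1 = 0 := rfl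
@[simp] theorem om_q02m2 : (om : A0 K) .q02m2 = 0 := rfl
@[simp] theorem om_q02m3 : (om : A0 K) .q02m3 = 0 := rfl
@[simp] theorem om_q02w1 : (om : A0 K) .q02w1 = 0 := rfl
@[simp] theorem om_q02w2 : (om : A0 K) .q02w2 = 0 := rfl
@[simp] theorem om_q02w3 : (om : A0 K) .q02w3 = 0 := rfl
@[simp] theorem om_q13m1 : (om : A0 K) .q13m1 = 0 := rfl
@[simp] theorem om_q13m2 : (om : A0 K) .q13m2 = 0 := rfl
@[simp] theorem om_q13m3 : (om : A0 K) .q13m3 = 0 := rfl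
@[simp] theorem om_q13w1 : (om : A0 K) .q13w1 = 0 := rfl
@[simp] theorem om_q13w2 : (om : A0 K) .q13w2 = 0 := rfl
@[simp] theorem om_q13w3 : (om : A0 K) .q13w3 = 0 := rfl
@[simp] theorem om_r03c : (om : A0 K) .r03c = 0 := rfl
@[simp] theorem om_r03n1 : (om : A0 K) .r03n1 = 0 := rfl
@[simp] theorem om_r03n2 : (om : A0 K) .r03n2 = 0 := rfl
@[simp] theorem om_r03n3 : (om : A0 K) .r03n3 = 0 := rfl

section
variable (x : A0 K)
theorem xi_mul_xi : (xi : A0 K) * xi = 0 := by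
  ext i
  cases i <;> simp

theorem al1_mul_al1 : (al1 : A0 K) * al1 = 0 := by
  ext i
  cases i <;> simp

theorem al2_mul_al2 : (al2 : A0 K) * al2 = 0 := by
  ext i
  cases i <;> simp

theorem al3_mul_al3 : (al3 : A0 K) * al3 = 0 := by
  ext i
  cases i <;> simp

theorem al1_mul_al2 : (al1 : A0 K) * al2 = - (al2 * al1) := by
  ext i
  cases i <;> simp

theorem al2_mul_al3 : (al2 : A0 K) * al3 = - (al3 * al2) := by
  ext i
  cases i <;> simp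

theorem al3_mul_al1 : (al3 : A0 K) * al1 = - (al1 * al3) := by
  ext i
  cases i <;> simp

theorem xi_mul_al1 : (xi : A0 K) * al1 = (2 : K) • (al3 * al1) - al1 * xi := by
  ext i
  cases i <;> simp

theorem xi_mul_al2 : (xi : A0 K) * al2 = (2 : K) • (al2 * al3) - al2 * xi := by
  ext i
  cases i <;> simp

theorem xi_mul_al3 : (xi : A0 K) * al3 = al1 * al2 - al3 * xi := by
  ext i
  cases i <;> simp

theorem kap_mul_xi : kap x * xi + kap (x * xi) = x - lam x := by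
  ext i
  cases i <;> simp

theorem kap_mul_al1 : kap (x * al1) + kap (x * (1 - e0)) * al1 = 0 := by
  ext i
  cases i <;> simp

theorem kap_mul_al2 : kap (x * al2) + kap (x * (1 - e0)) * al2 = 0 := by
  ext i
  cases i <;> simp

theorem kap_mul_al3 : kap (x * al3) + kap (x * (1 - e0)) * al3 = 0 := by
  ext i
  cases i <;> simp

theorem lam_mul_xi : lam (x * xi) = 0 := by
  ext i
  cases i <;> simp

theorem vol_mul : vol * x = x .d0 • vol := by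
  ext i
  cases i <;> simp

theorem mul_vol : x * vol = x .d3 • vol := by
  ext i
  cases i <;> simp

end

end A0

end Pool.Agent.H38.B2
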