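import Pool.Agent.H38.B2.A0b

set_option linter.unusedSectionVars false

/-!
The algebra `AA` of dimension 130.
-/

namespace Pool.Agent.H38.B2

/-- the algebra `AA`, as a vector space: four copies of `A0` and two scalars. -/
def AA (K : Type*) := A0 K × A0 K × A0 K × A0 K × K × K

variable {K : Type*} [Field K]

namespace AA

instance : AddCommGroup (AA K) :=
  inferInstanceAs (AddCommGroup (A0 K × A0 K × A0 K × A0 K × K × K))

instance : Module K (AA K) :=
  inferInstanceAs (Module K (A0 K × A0 K × A0 K × A0 K × K × K))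

instance : Module.Finite K (AA K) :=
  inferInstanceAs (Module.Finite K (A0 K × A0 K × A0 K × A0 K × K × K))

/-- constructor -/
def mk (a b c d : A0 K) (r s : K) : AA K := (a, b, c, d, r, s)

/-- entry `11` -/
def a11 (X : AA K) : A0 K := X.1
/-- entry `12` -/
def a12 (X : AA K) : A0 K := X.2.1
/-- entry `21` -/
def a21 (X : AA K) : A0 K := X.2.2.1
/-- entry `22` -/
def a22 (X : AA K) : A0 K := X.2.2.2.1
/-- entry `rho` -/
def ro (X : AA K) : K := X.2.2.2.2.1
/-- entry `sigma` -/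
def si (X : AA K) : K := X.2.2.2.2.2

@[ext] theorem ext {X Y : AA K} (h1 : X.a11 = Y.a11) (h2 : X.a12 = Y.a12) (h3 : X.a21 = Y.a21)
    (h4 : X.a22 = Y.a22) (h5 : X.ro = Y.ro) (h6 : X.si = Y.si) : X = Y :=
  Prod.ext h1 (Prod.ext h2 (Prod.ext h3 (Prod.ext h4 (Prod.ext h5 h6))))

section
variable (a b c d : A0 K) (r s : K)
@[simp] theorem mk_a11 : (mk a b c d r s).a11 = a := rfl
@[simp] theorem mk_a12 : (mk a b c d r s).a12 = b := rfl
@[simp] theorem mk_a21 : (mk a b c d r s).a21 = c := rfl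
@[simp] theorem mk_a22 : (mk a b c d r s).a22 = d := rfl
@[simp] theorem mk_ro : (mk a b c d r s).ro = r := rfl
@[simp] theorem mk_si : (mk a b c d r s).si = s := rfl
end

/-- the product of `AA`: `X * Y` is `Y` first, then `X`. -/
def mul' (X Y : AA K) : AA K :=
  mk (X.a11 * Y.a11)
    (X.a11 * Y.a12 + X.a12 * Y.a22 + (X.si * Y.a22 .p01s) • A0.vol)
    (X.a21 * Y.a11 + X.a22 * Y.a21)
    (X.a22 * Y.a22)
    (X.a11 .p23s * Y.a11 .p12s + X.a11 .d3 * Y.ro + X.ro * Y.a11 .d1 + X.si * Y.a21 .d1)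
    (X.a11 .d3 * Y.si + X.si * Y.a22 .d1)

instance : Mul (AA K) := ⟨mul'⟩

instance : One (AA K) := ⟨mk 1 0 0 1 0 0⟩

section
variable (X Y : AA K) (c : K)
@[simp] theorem mul_a11 : (X * Y).a11 = X.a11 * Y.a11 := rfl
@[simp] theorem mul_a12 : (X * Y).a12 =
    X.a11 * Y.a12 + X.a12 * Y.a22 + (X.si * Y.a22 .p01s) • A0.vol := rfl
@[simp] theorem mul_a21 : (X * Y).a21 = X.a21 * Y.a11 + X.a22 * Y.a21 := rfl
@[simp] theorem mul_a22 : (X * Y).a22 = X.a22 * Y.a22 := rfl
@[simp] theorem mul_ro : (X * Y).ro =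
    X.a11 .p23s * Y.a11 .p12s + X.a11 .d3 * Y.ro + X.ro * Y.a11 .d1 + X.si * Y.a21 .d1 := rfl
@[simp] theorem mul_si : (X * Y).si = X.a11 .d3 * Y.si + X.si * Y.a22 .d1 := rfl
@[simp] theorem one_a11 : (1 : AA K).a11 = 1 := rfl
@[simp] theorem one_a12 : (1 : AA K).a12 = 0 := rfl
@[simp] theorem one_a21 : (1 : AA K).a21 = 0 := rfl
@[simp] theorem one_a22 : (1 : AA K).a22 = 1 := rfl
@[simp] theorem one_ro : (1 : AA K).ro = 0 := rfl
@[simp] theorem one_si : (1 : AA K).si = 0 := rfl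
@[simp] theorem zero_a11 : (0 : AA K).a11 = 0 := rfl
@[simp] theorem zero_a12 : (0 : AA K).a12 = 0 := rfl
@[simp] theorem zero_a21 : (0 : AA K).a21 = 0 := rfl
@[simp] theorem zero_a22 : (0 : AA K).a22 = 0 := rfl
@[simp] theorem zero_ro : (0 : AA K).ro = 0 := rfl
@[simp] theorem zero_si : (0 : AA K).si = 0 := rfl
@[simp] theorem add_a11 : (X + Y).a11 = X.a11 + Y.a11 := rfl
@[simp] theorem add_a12 : (X + Y).a12 = X.a12 + Y.a12 := rfl
@[simp] theorem add_a21 : (X + Y).a21 = X.a21 + Y.a21 := rfl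
@[simp] theorem add_a22 : (X + Y).a22 = X.a22 + Y.a22 := rfl
@[simp] theorem add_ro : (X + Y).ro = X.ro + Y.ro := rfl
@[simp] theorem add_si : (X + Y).si = X.si + Y.si := rfl
@[simp] theorem sub_a11 : (X - Y).a11 = X.a11 - Y.a11 := rfl
@[simp] theorem sub_a12 : (X - Y).a12 = X.a12 - Y.a12 := rfl
@[simp] theorem sub_a21 : (X - Y).a21 = X.a21 - Y.a21 := rfl
@[simp] theorem sub_a22 : (X - Y).a22 = X.a22 - Y.a22 := rfl
@[simp] theorem sub_ro : (X - Y).ro = X.ro - Y.ro := rfl
@[simp] theorem sub_si : (X - Y).si = X.si - Y.si := rfl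
@[simp] theorem neg_a11 : (-X).a11 = - X.a11 := rfl
@[simp] theorem neg_a12 : (-X).a12 = - X.a12 := rfl
@[simp] theorem neg_a21 : (-X).a21 = - X.a21 := rfl
@[simp] theorem neg_a22 : (-X).a22 = - X.a22 := rfl
@[simp] theorem neg_ro : (-X).ro = - X.ro := rfl
@[simp] theorem neg_si : (-X).si = - X.si := rfl
@[simp] theorem smul_a11 : (c • X).a11 = c • X.a11 := rfl
@[simp] theorem smul_a12 : (c • X).a12 = c • X.a12 := rfl
@[simp] theorem smul_a21 : (c • X).a21 = c • X.a21 := rfl
@[simp] theorem smul_a22 : (c • X).a22 = c • X.a22 := rfl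
@[simp] theorem smul_ro : (c • X).ro = c * X.ro := rfl
@[simp] theorem smul_si : (c • X).si = c * X.si := rfl
end

theorem mul_assoc' (X Y Z : AA K) : X * Y * Z = X * (Y * Z) := by
  ext1
  · simp only [mul_a11, mul_assoc]
  · simp only [mul_a11, mul_a12, mul_a22, mul_si, add_mul, mul_add, mul_assoc, smul_mul_assoc,
      mul_smul_comm, A0.vol_mul, A0.mul_vol, A0.mul_p01s, smul_smul]
    module
  · simp only [mul_a11, mul_a21, mul_a22, add_mul, mul_add, mul_assoc]
    abel
  · simp only [mul_a22, mul_assoc]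
  · simp only [mul_a11, mul_a21, mul_a22, mul_ro, mul_si, A0.mul_d1, A0.mul_d3, A0.mul_p12s,
      A0.mul_p23s, A0.add_apply]
    ring
  · simp only [mul_a11, mul_a22, mul_si, A0.mul_d1, A0.mul_d3]
    ring

instance : Ring (AA K) :=
  { (inferInstance : AddCommGroup (AA K)), (inferInstance : Mul (AA K)),
    (inferInstance : One (AA K)) with
  mul_assoc := mul_assoc'
  one_mul X := by ext1 <;> simp
  mul_one X := by ext1 <;> simp
  left_distrib X Y Z := by
    ext1 <;> simp [mul_add]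
    · module
    · abel
    · ring
    · ring
  right_distrib X Y Z := by
    ext1 <;> simp [add_mul]
    · module
    · abel
    · ring
    · ring
  zero_mul X := by ext1 <;> simp
  mul_zero X := by ext1 <;> simp
  }

instance : Algebra K (AA K) := Algebra.ofModule
  (by
    intro c X Y
    ext1 <;> simp [smul_smul, mul_assoc]
    · ring
    · ring)
  (by
    intro c X Y
    ext1 <;> simp [smul_smul]
    · congr 1
      ring
    · ring
    · ring)

end AA

end Pool.Agent.H38.B2
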