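import Pool.Agent.H38.B2.ResD

/-!
Module H: exactness of the complex of maps from the resolution of `V n` to `V m`.
-/
set_option autoImplicit false
set_option linter.unusedSectionVars false

namespace Pool.Agent.H38.B2

open Matrix

universe u
variable {K : Type u} [Field K] {n m : ℕ}

theorem V.sum_apply {ι : Type*} (s : Finset ι) (f : ι → V K n) (i : Vx) :
    (∑ k ∈ s, f k) i = ∑ k ∈ s, f k i := by
  classical
  induction s using Finset.induction_on with
  | empty => rfl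
  | insert a s ha ih => rw [Finset.sum_insert ha, Finset.sum_insert ha, V.add_apply, ih]

/-- the map of row vectors to `V m` given by a family of elements -/
def evw (w : Fin (n + 1) → V K m) : (Fin (n + 1) → AA K) →ₗ[AA K] V K m where
  toFun x := ∑ k, x k • w k
  map_add' x y := by
    simp [add_smul, Finset.sum_add_distrib]
  map_smul' X x := by
    simp [mul_smul, Finset.smul_sum]

theorem evw_apply (w : Fin (n + 1) → V K m) (x : Fin (n + 1) → AA K) :
    evw w x = ∑ k, x k • w k := rfl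

/-- transposed action of a matrix on families -/
def tw (Y : Matrix (Fin (n + 1)) (Fin (n + 1)) K) (w : Fin (n + 1) → V K m) : Fin (n + 1) → V K m :=
  fun k => ∑ j, Y j k • w j

theorem evw_rmul (w : Fin (n + 1) → V K m) (C : AA K) (x : Fin (n + 1) → AA K) :
    evw w (rmul n C x) = evw (fun k => C • w k) x := by
  rw [evw_apply, evw_apply]
  apply Finset.sum_congr rfl
  intro k _
  exact mul_smul (x k) C (w k)

theorem evw_actA (w : Fin (n + 1) → V K m) (Y : Matrix (Fin (n + 1)) (Fin (n + 1)) K) (x : Fin (n + 1) → AA K) :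
    evw w (actA Y x) = evw (tw Y w) x := by
  rw [evw_apply, evw_apply]
  have h1 : ∀ k, actA Y x k • w k = ∑ j, Y k j • (x j • w k) := by
    intro k
    change (∑ j, Y k j • x j) • w k = _
    rw [Finset.sum_smul]
    apply Finset.sum_congr rfl
    intro j _
    rw [smul_assoc]
  have h2 : ∀ j, x j • tw Y w j = ∑ k, Y k j • (x j • w k) := by
    intro j
    change x j • (∑ k, Y k j • w k) = _
    rw [Finset.smul_sum]
    apply Finset.sum_congr rfl
    intro k _
    have : Y k j • w k = (algebraMap K (AA K) (Y k j)) • w k := by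
      rw [algebraMap_smul]
    rw [this, ← mul_smul, ← Algebra.commutes, mul_smul, algebraMap_smul]
  rw [Finset.sum_congr rfl (fun k _ => h1 k), Finset.sum_congr rfl (fun k _ => h2 k), Finset.sum_comm]

theorem evw_add (w w' : Fin (n + 1) → V K m) (x : Fin (n + 1) → AA K) :
    evw w x + evw w' x = evw (fun k => w k + w' k) x := by
  rw [evw_apply, evw_apply, evw_apply, ← Finset.sum_add_distrib]
  apply Finset.sum_congr rfl
  intro k _
  rw [smul_add]

theorem evw_sub (w w' : Fin (n + 1) → V K m) (x : Fin (n + 1) → AA K) :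
    evw w x - evw w' x = evw (fun k => w k - w' k) x := by
  rw [evw_apply, evw_apply, evw_apply, ← Finset.sum_sub_distrib]
  apply Finset.sum_congr rfl
  intro k _
  rw [smul_sub]

/-- the family with given coordinate matrices -/
def ofM (φ : Vx → HomM K n m) : Fin (n + 1) → V K m := fun k i p => φ i p k

/-- the differential in coordinates -/
def Dm (L : ℕ) (φ : Vx → HomM K n m) : Vx → HomM K n m
  | .a => 0
  | .b1 => -(sgn K L • Y1 (φ .a))
  | .b2 => -(sgn K L • Y2 (φ .a))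
  | .b3 => -(sgn K L • Y3 (φ .a))
  | .c1 => sgn K L • ((2 : K) • φ .b2 + Y2 (φ .b3) - Y3 (φ .b2))
  | .c2 => sgn K L • ((2 : K) • φ .b1 + Y3 (φ .b1) - Y1 (φ .b3))
  | .c3 => sgn K L • (φ .b3 + Y1 (φ .b2) - Y2 (φ .b1))
  | .t => -(sgn K L • (Y1 (φ .c1) + Y2 (φ .c2) + Y3 (φ .c3))) + cc K L • φ .a

theorem mul_entry (M : Matrix (Fin (m + 1)) (Fin (m + 1)) K) (φ : Vx → HomM K n m) (k : Fin (n + 1)) (i : Vx)
    (p : Fin (m + 1)) : (M *ᵥ (ofM φ k i)) p = (M * φ i) p k := rfl

theorem tw_entry (M : Matrix (Fin (n + 1)) (Fin (n + 1)) K) (φ : Vx → HomM K n m) (k : Fin (n + 1)) (i : Vx)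
    (p : Fin (m + 1)) : tw M (ofM φ) k i p = (φ i * M) p k := by
  change (∑ j, M j k • ofM φ j) i p = _
  rw [V.sum_apply, Finset.sum_apply, Matrix.mul_apply]
  apply Finset.sum_congr rfl
  intro j _
  exact mul_comm _ _

theorem za_a11 : (AA.za : AA K).a11 = 0 := rfl

theorem dl_a11 (x : A0 K) : (AA.dl x : AA K).a11 = x := rfl

theorem evw_DA (L : ℕ) (φ : Vx → HomM K n m) (x : Fin (n + 1) → AA K) :
    evw (ofM φ) (DA n L x) = evw (ofM (Dm L φ)) x := by
  have h1 : DA n L x = rmul n (AA.za + cc K L • AA.dl A0.vol) x +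
      (rmul n (AA.dl A0.xi) (rmul n (sgn K L • AA.dl A0.om) x)
        - actA (y1 K n) (rmul n (AA.dl A0.al1) (rmul n (sgn K L • AA.dl A0.om) x))
        - actA (y2 K n) (rmul n (AA.dl A0.al2) (rmul n (sgn K L • AA.dl A0.om) x))
        - actA (y3 K n) (rmul n (AA.dl A0.al3) (rmul n (sgn K L • AA.dl A0.om) x))) := rfl
  rw [h1, map_add, map_sub, map_sub, map_sub, evw_actA, evw_actA, evw_actA]
  simp only [evw_rmul]
  rw [evw_sub, evw_sub, evw_sub, evw_add]
  congr 2
  funext k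
  apply V.ext
  intro i
  funext p
  cases i
  all_goals
    simp only [V.add_apply, V.sub_apply, V.AA_smul_def, AA.add_a11, AA.smul_a11, V.sm_a, V.sm_b1, V.sm_b2, V.sm_b3,
      V.sm_c1, V.sm_c2, V.sm_c3, V.sm_t, za_a11, dl_a11, Pi.add_apply, Pi.sub_apply, Pi.smul_apply, A0.add_apply,
      A0.smul_apply, A0.zero_apply, smul_eq_mul]
    simp [mul_entry, tw_entry]
    simp [ofM, Dm, Y1, Y2, Y3]
    try ring

/-- the generators of `R l` -/
def gE (K : Type u) [Field K] (n l : ℕ) (k : Fin (n + 1)) : R K n l :=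
  ⟨Pi.single k (AA.Eid l), by
    intro j
    rcases eq_or_ne j k with rfl | h
    · rw [Pi.single_eq_same, AA.Eid_idem]
    · rw [Pi.single_eq_of_ne h, zero_mul]⟩

theorem eq_sum_gE (l : ℕ) (x : R K n l) : x = ∑ k, (x : Fin (n + 1) → AA K) k • gE K n l k := by
  apply Subtype.ext
  funext j
  rw [Submodule.coe_sum, Finset.sum_apply, Finset.sum_eq_single j]
  · change x.1 j = x.1 j * (Pi.single j (AA.Eid l) : Fin (n + 1) → AA K) j
    rw [Pi.single_eq_same]
    exact (x.2 j).symm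
  · intro b _ hb
    change x.1 b * (Pi.single b (AA.Eid l) : Fin (n + 1) → AA K) j = 0
    rw [Pi.single_eq_of_ne hb.symm, mul_zero]
  · simp

theorem map_eq_evw {l : ℕ} (f : R K n l →ₗ[AA K] V K m) (x : R K n l) :
    f x = evw (fun k => f (gE K n l k)) (x : Fin (n + 1) → AA K) := by
  conv_lhs => rw [eq_sum_gE l x]
  rw [map_sum, evw_apply]
  apply Finset.sum_congr rfl
  intro k _
  rw [map_smul]

theorem evw_single (w : Fin (n + 1) → V K m) (X : AA K) (k : Fin (n + 1)) :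
    evw w (Pi.single k X) = X • w k := by
  rw [evw_apply, Finset.sum_eq_single k]
  · rw [Pi.single_eq_same]
  · intro b _ hb
    rw [Pi.single_eq_of_ne hb, zero_smul]
  · simp

theorem Eid_smul_gE {l : ℕ} (f : R K n l →ₗ[AA K] V K m) (k : Fin (n + 1)) :
    (AA.Eid l : AA K) • f (gE K n l k) = f (gE K n l k) := by
  have h1 := map_eq_evw f (gE K n l k)
  have h2 : ((gE K n l k : R K n l) : Fin (n + 1) → AA K) = Pi.single k (AA.Eid l) := rfl
  rw [h2, evw_single] at h1
  exact h1.symm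

/-- a family is fixed by `Eid l` -/
def Fix (l : ℕ) (φ : Vx → HomM K n m) : Prop := ∀ k, (AA.Eid l : AA K) • ofM φ k = ofM φ k

theorem evw_dR {l : ℕ} (φ : Vx → HomM K n m) (hφ : Fix l φ) (x : R K n (l + 1)) :
    evw (ofM φ) (dR K n l x : Fin (n + 1) → AA K) = evw (ofM (Dm (l + 1) φ)) (x : Fin (n + 1) → AA K) := by
  have h1 : ((dR K n l x : R K n l) : Fin (n + 1) → AA K) = rmul n (AA.Eid l) (DA n (l + 1) (x : Fin (n + 1) → AA K)) := rfl
  rw [h1, evw_rmul]
  have h2 : (fun k => (AA.Eid l : AA K) • ofM φ k) = ofM φ := funext hφ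
  rw [h2, evw_DA]

/-- every map is given by a fixed family of matrices -/
theorem exists_fix {l : ℕ} (f : R K n l →ₗ[AA K] V K m) :
    ∃ φ : Vx → HomM K n m, Fix l φ ∧ ∀ x : R K n l, f x = evw (ofM φ) (x : Fin (n + 1) → AA K) := by
  refine ⟨fun i p k => f (gE K n l k) i p, ?_, ?_⟩
  · intro k
    exact Eid_smul_gE f k
  · intro x
    exact map_eq_evw f x

/-- vanishing of the differential in coordinates -/
theorem Dm_of_comp {l : ℕ} (f : R K n (l + 1) →ₗ[AA K] V K m) (hf : f ∘ₗ dR K n (l + 1) = 0)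
    (φ : Vx → HomM K n m) (hφ : Fix (l + 1) φ) (h : ∀ x : R K n (l + 1), f x = evw (ofM φ) (x : Fin (n + 1) → AA K))
    (k : Fin (n + 1)) : (AA.Eid (l + 2) : AA K) • ofM (Dm (l + 2) φ) k = 0 := by
  have h1 : f (dR K n (l + 1) (gE K n (l + 2) k)) = 0 := congrArg (fun g => g (gE K n (l + 2) k)) hf
  rw [h, evw_dR φ hφ] at h1
  have h2 : ((gE K n (l + 2) k : R K n (l + 2)) : Fin (n + 1) → AA K) = Pi.single k (AA.Eid (l + 2)) := rfl
  have h3 : evw (ofM (Dm (l + 1 + 1) φ)) (Pi.single k (AA.Eid (l + 2)) : Fin (n + 1) → AA K) = 0 := h1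
  rw [evw_single] at h3
  exact h3

theorem of_Dm {l : ℕ} (f : R K n (l + 1) →ₗ[AA K] V K m)
    (φ : Vx → HomM K n m) (h : ∀ x : R K n (l + 1), f x = evw (ofM φ) (x : Fin (n + 1) → AA K))
    (ψ : Vx → HomM K n m) (hψ : Fix l ψ) (hD : φ = Dm (l + 1) ψ) :
    ∃ g : R K n l →ₗ[AA K] V K m, f = g ∘ₗ dR K n l := by
  refine ⟨evw (ofM ψ) ∘ₗ (R K n l).subtype, ?_⟩
  apply LinearMap.ext
  intro x
  rw [h x, hD]
  exact (evw_dR ψ hψ x).symm

theorem Eid_zero (v : V K m) (i : Vx) : ((AA.Eid 0 : AA K) • v) i = match i with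
    | .a => v .a
    | _ => 0 := by
  cases i <;> simp [V.AA_smul_def, AA.Eid]

theorem Eid_one (v : V K m) (i : Vx) : ((AA.Eid 1 : AA K) • v) i = match i with
    | .b1 => v .b1
    | .b2 => v .b2
    | .b3 => v .b3
    | _ => 0 := by
  cases i <;> simp [V.AA_smul_def, AA.Eid]

theorem Eid_even {L : ℕ} (hL : L % 2 = 0) (h2 : 2 ≤ L) (v : V K m) (i : Vx) : ((AA.Eid L : AA K) • v) i = match i with
    | .a => v .a
    | .c1 => v .c1
    | .c2 => v .c2
    | .c3 => v .c3
    | _ => 0 := by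
  match L, hL, h2 with
  | 2, _, _ => cases i <;> simp [V.AA_smul_def, AA.Eid]
  | (l + 3), hL, _ =>
    have h : ¬ (l % 2 = 0) := by omega
    cases i <;> simp [V.AA_smul_def, AA.Eid, h]

theorem Eid_odd {L : ℕ} (hL : L % 2 = 1) (h2 : 2 ≤ L) (v : V K m) (i : Vx) : ((AA.Eid L : AA K) • v) i = match i with
    | .b1 => v .b1
    | .b2 => v .b2
    | .b3 => v .b3
    | .t => v .t
    | _ => 0 := by
  match L, hL, h2 with
  | 2, h, _ => omega
  | (l + 3), hL, _ =>
    have h : l % 2 = 0 := by omega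
    cases i <;> simp [V.AA_smul_def, AA.Eid, h]

theorem ofM_eq_zero (φ : Vx → HomM K n m) (i : Vx) (h : ∀ k, ofM φ k i = 0) : φ i = 0 := by
  ext p k
  exact congrFun (h k) p

theorem homY1_smul (c : K) (f : HomM K n m) : Y1 (c • f) = c • Y1 f := by
  simp [Y1, smul_sub]
theorem homY2_smul (c : K) (f : HomM K n m) : Y2 (c • f) = c • Y2 f := by
  simp [Y2, smul_sub]
theorem homY3_smul (c : K) (f : HomM K n m) : Y3 (c • f) = c • Y3 f := by
  simp [Y3, smul_sub]
theorem homY1_add (f g : HomM K n m) : Y1 (f + g) = Y1 f + Y1 g := by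
  simp only [Y1, Matrix.mul_add, Matrix.add_mul]
  abel
theorem homY2_add (f g : HomM K n m) : Y2 (f + g) = Y2 f + Y2 g := by
  simp only [Y2, Matrix.mul_add, Matrix.add_mul]
  abel
theorem homY3_add (f g : HomM K n m) : Y3 (f + g) = Y3 f + Y3 g := by
  simp only [Y3, Matrix.mul_add, Matrix.add_mul]
  abel
@[simp] theorem homY1_zero : Y1 (0 : HomM K n m) = 0 := by simp [Y1]
@[simp] theorem homY2_zero : Y2 (0 : HomM K n m) = 0 := by simp [Y2]
@[simp] theorem homY3_zero : Y3 (0 : HomM K n m) = 0 := by simp [Y3]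

/-- exactness of the complex of maps, from the facts on `sl2` -/
theorem hom_exact_of [CharZero K]
    (ha : ∀ u1 u2 u3 : HomM K n m, (2 : K) • u2 + Y2 u3 - Y3 u2 = 0 → (2 : K) • u1 + Y3 u1 - Y1 u3 = 0 →
      u3 + Y1 u2 - Y2 u1 = 0 → ∃ f : HomM K n m, u1 = Y1 f ∧ u2 = Y2 f ∧ u3 = Y3 f)
    (hb : ∀ m1 m2 m3 : HomM K n m, Y1 m1 + Y2 m2 + Y3 m3 = 0 →
      ∃ u1 u2 u3 : HomM K n m, m1 = (2 : K) • u2 + Y2 u3 - Y3 u2 ∧
        m2 = (2 : K) • u1 + Y3 u1 - Y1 u3 ∧ m3 = u3 + Y1 u2 - Y2 u1)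
    (hc : ∀ f m1 m2 m3 : HomM K n m, Y1 f = 0 → Y2 f = 0 → Y3 f = 0 → f = Y1 m1 + Y2 m2 + Y3 m3 → f = 0)
    (hd : ∀ f : HomM K n m, ∃ g m1 m2 m3 : HomM K n m, Y1 g = 0 ∧ Y2 g = 0 ∧ Y3 g = 0 ∧
      f = g + (Y1 m1 + Y2 m2 + Y3 m3))
    (l : ℕ) (f : R K n (l + 1) →ₗ[AA K] V K m)
    (hf : f ∘ₗ dR K n (l + 1) = 0) : ∃ g : R K n l →ₗ[AA K] V K m, f = g ∘ₗ dR K n l := by
  obtain ⟨φ, hφ, h⟩ := exists_fix f
  have hD := Dm_of_comp f hf φ hφ h
  rcases Nat.even_or_odd (l + 1) with hpar | hpar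
  · -- `l + 1` even
    have hl1 : (l + 1) % 2 = 0 := Nat.even_iff.mp hpar
    have hl2 : 2 ≤ l + 1 := by omega
    have hs : sgn K (l + 2) = -1 := by
      unfold sgn
      rw [if_neg (by omega)]
    have hs1 : sgn K (l + 1) = 1 := by
      unfold sgn
      rw [if_pos hl1]
    have z : ∀ i : Vx, ∀ k, ofM φ k i = ((AA.Eid (l + 1) : AA K) • ofM φ k) i := fun i k => (congrFun (hφ k) i).symm
    have b1 : φ .b1 = 0 := ofM_eq_zero φ _ (fun k => by rw [z]; exact Eid_even hl1 hl2 _ _)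
    have b2 : φ .b2 = 0 := ofM_eq_zero φ _ (fun k => by rw [z]; exact Eid_even hl1 hl2 _ _)
    have b3 : φ .b3 = 0 := ofM_eq_zero φ _ (fun k => by rw [z]; exact Eid_even hl1 hl2 _ _)
    have t : φ .t = 0 := ofM_eq_zero φ _ (fun k => by rw [z]; exact Eid_even hl1 hl2 _ _)
    have hl3 : (l + 2) % 2 = 1 := by omega
    have w : ∀ i : Vx, ∀ k, ((AA.Eid (l + 2) : AA K) • ofM (Dm (l + 2) φ) k) i = 0 := fun i k => congrFun (hD k) i
    have d1 : Dm (l + 2) φ .b1 = 0 := ofM_eq_zero _ _ (fun k => (Eid_odd hl3 (by omega) _ Vx.b1).symm.trans (w _ k))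
    have d2 : Dm (l + 2) φ .b2 = 0 := ofM_eq_zero _ _ (fun k => (Eid_odd hl3 (by omega) _ Vx.b2).symm.trans (w _ k))
    have d3 : Dm (l + 2) φ .b3 = 0 := ofM_eq_zero _ _ (fun k => (Eid_odd hl3 (by omega) _ Vx.b3).symm.trans (w _ k))
    have d4 : Dm (l + 2) φ .t = 0 := ofM_eq_zero _ _ (fun k => (Eid_odd hl3 (by omega) _ Vx.t).symm.trans (w _ k))
    simp only [Dm, hs, neg_smul, one_smul, neg_neg] at d1 d2 d3 d4
    have hcc : cc K (l + 2) ≠ 0 := by
      unfold cc
      rw [if_neg (by omega)]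
      have h0 : ((l : K) + 1) ≠ 0 := by exact_mod_cast Nat.succ_ne_zero l
      intro h1
      apply h0
      have h2 : ((l + 2 : ℕ) : K) = (l : K) + 2 := by push_cast; ring
      rw [h2] at h1
      field_simp at h1
      linear_combination (norm := ring_nf) -h1
    have ha0 : φ .a = 0 := by
      apply hc (φ .a) (-(cc K (l + 2))⁻¹ • φ .c1) (-(cc K (l + 2))⁻¹ • φ .c2) (-(cc K (l + 2))⁻¹ • φ .c3) d1 d2 d3
      rw [homY1_smul, homY2_smul, homY3_smul, ← smul_add, ← smul_add]
      have h3 : Y1 (φ .c1) + Y2 (φ .c2) + Y3 (φ .c3) = - (cc K (l + 2) • φ .a) := eq_neg_of_add_eq_zero_left d4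
      rw [h3, neg_smul, smul_neg, neg_neg, smul_smul, inv_mul_cancel₀ hcc, one_smul]
    rw [ha0, smul_zero, add_zero] at d4
    obtain ⟨u1, u2, u3, e1, e2, e3⟩ := hb _ _ _ d4
    let ψ : Vx → HomM K n m := fun i => match i with
      | .b1 => u1
      | .b2 => u2
      | .b3 => u3
      | _ => 0
    apply of_Dm f φ h ψ
    · intro k
      apply V.ext
      intro i
      rcases Nat.lt_or_ge l 2 with hl | hl
      · obtain rfl : l = 1 := by omega
        rw [Eid_one]
        cases i <;> rfl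
      · rw [Eid_odd (by omega) hl]
        cases i <;> rfl
    · funext i
      cases i
      · exact ha0
      · simp [Dm, ψ, b1]
      · simp [Dm, ψ, b2]
      · simp [Dm, ψ, b3]
      · simp only [Dm, ψ, hs1, one_smul, e1]
      · simp only [Dm, ψ, hs1, one_smul, e2]
      · simp only [Dm, ψ, hs1, one_smul, e3]
      · simp [Dm, ψ, t]
  · -- `l + 1` odd
    have hl1 : (l + 1) % 2 = 1 := Nat.odd_iff.mp hpar
    have hl0 : l % 2 = 0 := by omega
    have hs : sgn K (l + 2) = 1 := by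
      unfold sgn
      rw [if_pos (by omega)]
    have hs1 : sgn K (l + 1) = -1 := by
      unfold sgn
      rw [if_neg (by omega)]
    have z : ∀ i : Vx, ∀ k, ofM φ k i = ((AA.Eid (l + 1) : AA K) • ofM φ k) i := fun i k => (congrFun (hφ k) i).symm
    have hE : ∀ (v : V K m), ((AA.Eid (l + 1) : AA K) • v) .a = 0 ∧ ((AA.Eid (l + 1) : AA K) • v) .c1 = 0 ∧
        ((AA.Eid (l + 1) : AA K) • v) .c2 = 0 ∧ ((AA.Eid (l + 1) : AA K) • v) .c3 = 0 := by
      intro v
      rcases Nat.eq_zero_or_pos l with rfl | hl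
      · exact ⟨Eid_one _ _, Eid_one _ _, Eid_one _ _, Eid_one _ _⟩
      · exact ⟨Eid_odd hl1 (by omega) _ _, Eid_odd hl1 (by omega) _ _, Eid_odd hl1 (by omega) _ _, Eid_odd hl1 (by omega) _ _⟩
    have a0 : φ .a = 0 := ofM_eq_zero φ _ (fun k => by rw [z]; exact (hE _).1)
    have c1 : φ .c1 = 0 := ofM_eq_zero φ _ (fun k => by rw [z]; exact (hE _).2.1)
    have c2 : φ .c2 = 0 := ofM_eq_zero φ _ (fun k => by rw [z]; exact (hE _).2.2.1)
    have c3 : φ .c3 = 0 := ofM_eq_zero φ _ (fun k => by rw [z]; exact (hE _).2.2.2)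
    have w : ∀ i : Vx, ∀ k, ((AA.Eid (l + 2) : AA K) • ofM (Dm (l + 2) φ) k) i = 0 := fun i k => congrFun (hD k) i
    have hl3 : (l + 2) % 2 = 0 := by omega
    have d1 : Dm (l + 2) φ .c1 = 0 := ofM_eq_zero _ _ (fun k => (Eid_even hl3 (by omega) _ Vx.c1).symm.trans (w _ k))
    have d2 : Dm (l + 2) φ .c2 = 0 := ofM_eq_zero _ _ (fun k => (Eid_even hl3 (by omega) _ Vx.c2).symm.trans (w _ k))
    have d3 : Dm (l + 2) φ .c3 = 0 := ofM_eq_zero _ _ (fun k => (Eid_even hl3 (by omega) _ Vx.c3).symm.trans (w _ k))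
    simp only [Dm, hs, one_smul] at d1 d2 d3
    obtain ⟨α, e1, e2, e3⟩ := ha _ _ _ d1 d2 d3
    rcases Nat.eq_zero_or_pos l with rfl | hl
    · have t : φ .t = 0 := ofM_eq_zero φ _ (fun k => by rw [z]; exact Eid_one _ _)
      let ψ : Vx → HomM K n m := fun i => match i with
        | .a => α
        | _ => 0
      apply of_Dm f φ h ψ
      · intro k
        apply V.ext
        intro i
        rw [Eid_zero]
        cases i <;> rfl
      · funext i
        cases i
        · exact a0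
        · simp only [Dm, ψ, hs1, neg_smul, one_smul, neg_neg, e1]
        · simp only [Dm, ψ, hs1, neg_smul, one_smul, neg_neg, e2]
        · simp only [Dm, ψ, hs1, neg_smul, one_smul, neg_neg, e3]
        · simp [Dm, ψ, c1]
        · simp [Dm, ψ, c2]
        · simp [Dm, ψ, c3]
        · simp [Dm, ψ, t, cc]
    · have hcc : cc K (l + 1) ≠ 0 := by
        unfold cc
        rw [if_neg (by omega)]
        have h0 : (l : K) ≠ 0 := by exact_mod_cast hl.ne'
        intro h1
        apply h0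
        have h2 : ((l + 1 : ℕ) : K) = (l : K) + 1 := by push_cast; ring
        rw [h2] at h1
        field_simp at h1
        linear_combination (norm := ring_nf) -h1
      obtain ⟨g, m1, m2, m3, g1, g2, g3, hg⟩ := hd (φ .t - cc K (l + 1) • α)
      let ψ : Vx → HomM K n m := fun i => match i with
        | .a => α + (cc K (l + 1))⁻¹ • g
        | .c1 => m1
        | .c2 => m2
        | .c3 => m3
        | _ => 0
      apply of_Dm f φ h ψ
      · intro k
        apply V.ext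
        intro i
        rw [Eid_even hl0 (by omega)]
        cases i <;> rfl
      · funext i
        cases i
        · exact a0
        · simp only [Dm, ψ, hs1, neg_smul, one_smul, neg_neg, e1, homY1_add, homY1_smul, g1, smul_zero, add_zero]
        · simp only [Dm, ψ, hs1, neg_smul, one_smul, neg_neg, e2, homY2_add, homY2_smul, g2, smul_zero, add_zero]
        · simp only [Dm, ψ, hs1, neg_smul, one_smul, neg_neg, e3, homY3_add, homY3_smul, g3, smul_zero, add_zero]
        · simp [Dm, ψ, c1]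
        · simp [Dm, ψ, c2]
        · simp [Dm, ψ, c3]
        · simp only [Dm, ψ, hs1, neg_smul, one_smul, smul_add, smul_smul]
          rw [mul_inv_cancel₀ hcc, one_smul]
          have h5 : φ .t = cc K (l + 1) • α + (g + (Y1 m1 + Y2 m2 + Y3 m3)) := by
            rw [← hg]; abel
          rw [h5]
          abel

end Pool.Agent.H38.B2
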