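import Pool.Agent.H38.B2.L1

/-!
MODULE L2 of the project for `MP_b2fb47_al`: the `sl2` facts (a)-(e) for `n = m`, and the final
statements (a)-(e) for all `n m`.
-/

namespace Pool.Agent.H38.B2.LL

set_option linter.unusedSimpArgs false
set_option linter.unusedSectionVars false
set_option linter.unusedVariables false

open Matrix

section comm
variable {K : Type*} [Field K] {n m : ℕ}

theorem Y12 (f : HomM K n m) : Y1 (Y2 f) = Y2 (Y1 f) - Y3 f := by
  simp only [Y1, Y2, Y3, Matrix.mul_sub, Matrix.sub_mul, Matrix.mul_assoc, left12, right12]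
  abel

theorem Y23 (f : HomM K n m) : Y2 (Y3 f) = Y3 (Y2 f) - (2 : K) • Y2 f := by
  simp only [Y2, Y3, Matrix.mul_sub, Matrix.sub_mul, Matrix.mul_assoc, left23, right23]
  module

theorem Y31 (f : HomM K n m) : Y3 (Y1 f) = Y1 (Y3 f) - (2 : K) • Y1 f := by
  simp only [Y1, Y3, Matrix.mul_sub, Matrix.sub_mul, Matrix.mul_assoc, left31, right31]
  module

theorem Y13 (f : HomM K n m) : Y1 (Y3 f) = Y3 (Y1 f) + (2 : K) • Y1 f := by
  rw [Y31]; abel

theorem Y32 (f : HomM K n m) : Y3 (Y2 f) = Y2 (Y3 f) + (2 : K) • Y2 f := by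
  rw [Y23]; abel

/-- the Casimir operator of `Hom(N_n, N_m)`. -/
def cC (f : HomM K n m) : HomM K n m :=
  (2 : K) • Y2 (Y1 f) + (2 : K) • Y1 (Y2 f) + Y3 (Y3 f)

theorem cC_add (f g : HomM K n m) : cC (f + g) = cC f + cC g := by
  simp only [cC, Y1_add, Y2_add, Y3_add]; module

theorem cC_smul (c : K) (f : HomM K n m) : cC (c • f) = c • cC f := by
  simp only [cC, Y1_smul, Y2_smul, Y3_smul]; module

theorem cC_sub (f g : HomM K n m) : cC (f - g) = cC f - cC g := by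
  simp only [cC, Y1_sub, Y2_sub, Y3_sub]; module

theorem cC_eq (f : HomM K n m) :
    cC f = Y3 (Y3 f) - (2 : K) • Y3 f + (4 : K) • Y2 (Y1 f) := by
  simp only [cC, Y12]; module

theorem cC_Y1 (f : HomM K n m) : cC (Y1 f) = Y1 (cC f) := by
  simp only [cC, Y1_add, Y1_smul, Y12, Y31, Y1_sub, Y2_sub, Y2_add, Y3_add, Y3_sub, Y3_smul,
    Y2_smul]; module

theorem cC_Y2 (f : HomM K n m) : cC (Y2 f) = Y2 (cC f) := by
  simp only [cC, Y2_add, Y2_smul, Y12, Y32, Y1_sub, Y2_sub, Y3_sub, Y3_add, Y3_smul]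
  module

theorem cC_Y3 (f : HomM K n m) : cC (Y3 f) = Y3 (cC f) := by
  simp only [cC, Y3_add, Y3_smul, Y12, Y32, Y31, Y1_sub, Y2_sub, Y3_sub, Y1_smul, Y2_smul,
    Y1_add, Y2_add]
  module

/-- homotopy identity in degree 1. -/
theorem hom1_1 (u1 u2 u3 : HomM K n m) :
    Y1 ((2 : K) • Y2 u1 + (2 : K) • Y1 u2 + Y3 u3) +
      (Y3 ((2 : K) • u1 + Y3 u1 - Y1 u3) - (2 : K) • Y1 (u3 + Y1 u2 - Y2 u1)) = cC u1 := by
  simp only [cC, Y1_add, Y1_sub, Y1_smul, Y3_add, Y3_sub, Y3_smul, Y12, Y31]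
  module

theorem hom1_2 (u1 u2 u3 : HomM K n m) :
    Y2 ((2 : K) • Y2 u1 + (2 : K) • Y1 u2 + Y3 u3) +
      ((2 : K) • Y2 (u3 + Y1 u2 - Y2 u1) - Y3 ((2 : K) • u2 + Y2 u3 - Y3 u2)) = cC u2 := by
  simp only [cC, Y2_add, Y2_sub, Y2_smul, Y3_add, Y3_sub, Y3_smul, Y12, Y32, Y1_sub]
  module

theorem hom1_3 (u1 u2 u3 : HomM K n m) :
    Y3 ((2 : K) • Y2 u1 + (2 : K) • Y1 u2 + Y3 u3) +
      ((2 : K) • Y1 ((2 : K) • u2 + Y2 u3 - Y3 u2) - (2 : K) • Y2 ((2 : K) • u1 + Y3 u1 - Y1 u3)) =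
      cC u3 := by
  simp only [cC, Y1_add, Y1_sub, Y1_smul, Y2_add, Y2_sub, Y2_smul, Y3_add, Y3_sub, Y3_smul, Y12,
    Y32, Y31]
  module

/-- homotopy identity in degree 2. -/
theorem hom2_1 (m1 m2 m3 : HomM K n m) :
    ((2 : K) • ((2 : K) • Y2 m3 - Y3 m1) + Y2 ((2 : K) • Y1 m1 - (2 : K) • Y2 m2)
        - Y3 ((2 : K) • Y2 m3 - Y3 m1)) +
      (2 : K) • Y2 (Y1 m1 + Y2 m2 + Y3 m3) = cC m1 := by
  simp only [cC, Y1_add, Y1_sub, Y1_smul, Y2_add, Y2_sub, Y2_smul, Y3_add, Y3_sub, Y3_smul, Y12,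
    Y32, Y31]
  module

theorem hom2_2 (m1 m2 m3 : HomM K n m) :
    ((2 : K) • (Y3 m2 - (2 : K) • Y1 m3) + Y3 (Y3 m2 - (2 : K) • Y1 m3)
        - Y1 ((2 : K) • Y1 m1 - (2 : K) • Y2 m2)) +
      (2 : K) • Y1 (Y1 m1 + Y2 m2 + Y3 m3) = cC m2 := by
  simp only [cC, Y1_add, Y1_sub, Y1_smul, Y2_add, Y2_sub, Y2_smul, Y3_add, Y3_sub, Y3_smul, Y12,
    Y32, Y31]
  module

theorem hom2_3 (m1 m2 m3 : HomM K n m) :
    (((2 : K) • Y1 m1 - (2 : K) • Y2 m2) + Y1 ((2 : K) • Y2 m3 - Y3 m1)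
        - Y2 (Y3 m2 - (2 : K) • Y1 m3)) +
      Y3 (Y1 m1 + Y2 m2 + Y3 m3) = cC m3 := by
  simp only [cC, Y1_add, Y1_sub, Y1_smul, Y2_add, Y2_sub, Y2_smul, Y3_add, Y3_sub, Y3_smul, Y12,
    Y32, Y31]
  module

/-- homotopy identity in degree 3. -/
theorem hom3 (f : HomM K n m) :
    Y1 ((2 : K) • Y2 f) + Y2 ((2 : K) • Y1 f) + Y3 (Y3 f) = cC f := by
  simp only [cC, Y1_smul, Y2_smul]; module

end comm

section trace
variable {K : Type*} [Field K] {n : ℕ}

theorem trace_Y1 (f : HomM K n n) : (Y1 f).trace = 0 := by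
  rw [Y1, Matrix.trace_sub, Matrix.trace_mul_comm, sub_self]

theorem trace_Y2 (f : HomM K n n) : (Y2 f).trace = 0 := by
  rw [Y2, Matrix.trace_sub, Matrix.trace_mul_comm, sub_self]

theorem trace_Y3 (f : HomM K n n) : (Y3 f).trace = 0 := by
  rw [Y3, Matrix.trace_sub, Matrix.trace_mul_comm, sub_self]

theorem trace_cC (f : HomM K n n) : (cC f).trace = 0 := by
  simp only [cC, Matrix.trace_add, Matrix.trace_smul, trace_Y1, trace_Y2, trace_Y3]; simp

/-- `Y1` as a linear map. -/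
def Y1L (K : Type*) [Field K] (n : ℕ) : HomM K n n →ₗ[K] HomM K n n where
  toFun := Y1
  map_add' := Y1_add
  map_smul' c f := Y1_smul c f

/-- `cC` as a linear map. -/
def cCL (K : Type*) [Field K] (n : ℕ) : HomM K n n →ₗ[K] HomM K n n where
  toFun := cC
  map_add' := cC_add
  map_smul' c f := cC_smul c f

theorem Y1_apply (f : HomM K n n) (i j : Fin (n + 1)) :
    Y1 f i j = (f * matE K n) i j - (matE K n * f) i j := by
  rw [Y1, y1, Matrix.neg_mul, Matrix.mul_neg, Matrix.sub_apply, Matrix.neg_apply, Matrix.neg_apply]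
  ring

theorem Y3_apply (f : HomM K n n) (i j : Fin (n + 1)) :
    Y3 f i j = 2 * (((i : ℕ) : K) - ((j : ℕ) : K)) * f i j := by
  rw [Y3, y3, matH_eq, Matrix.neg_mul, Matrix.mul_neg, Matrix.sub_apply, Matrix.neg_apply,
    Matrix.neg_apply, Matrix.diagonal_mul, Matrix.mul_diagonal]
  ring

theorem matE_mul_apply (f : HomM K n n) (i j : Fin (n + 1)) (h : (i : ℕ) + 1 < n + 1) :
    (matE K n * f) i j = (((i : ℕ) : K) + 1) * ((n : K) - ((i : ℕ) : K)) * f ⟨(i : ℕ) + 1, h⟩ j := by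
  rw [Matrix.mul_apply, Finset.sum_eq_single (⟨(i : ℕ) + 1, h⟩ : Fin (n + 1))]
  · simp only [matE, if_true]; push_cast; ring
  · intro b _ hb
    have : ¬ ((i : ℕ) + 1 = b) := fun h => hb (Fin.ext h.symm)
    simp [matE, this]
  · intro h; exact absurd (Finset.mem_univ _) h

theorem mul_matE_apply (f : HomM K n n) (i j : Fin (n + 1)) (h : (j : ℕ) + 1 < n + 1) :
    (f * matE K n) i ⟨(j : ℕ) + 1, h⟩ =
      (((j : ℕ) : K) + 1) * ((n : K) - ((j : ℕ) : K)) * f i j := by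
  rw [Matrix.mul_apply, Finset.sum_eq_single j]
  · simp only [matE, if_true]; push_cast; ring
  · intro b _ hb
    have : ¬ ((b : ℕ) + 1 = (j : ℕ) + 1) := fun h => hb (Fin.ext (by omega))
    have h2 : matE K n b ⟨(j : ℕ) + 1, h⟩ = 0 := if_neg this
    rw [h2, mul_zero]
  · intro h; exact absurd (Finset.mem_univ _) h

theorem mul_matE_apply_zero (f : HomM K n n) (i j : Fin (n + 1)) (h : (j : ℕ) = 0) :
    (f * matE K n) i j = 0 := by
  rw [Matrix.mul_apply]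
  apply Finset.sum_eq_zero
  intro b _
  have : ¬ ((b : ℕ) + 1 = j) := by omega
  simp [matE, this]

theorem coef_ne [CharZero K] (i : ℕ) (h : i + 1 < n + 1) :
    ((i : K) + 1) * ((n : K) - (i : K)) ≠ 0 := by
  have h1 : (i : K) + 1 ≠ 0 := by exact_mod_cast Nat.succ_ne_zero i
  have h2 : (n : K) - (i : K) ≠ 0 := by
    rw [sub_ne_zero]
    intro h3
    have : n = i := by exact_mod_cast h3
    omega
  exact mul_ne_zero h1 h2

/-- a matrix whose only nonzero entries are on the diagonal and just below it, and which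
commutes with `E`, is scalar. -/
theorem scalar_of_commute [CharZero K] (f : HomM K n n)
    (h0 : ∀ i j : Fin (n + 1), (i : ℕ) ≠ j → (i : ℕ) ≠ j + 1 → f i j = 0)
    (h1 : Y1 f = 0) : ∃ c : K, f = c • (1 : HomM K n n) := by
  have hc : ∀ i j, (matE K n * f) i j = (f * matE K n) i j := by
    intro i j
    have h := Y1_apply f i j
    rw [h1, Matrix.zero_apply] at h
    exact (sub_eq_zero.1 h.symm).symm
  -- below the diagonal
  have hb : ∀ i : ℕ, ∀ h : i + 1 < n + 1, f ⟨i + 1, h⟩ ⟨i, by omega⟩ = 0 := by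
    intro i
    induction i with
    | zero =>
      intro h
      have h2 := hc ⟨0, by omega⟩ ⟨0, by omega⟩
      rw [matE_mul_apply f ⟨0, by omega⟩ ⟨0, by omega⟩ h, mul_matE_apply_zero f _ _ rfl] at h2
      rcases mul_eq_zero.1 h2 with h3 | h3
      · exact absurd h3 (coef_ne 0 h)
      · exact h3
    | succ i ih =>
      intro h
      have h2 := hc ⟨i + 1, by omega⟩ ⟨i + 1, by omega⟩
      rw [matE_mul_apply f ⟨i + 1, by omega⟩ ⟨i + 1, by omega⟩ h] at h2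
      have h4 := mul_matE_apply f ⟨i + 1, by omega⟩ ⟨i, by omega⟩ (by simp; omega)
      simp only at h4
      rw [h4, ih (by omega), mul_zero] at h2
      rcases mul_eq_zero.1 h2 with h3 | h3
      · exact absurd h3 (coef_ne (i + 1) h)
      · exact h3
  -- on the diagonal
  have hd : ∀ i : ℕ, ∀ h : i < n + 1, f ⟨i, h⟩ ⟨i, h⟩ = f ⟨0, by omega⟩ ⟨0, by omega⟩ := by
    intro i
    induction i with
    | zero => intro h; rfl
    | succ i ih =>
      intro h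
      have h2 := hc ⟨i, by omega⟩ ⟨i + 1, by omega⟩
      rw [matE_mul_apply f ⟨i, by omega⟩ ⟨i + 1, by omega⟩ h] at h2
      have h4 := mul_matE_apply f ⟨i, by omega⟩ ⟨i, by omega⟩ h
      simp only at h4
      rw [h4, ih (by omega)] at h2
      exact mul_left_cancel₀ (coef_ne i h) h2
  refine ⟨f ⟨0, by omega⟩ ⟨0, by omega⟩, ?_⟩
  ext i j
  rw [Matrix.smul_apply, Matrix.one_apply]
  by_cases hij : i = j
  · subst hij
    rw [if_pos rfl, smul_eq_mul, mul_one]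
    exact hd i i.2
  · rw [if_neg hij, smul_zero]
    by_cases h2 : (i : ℕ) = j + 1
    · have h3 := hb j (by have := i.2; omega)
      have h4 : i = ⟨(j : ℕ) + 1, by have := i.2; omega⟩ := Fin.ext h2
      rw [h4]; exact h3
    · exact h0 i j (fun h => hij (Fin.ext h)) h2

/-- (e) -/
theorem lie_e' [CharZero K] (f : HomM K n n) (h1 : Y1 f = 0) (h3 : Y3 f = 0) :
    ∃ c : K, f = c • (1 : HomM K n n) := by
  apply scalar_of_commute f _ h1
  intro i j hij _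
  have h := Y3_apply f i j
  rw [h3, Matrix.zero_apply] at h
  rcases mul_eq_zero.1 h.symm with h4 | h4
  · exfalso
    rcases mul_eq_zero.1 h4 with h5 | h5
    · exact two_ne_zero h5
    · apply hij
      have := sub_eq_zero.1 h5
      exact_mod_cast this
  · exact h4

/-- highest weight elements of the kernel of the Casimir operator are scalar. -/
theorem scalar_of_highest [CharZero K] (f : HomM K n n) (h1 : Y1 f = 0) (hC : cC f = 0) :
    ∃ c : K, f = c • (1 : HomM K n n) := by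
  apply scalar_of_commute f _ h1
  intro i j hij hij2
  have h := cC_eq f
  rw [hC, h1] at h
  have h20 : Y2 (0 : HomM K n n) = 0 := by simp [Y2]
  rw [h20, smul_zero, add_zero] at h
  have h5 := congrFun (congrFun h i) j
  rw [Matrix.zero_apply, Matrix.sub_apply, Matrix.smul_apply, Y3_apply, Y3_apply, smul_eq_mul] at h5
  have h6 : (2 * (((i : ℕ) : K) - ((j : ℕ) : K))) * ((2 * (((i : ℕ) : K) - ((j : ℕ) : K)) - 2) *
      f i j) = 0 := by rw [h5]; ring
  rcases mul_eq_zero.1 h6 with h7 | h7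
  · exfalso
    rcases mul_eq_zero.1 h7 with h8 | h8
    · exact two_ne_zero h8
    · apply hij
      have := sub_eq_zero.1 h8
      exact_mod_cast this
  · rcases mul_eq_zero.1 h7 with h8 | h8
    · exfalso
      apply hij2
      have h9 : (2 : K) * (((i : ℕ) : K) - (((j : ℕ) : K) + 1)) = 0 := by rw [← h8]; ring
      rcases mul_eq_zero.1 h9 with h10 | h10
      · exact absurd h10 two_ne_zero
      · have := sub_eq_zero.1 h10
        exact_mod_cast this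
    · exact h8

/-- offset: entries with `j < i + d` vanish. -/
def Van (d : ℤ) (f : HomM K n n) : Prop :=
  ∀ i j : Fin (n + 1), ((j : ℕ) : ℤ) < ((i : ℕ) : ℤ) + d → f i j = 0

theorem van_Y1 {d : ℤ} {f : HomM K n n} (hf : Van d f) : Van (d + 1) (Y1 f) := by
  intro i j hij
  rw [Y1_apply]
  have e1 : (f * matE K n) i j = 0 := by
    rw [Matrix.mul_apply]
    apply Finset.sum_eq_zero
    intro b _
    by_cases hb : (b : ℕ) + 1 = j
    · rw [hf i b (by omega), zero_mul]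
    · have : matE K n b j = 0 := if_neg hb
      rw [this, mul_zero]
  have e2 : (matE K n * f) i j = 0 := by
    rw [Matrix.mul_apply]
    apply Finset.sum_eq_zero
    intro b _
    by_cases hb : (i : ℕ) + 1 = b
    · rw [hf b j (by omega), mul_zero]
    · have : matE K n i b = 0 := if_neg hb
      rw [this, zero_mul]
  rw [e1, e2, sub_zero]

theorem van_top {d : ℤ} (hd : (n : ℤ) + 1 ≤ d) {f : HomM K n n} (hf : Van d f) : f = 0 := by
  ext i j
  have hj := j.2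
  exact hf i j (by omega)

theorem van_bot (f : HomM K n n) : Van (-(n : ℤ)) f := by
  intro i j hij
  have hi := i.2
  exfalso; omega

/-- `Y1` is nilpotent. -/
theorem exists_last (f : HomM K n n) (hf : f ≠ 0) :
    ∃ k : ℕ, (Y1^[k]) f ≠ 0 ∧ Y1 ((Y1^[k]) f) = 0 := by
  have hvan : ∀ k : ℕ, Van (-(n : ℤ) + k) ((Y1^[k]) f) := by
    intro k
    induction k with
    | zero => simpa using van_bot f
    | succ k ih =>
      rw [Function.iterate_succ_apply']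
      have := van_Y1 ih
      push_cast
      rwa [← add_assoc]
  have hex : ∃ k : ℕ, (Y1^[k]) f = 0 :=
    ⟨2 * n + 1, van_top (by push_cast; omega) (hvan (2 * n + 1))⟩
  classical
  have hk := Nat.find_spec hex
  have hk0 : Nat.find hex ≠ 0 := by
    intro h
    rw [h] at hk
    exact hf hk
  obtain ⟨k, hk1⟩ := Nat.exists_eq_succ_of_ne_zero hk0
  refine ⟨k, ?_, ?_⟩
  · exact Nat.find_min hex (by omega)
  · rw [← Function.iterate_succ_apply' Y1 k f]
    rw [hk1] at hk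
    exact hk

theorem iter_props (k : ℕ) (f : HomM K n n) (ht : f.trace = 0) (hC : cC f = 0) :
    ((Y1^[k]) f).trace = 0 ∧ cC ((Y1^[k]) f) = 0 := by
  induction k with
  | zero => exact ⟨ht, hC⟩
  | succ k ih =>
    rw [Function.iterate_succ_apply']
    refine ⟨trace_Y1 _, ?_⟩
    rw [cC_Y1, ih.2]
    simp [Y1]

variable [CharZero K]

theorem scalar_trace {c : K} (h : (c • (1 : HomM K n n)).trace = 0) : c = 0 := by
  rw [Matrix.trace_smul, Matrix.trace_one, smul_eq_mul, Fintype.card_fin] at h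
  rcases mul_eq_zero.1 h with h | h
  · exact h
  · exfalso
    exact Nat.cast_ne_zero.2 (Nat.succ_ne_zero n) h

/-- the Casimir operator is injective on trace zero matrices. -/
theorem cC_inj {f : HomM K n n} (ht : f.trace = 0) (hC : cC f = 0) : f = 0 := by
  by_contra hf
  obtain ⟨k, h1, h2⟩ := exists_last f hf
  obtain ⟨h3, h4⟩ := iter_props k f ht hC
  obtain ⟨c, hc⟩ := scalar_of_highest _ h2 h4
  rw [hc] at h3
  rw [hc, scalar_trace h3, zero_smul] at h1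
  exact h1 rfl

/-- the Casimir operator is surjective on trace zero matrices. -/
theorem cC_surj {g : HomM K n n} (ht : g.trace = 0) : ∃ h : HomM K n n, h.trace = 0 ∧ cC h = g := by
  let W : Submodule K (HomM K n n) := LinearMap.ker (Matrix.traceLinearMap (Fin (n + 1)) K K)
  have hW : ∀ x ∈ W, cCL K n x ∈ W := by
    intro x _
    exact trace_cC x
  let T : W →ₗ[K] W := (cCL K n).restrict hW
  have hinj : Function.Injective T := by
    rw [← LinearMap.ker_eq_bot, LinearMap.ker_eq_bot']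
    intro x hx
    have h1 : cC x.1 = 0 := congrArg Subtype.val hx
    exact Subtype.ext (cC_inj x.2 h1)
  have hsurj : Function.Surjective T := LinearMap.injective_iff_surjective.1 hinj
  obtain ⟨x, hx⟩ := hsurj ⟨g, ht⟩
  exact ⟨x.1, x.2, congrArg Subtype.val hx⟩

/-- (a) for `n = m`. -/
theorem lie_a_eq (u1 u2 u3 : HomM K n n)
    (h1 : (2 : K) • u2 + Y2 u3 - Y3 u2 = 0)
    (h2 : (2 : K) • u1 + Y3 u1 - Y1 u3 = 0)
    (h3 : u3 + Y1 u2 - Y2 u1 = 0) :
    ∃ f : HomM K n n, u1 = Y1 f ∧ u2 = Y2 f ∧ u3 = Y3 f := by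
  have t1 : u1.trace = 0 := by
    have h := congrArg Matrix.trace h2
    rw [Matrix.trace_sub, Matrix.trace_add, trace_Y3, trace_Y1, Matrix.trace_smul,
      Matrix.trace_zero, add_zero, sub_zero, smul_eq_mul] at h
    exact (mul_eq_zero.1 h).resolve_left two_ne_zero
  have t2 : u2.trace = 0 := by
    have h := congrArg Matrix.trace h1
    rw [Matrix.trace_sub, Matrix.trace_add, trace_Y3, trace_Y2, Matrix.trace_smul,
      Matrix.trace_zero, add_zero, sub_zero, smul_eq_mul] at h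
    exact (mul_eq_zero.1 h).resolve_left two_ne_zero
  have t3 : u3.trace = 0 := by
    have h := congrArg Matrix.trace h3
    rwa [Matrix.trace_sub, Matrix.trace_add, trace_Y1, trace_Y2,
      Matrix.trace_zero, add_zero, sub_zero] at h
  have g0 : ((2 : K) • Y2 u1 + (2 : K) • Y1 u2 + Y3 u3).trace = 0 := by
    simp only [Matrix.trace_add, Matrix.trace_smul, trace_Y1, trace_Y2, trace_Y3]; simp
  obtain ⟨f, hf1, hf2⟩ := cC_surj g0
  have z1 : Y1 (0 : HomM K n n) = 0 := by simp [Y1]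
  have z2 : Y2 (0 : HomM K n n) = 0 := by simp [Y2]
  have z3 : Y3 (0 : HomM K n n) = 0 := by simp [Y3]
  refine ⟨f, ?_, ?_, ?_⟩
  · have h := hom1_1 u1 u2 u3
    rw [h2, h3, z1, z3, smul_zero, sub_zero, add_zero, ← hf2, ← cC_Y1] at h
    have h' : cC (u1 - Y1 f) = 0 := by rw [cC_sub, h, sub_self]
    exact sub_eq_zero.1 (cC_inj (by rw [Matrix.trace_sub, t1, trace_Y1, sub_zero]) h')
  · have h := hom1_2 u1 u2 u3
    rw [h1, h3, z2, z3, smul_zero, sub_zero, add_zero, ← hf2, ← cC_Y2] at h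
    have h' : cC (u2 - Y2 f) = 0 := by rw [cC_sub, h, sub_self]
    exact sub_eq_zero.1 (cC_inj (by rw [Matrix.trace_sub, t2, trace_Y2, sub_zero]) h')
  · have h := hom1_3 u1 u2 u3
    rw [h1, h2, z1, z2, smul_zero, sub_zero, add_zero, ← hf2, ← cC_Y3] at h
    have h' : cC (u3 - Y3 f) = 0 := by rw [cC_sub, h, sub_self]
    exact sub_eq_zero.1 (cC_inj (by rw [Matrix.trace_sub, t3, trace_Y3, sub_zero]) h')

/-- (b) for trace zero components. -/
theorem lie_b_tr (m1 m2 m3 : HomM K n n) (t1 : m1.trace = 0) (t2 : m2.trace = 0)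
    (t3 : m3.trace = 0) (h : Y1 m1 + Y2 m2 + Y3 m3 = 0) :
    ∃ u1 u2 u3 : HomM K n n, m1 = (2 : K) • u2 + Y2 u3 - Y3 u2 ∧
      m2 = (2 : K) • u1 + Y3 u1 - Y1 u3 ∧ m3 = u3 + Y1 u2 - Y2 u1 := by
  have z1 : Y1 (0 : HomM K n n) = 0 := by simp [Y1]
  have z2 : Y2 (0 : HomM K n n) = 0 := by simp [Y2]
  have z3 : Y3 (0 : HomM K n n) = 0 := by simp [Y3]
  obtain ⟨u1, hu1, hu1'⟩ := cC_surj (g := Y3 m2 - (2 : K) • Y1 m3)
    (by simp only [Matrix.trace_sub, Matrix.trace_smul, trace_Y1, trace_Y3]; simp)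
  obtain ⟨u2, hu2, hu2'⟩ := cC_surj (g := (2 : K) • Y2 m3 - Y3 m1)
    (by simp only [Matrix.trace_sub, Matrix.trace_smul, trace_Y2, trace_Y3]; simp)
  obtain ⟨u3, hu3, hu3'⟩ := cC_surj (g := (2 : K) • Y1 m1 - (2 : K) • Y2 m2)
    (by simp only [Matrix.trace_sub, Matrix.trace_smul, trace_Y1, trace_Y2]; simp)
  refine ⟨u1, u2, u3, ?_, ?_, ?_⟩
  · have h' := hom2_1 m1 m2 m3
    rw [h, z2, smul_zero, add_zero, ← hu2', ← hu3', ← cC_Y2, ← cC_Y3, ← cC_smul, ← cC_add,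
      ← cC_sub] at h'
    have h'' : cC (m1 - ((2 : K) • u2 + Y2 u3 - Y3 u2)) = 0 := by rw [cC_sub, h', sub_self]
    refine sub_eq_zero.1 (cC_inj ?_ h'')
    simp only [Matrix.trace_sub, Matrix.trace_add, Matrix.trace_smul, trace_Y2, trace_Y3, t1, hu2]
    simp
  · have h' := hom2_2 m1 m2 m3
    rw [h, z1, smul_zero, add_zero, ← hu1', ← hu3', ← cC_Y1, ← cC_Y3, ← cC_smul, ← cC_add,
      ← cC_sub] at h'
    have h'' : cC (m2 - ((2 : K) • u1 + Y3 u1 - Y1 u3)) = 0 := by rw [cC_sub, h', sub_self]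
    refine sub_eq_zero.1 (cC_inj ?_ h'')
    simp only [Matrix.trace_sub, Matrix.trace_add, Matrix.trace_smul, trace_Y1, trace_Y3, t2, hu1]
    simp
  · have h' := hom2_3 m1 m2 m3
    rw [h, z3, add_zero, ← hu1', ← hu2', ← hu3', ← cC_Y1, ← cC_Y2, ← cC_add,
      ← cC_sub] at h'
    have h'' : cC (m3 - (u3 + Y1 u2 - Y2 u1)) = 0 := by rw [cC_sub, h', sub_self]
    refine sub_eq_zero.1 (cC_inj ?_ h'')
    simp only [Matrix.trace_sub, Matrix.trace_add, trace_Y1, trace_Y2, t3, hu3]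
    simp

theorem Y1_one : Y1 (1 : HomM K n n) = 0 := by simp [Y1]
theorem Y2_one : Y2 (1 : HomM K n n) = 0 := by simp [Y2]
theorem Y3_one : Y3 (1 : HomM K n n) = 0 := by simp [Y3]

theorem exists_trace_zero (f : HomM K n n) :
    ∃ c : K, ∃ g : HomM K n n, g.trace = 0 ∧ f = g + c • (1 : HomM K n n) := by
  have hn : ((n + 1 : ℕ) : K) ≠ 0 := Nat.cast_ne_zero.2 (Nat.succ_ne_zero n)
  refine ⟨f.trace / ((n + 1 : ℕ) : K), f - (f.trace / ((n + 1 : ℕ) : K)) • (1 : HomM K n n), ?_, ?_⟩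
  · rw [Matrix.trace_sub, Matrix.trace_smul, Matrix.trace_one, Fintype.card_fin, smul_eq_mul,
      div_mul_cancel₀ _ hn, sub_self]
  · rw [sub_add_cancel]

/-- (b) for `n = m`. -/
theorem lie_b_eq (m1 m2 m3 : HomM K n n) (h : Y1 m1 + Y2 m2 + Y3 m3 = 0) :
    ∃ u1 u2 u3 : HomM K n n, m1 = (2 : K) • u2 + Y2 u3 - Y3 u2 ∧
      m2 = (2 : K) • u1 + Y3 u1 - Y1 u3 ∧ m3 = u3 + Y1 u2 - Y2 u1 := by
  obtain ⟨c1, g1, hg1, e1⟩ := exists_trace_zero m1
  obtain ⟨c2, g2, hg2, e2⟩ := exists_trace_zero m2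
  obtain ⟨c3, g3, hg3, e3⟩ := exists_trace_zero m3
  have h' : Y1 g1 + Y2 g2 + Y3 g3 = 0 := by
    rw [e1, e2, e3] at h
    simpa only [Y1_add, Y2_add, Y3_add, Y1_smul, Y2_smul, Y3_smul, Y1_one, Y2_one, Y3_one,
      smul_zero, add_zero] using h
  obtain ⟨u1, u2, u3, a1, a2, a3⟩ := lie_b_tr g1 g2 g3 hg1 hg2 hg3 h'
  refine ⟨u1 + (c2 / 2) • (1 : HomM K n n), u2 + (c1 / 2) • (1 : HomM K n n),
    u3 + c3 • (1 : HomM K n n), ?_, ?_, ?_⟩
  · rw [e1, a1]
    simp only [Y1_add, Y2_add, Y3_add, Y1_smul, Y2_smul, Y3_smul, Y1_one, Y2_one, Y3_one,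
      smul_zero, add_zero, smul_add, smul_smul]
    rw [mul_div_cancel₀ c1 (two_ne_zero : (2 : K) ≠ 0)]
    abel
  · rw [e2, a2]
    simp only [Y1_add, Y2_add, Y3_add, Y1_smul, Y2_smul, Y3_smul, Y1_one, Y2_one, Y3_one,
      smul_zero, add_zero, smul_add, smul_smul]
    rw [mul_div_cancel₀ c2 (two_ne_zero : (2 : K) ≠ 0)]
    abel
  · rw [e3, a3]
    simp only [Y1_add, Y2_add, Y3_add, Y1_smul, Y2_smul, Y3_smul, Y1_one, Y2_one, Y3_one,
      smul_zero, add_zero, smul_add, smul_smul]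
    abel

/-- (c) for `n = m`. -/
theorem lie_c_eq (f m1 m2 m3 : HomM K n n) (h1 : Y1 f = 0) (h3 : Y3 f = 0)
    (h : f = Y1 m1 + Y2 m2 + Y3 m3) : f = 0 := by
  obtain ⟨c, hc⟩ := lie_e' f h1 h3
  have ht : f.trace = 0 := by
    rw [h]; simp only [Matrix.trace_add, trace_Y1, trace_Y2, trace_Y3]; simp
  rw [hc] at ht
  rw [hc, scalar_trace ht, zero_smul]

/-- (d) for `n = m`. -/
theorem lie_d_eq (f : HomM K n n) : ∃ g m1 m2 m3 : HomM K n n, Y1 g = 0 ∧ Y2 g = 0 ∧ Y3 g = 0 ∧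
    f = g + (Y1 m1 + Y2 m2 + Y3 m3) := by
  obtain ⟨c, g, hg, e⟩ := exists_trace_zero f
  obtain ⟨h, _, hh⟩ := cC_surj hg
  refine ⟨c • (1 : HomM K n n), (2 : K) • Y2 h, (2 : K) • Y1 h, Y3 h, ?_, ?_, ?_, ?_⟩
  · rw [Y1_smul, Y1_one, smul_zero]
  · rw [Y2_smul, Y2_one, smul_zero]
  · rw [Y3_smul, Y3_one, smul_zero]
  · rw [hom3, hh, e, add_comm]

end trace

section final

variable {K : Type*} [Field K] [CharZero K] {n m : ℕ}

/-- (a) -/
theorem lie_a (u1 u2 u3 : HomM K n m)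
    (h1 : (2 : K) • u2 + Y2 u3 - Y3 u2 = 0)
    (h2 : (2 : K) • u1 + Y3 u1 - Y1 u3 = 0)
    (h3 : u3 + Y1 u2 - Y2 u1 = 0) :
    ∃ f : HomM K n m, u1 = Y1 f ∧ u2 = Y2 f ∧ u3 = Y3 f := by
  by_cases h : n = m
  · subst h; exact lie_a_eq u1 u2 u3 h1 h2 h3
  · exact lie_a_ne h u1 u2 u3 h1 h2 h3

/-- (b) -/
theorem lie_b (m1 m2 m3 : HomM K n m) (h : Y1 m1 + Y2 m2 + Y3 m3 = 0) :
    ∃ u1 u2 u3 : HomM K n m, m1 = (2 : K) • u2 + Y2 u3 - Y3 u2 ∧
      m2 = (2 : K) • u1 + Y3 u1 - Y1 u3 ∧ m3 = u3 + Y1 u2 - Y2 u1 := by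
  by_cases h' : n = m
  · subst h'; exact lie_b_eq m1 m2 m3 h
  · exact lie_b_ne h' m1 m2 m3 h

/-- (c) -/
theorem lie_c (f m1 m2 m3 : HomM K n m) (h1 : Y1 f = 0) (h2 : Y2 f = 0) (h3 : Y3 f = 0)
    (h : f = Y1 m1 + Y2 m2 + Y3 m3) : f = 0 := by
  by_cases h' : n = m
  · subst h'; exact lie_c_eq f m1 m2 m3 h1 h3 h
  · exact lie_c_ne h' f h1 h2 h3

/-- (d) -/
theorem lie_d (f : HomM K n m) : ∃ g m1 m2 m3 : HomM K n m, Y1 g = 0 ∧ Y2 g = 0 ∧ Y3 g = 0 ∧
    f = g + (Y1 m1 + Y2 m2 + Y3 m3) := by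
  by_cases h' : n = m
  · subst h'; exact lie_d_eq f
  · obtain ⟨m1, m2, m3, h⟩ := lie_d_ne h' f
    refine ⟨0, m1, m2, m3, ?_, ?_, ?_, ?_⟩
    · simp [Y1]
    · simp [Y2]
    · simp [Y3]
    · rw [zero_add]; exact h

/-- (e) -/
theorem lie_e (f : HomM K n n) (h1 : Y1 f = 0) (h2 : Y2 f = 0) (h3 : Y3 f = 0) :
    ∃ c : K, f = c • (1 : HomM K n n) := lie_e' f h1 h3

end final

end Pool.Agent.H38.B2.LL
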