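import Pool.Agent.H38.B2.VDefs

/-!
The module structures on `V n`.
-/

set_option linter.unusedSectionVars false
set_option linter.unusedSimpArgs false

namespace Pool.Agent.H38.B2

open Matrix

variable {K : Type*} [Field K] {n : ℕ}

/-- the ring homomorphism `AA → A0`. -/
def AA.pi1 : AA K →+* A0 K where
  toFun X := X.a11
  map_one' := rfl
  map_mul' _ _ := rfl
  map_zero' := rfl
  map_add' _ _ := rfl

namespace V

instance : Module (A0 K) (V K n) where
  one_smul v := by
    ext1 i
    cases i <;> simp
  mul_smul x y v := mul_smul' x y v (y_vec12 n) (y_vec23 n) (y_vec13 n)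
  smul_zero x := by
    ext1 i
    cases i <;> simp
  smul_add x v w := by
    ext1 i
    cases i <;> simp [mulVec_add] <;> module
  add_smul x y v := by
    ext1 i
    cases i <;> simp <;> module
  zero_smul v := by
    ext1 i
    cases i <;> simp

instance : IsScalarTower K (A0 K) (V K n) where
  smul_assoc c x v := by
    ext1 i
    cases i <;> simp [smul_smul, mul_assoc] <;> module

instance : SMul (AA K) (V K n) := ⟨fun X v => X.a11 • v⟩

theorem AA_smul_def (X : AA K) (v : V K n) : X • v = X.a11 • v := rfl

instance : Module (AA K) (V K n) where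
  one_smul v := one_smul (A0 K) v
  mul_smul X Y v := mul_smul X.a11 Y.a11 v
  smul_zero X := smul_zero X.a11
  smul_add X v w := smul_add X.a11 v w
  add_smul X Y v := add_smul X.a11 Y.a11 v
  zero_smul v := zero_smul (A0 K) v

instance : IsScalarTower K (AA K) (V K n) where
  smul_assoc c X v := smul_assoc c X.a11 v

end V

end Pool.Agent.H38.B2
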