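import Pool.Agent.H38.B2.RExact5
import Pool.Agent.H77.B2R0
import Pool.Agent.H77.B2V
import Pool.Agent.H77.B2T
import Pool.Agent.H38.B2.Hom
import Pool.Agent.H45.B2Ext
import Pool.Agent.H38.B2.L2
import Pool.Agent.H26.B2G
import Pool.Agent.H30.B2C

/-!
Assembly: all `Ext^i(V n, V m)` vanish for `i ≥ 1`, and `o k (AA K) = ⊤` for all `k`.
-/

namespace Pool.Agent.H38.B2

open CategoryTheory CategoryTheory.Abelian

universe u
variable {K : Type u} [Field K] [CharZero K]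

theorem ext_V (n m i : ℕ) (hi : 1 ≤ i) :
    Subsingleton (Ext (ModuleCat.of (AA K) (V K n)) (ModuleCat.of (AA K) (V K m)) i) :=
  Pool.Agent.H45.B2.ext_vanish (fun l => R K n l) (fun l => dR K n l) (aug K n) (aug_surjective n) (aug_exact n)
    (fun l => dR_exact n l)
    (fun l f hf => hom_exact_of (fun u1 u2 u3 h1 h2 h3 => LL.lie_a u1 u2 u3 h1 h2 h3)
      (fun m1 m2 m3 h => LL.lie_b m1 m2 m3 h)
      (fun f m1 m2 m3 h1 h2 h3 h => LL.lie_c f m1 m2 m3 h1 h2 h3 h) (fun f => LL.lie_d f) l f hf) i hi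

theorem o_AA (k : ℕ) : Pool.Agent.H26.o k (AA K) = ⊤ :=
  Pool.Agent.H26.o_eq_top (fun n => ModuleCat.of (AA K) (V K n)) (fun n => V_finite n)
    (fun n => V_indecomposable n (fun f h1 h2 h3 => LL.lie_e f h1 h2 h3))
    (fun n m h => V_iso n m h) (fun n m i hi => ext_V n m i hi) k

end Pool.Agent.H38.B2
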