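import Pool.Agent.H38.B2.Idem

/-!
Bookkeeping lemmas for exactness.
-/

set_option linter.unusedSectionVars false
set_option linter.unusedSimpArgs false

namespace Pool.Agent.H38.B2

open Matrix

variable {K : Type*} [Field K] {n : ℕ}

section vv

variable (s t : Fin (n + 1) → K) (c : K) (x : A0 K)

theorem vv_add : vv (s + t) = vv s + vv t := by
  funext k
  simp [vv, add_smul]

theorem vv_sub : vv (s - t) = vv s - vv t := by
  funext k
  simp [vv, sub_smul]

theorem vv_neg : vv (-s) = - vv s := by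
  funext k
  simp [vv]

theorem vv_smul : vv (c • s) = c • vv s := by
  funext k
  simp [vv, smul_smul]

theorem vv_zero : vv (0 : Fin (n + 1) → K) = 0 := by
  funext k
  simp [vv]

theorem rm_vv : rm (vv s) x = x .d0 • vv s := by
  funext k
  simp [rm, vv, A0.vol_mul, smul_smul, mul_comm]

theorem act_vv (Y : Matrix (Fin (n + 1)) (Fin (n + 1)) K) : act Y (vv s) = vv (act Y s) := by
  funext k
  simp [act, vv, Finset.sum_smul, smul_smul]

theorem XiB_vv : XiB (vv s) = 0 := by
  simp only [XiB, rm_vv, A0.xi_d0, A0.al1_d0, A0.al2_d0, A0.al3_d0, zero_smul, act_zero, sub_zero]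

end vv

section co

variable (i : Ix) (p q : Fin (n + 1) → A0 K) (c : K) (s : Fin (n + 1) → K) (x : A0 K)

theorem co_add : co i (p + q) = co i p + co i q := rfl
theorem co_sub : co i (p - q) = co i p - co i q := rfl
theorem co_neg : co i (-p) = - co i p := rfl
theorem co_smul : co i (c • p) = c • co i p := rfl
theorem co_zero : co i (0 : Fin (n + 1) → A0 K) = 0 := rfl
theorem co_act (Y : Matrix (Fin (n + 1)) (Fin (n + 1)) K) : co i (act Y p) = act Y (co i p) :=
  funext fun k => act_map (A0.coord i) Y p k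
theorem co_vv : co i (vv s) = (A0.vol : A0 K) i • s := by
  funext k
  simp [co, vv, mul_comm]

theorem co_d3_rm : co .d3 (rm p x) = x .d3 • co .d3 p := by
  funext k
  simp [co, rm, mul_comm]

theorem co_p23s_rm : co .p23s (rm p x) = x .p23s • co .d3 p + x .d2 • co .p23s p := by
  funext k
  simp [co, rm, mul_comm]

theorem co_d3_XiB : co .d3 (XiB p) = 0 := by
  simp only [XiB, co_sub, co_act, co_d3_rm, A0.xi_d3, A0.al1_d3, A0.al2_d3, A0.al3_d3, zero_smul,
    act_zero, sub_zero]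

theorem co_p23s_XiB : co .p23s (XiB p) = co .d3 p := by
  simp only [XiB, co_sub, co_act, co_p23s_rm, A0.xi_d2, A0.al1_d2, A0.al2_d2, A0.al3_d2,
    A0.xi_p23s, A0.al1_p23s, A0.al2_p23s, A0.al3_p23s, zero_smul, one_smul, add_zero,
    act_zero, sub_zero]

end co

section idem

variable (p : Fin (n + 1) → A0 K)

theorem XiB_zero : XiB (0 : Fin (n + 1) → A0 K) = 0 := by
  have := XiB_smul (0 : Fin (n + 1) → A0 K) (0 : K)
  simpa using this

theorem rm_XiB_e0 : rm (XiB p) A0.e0 = XiB (rm p A0.e1) := by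
  simp only [XiB, sub_rm, rm_act, rm_rm, A0.xi_mul_e0, A0.al1_mul_e0, A0.al2_mul_e0,
    A0.al3_mul_e0]

theorem rm_XiB_e1 : rm (XiB p) A0.e1 = XiB (rm p A0.e2) := by
  simp only [XiB, sub_rm, rm_act, rm_rm, A0.xi_mul_e1, A0.al1_mul_e1, A0.al2_mul_e1,
    A0.al3_mul_e1]

theorem rm_XiB_e2 : rm (XiB p) A0.e2 = XiB (rm p A0.e3) := by
  simp only [XiB, sub_rm, rm_act, rm_rm, A0.xi_mul_e2, A0.al1_mul_e2, A0.al2_mul_e2,
    A0.al3_mul_e2]

theorem rm_XiB_e3 : rm (XiB p) A0.e3 = 0 := by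
  simp only [XiB, sub_rm, rm_act, rm_rm, A0.xi_mul_e3, A0.al1_mul_e3, A0.al2_mul_e3,
    A0.al3_mul_e3, rm_zero, act_zero, sub_zero]

theorem XiB_e0 : XiB (rm p A0.e0) = 0 := by
  simp only [XiB, sub_rm, rm_act, rm_rm, A0.e0_mul_xi, A0.e0_mul_al1, A0.e0_mul_al2,
    A0.e0_mul_al3, rm_zero, act_zero, sub_zero]

/-- `kap` on row vectors -/
def kp (p : Fin (n + 1) → A0 K) : Fin (n + 1) → A0 K := fun k => A0.kap (p k)

theorem kp_act (Y : Matrix (Fin (n + 1)) (Fin (n + 1)) K) : kp (act Y p) = act Y (kp p) :=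
  funext fun k => act_map A0.kap Y p k

theorem kp_add (q : Fin (n + 1) → A0 K) : kp (p + q) = kp p + kp q := by
  funext k
  simp [kp]

theorem kp_sub (q : Fin (n + 1) → A0 K) : kp (p - q) = kp p - kp q := by
  funext k
  simp [kp]

theorem kp_zero : kp (0 : Fin (n + 1) → A0 K) = 0 := by
  funext k
  simp [kp]

theorem rm_kp_e0 : rm (kp p) A0.e0 = 0 := by
  funext k
  simp [rm, kp, A0.kap_mul_e0]

theorem rm_kp_e1 : rm (kp p) A0.e1 = kp (rm p A0.e0) := by
  funext k
  simp [rm, kp, A0.kap_mul_e1]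

theorem rm_kp_e2 : rm (kp p) A0.e2 = kp (rm p A0.e1) := by
  funext k
  simp [rm, kp, A0.kap_mul_e2]

theorem rm_kp_e3 : rm (kp p) A0.e3 = kp (rm p A0.e2) := by
  funext k
  simp [rm, kp, A0.kap_mul_e3]

theorem co_d3_kp : co .d3 (kp p) = co .p23s p := rfl

theorem co_p23s_kp : co .p23s (kp p) = 0 := rfl

/-- the contraction -/
theorem XiB_kp (hp : rm p A0.e0 = 0) : XiB (kp p) + kp (XiB p) = p := by
  have h0 : ∀ k, p k * A0.e0 = 0 := fun k => congrFun hp k
  have hx : rm (kp p) A0.xi + kp (rm p A0.xi) = p := by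
    funext k
    have h1 := A0.kap_mul_xi (p k)
    have h2 : A0.lam (p k) = 0 := by
      have h3 : A0.lam (p k) = A0.lam (p k * A0.e0) := by
        ext i
        cases i <;> simp
      rw [h3, h0 k, map_zero]
    rw [h2, sub_zero] at h1
    exact h1
  have ha1 : rm (kp p) A0.al1 + kp (rm p A0.al1) = 0 := by
    funext k
    have h1 := A0.kap_mul_al1 (p k)
    rw [mul_sub, h0 k, mul_one, sub_zero, add_comm] at h1
    exact h1
  have ha2 : rm (kp p) A0.al2 + kp (rm p A0.al2) = 0 := by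
    funext k
    have h1 := A0.kap_mul_al2 (p k)
    rw [mul_sub, h0 k, mul_one, sub_zero, add_comm] at h1
    exact h1
  have ha3 : rm (kp p) A0.al3 + kp (rm p A0.al3) = 0 := by
    funext k
    have h1 := A0.kap_mul_al3 (p k)
    rw [mul_sub, h0 k, mul_one, sub_zero, add_comm] at h1
    exact h1
  have h : XiB (kp p) + kp (XiB p) = (rm (kp p) A0.xi + kp (rm p A0.xi))
      - act (y1 K n) (rm (kp p) A0.al1 + kp (rm p A0.al1))
      - act (y2 K n) (rm (kp p) A0.al2 + kp (rm p A0.al2))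
      - act (y3 K n) (rm (kp p) A0.al3 + kp (rm p A0.al3)) := by
    simp only [XiB, kp_sub, kp_act, act_add]
    abel
  rw [h, hx, ha1, ha2, ha3]
  simp [act_zero]

end idem

section E

variable (f : Fin (n + 1) → AA K) (A B : A0 K)

theorem c11_E : c11 (rmul n (AA.mk A 0 0 B 0 0) f) = rm (c11 f) A := by
  funext k
  simp [c11, rmul, rm]
theorem c12_E : c12 (rmul n (AA.mk A 0 0 B 0 0) f) = rm (c12 f) B + B .p01s • vv (csi f) := by
  funext k
  simp [c12, rmul, rm, vv, csi, smul_smul, mul_comm]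
theorem c21_E : c21 (rmul n (AA.mk A 0 0 B 0 0) f) = rm (c21 f) A := by
  funext k
  simp [c21, rmul, rm]
theorem c22_E : c22 (rmul n (AA.mk A 0 0 B 0 0) f) = rm (c22 f) B := by
  funext k
  simp [c22, rmul, rm]
theorem cro_E : cro (rmul n (AA.mk A 0 0 B 0 0) f) =
    A .p12s • co .p23s (c11 f) + A .d1 • cro f := by
  funext k
  simp [cro, rmul, co, c11, mul_comm]
theorem csi_E : csi (rmul n (AA.mk A 0 0 B 0 0) f) = B .d1 • csi f := by
  funext k
  simp [csi, rmul, mul_comm]

theorem mem_R {l : ℕ} {f : Fin (n + 1) → AA K} : f ∈ R K n l ↔ rmul n (AA.Eid l) f = f :=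
  ⟨fun h => funext h, fun h k => congrFun h k⟩

/-- row vector from components -/
def mkv (a b c d : Fin (n + 1) → A0 K) (r s : Fin (n + 1) → K) : Fin (n + 1) → AA K :=
  fun k => AA.mk (a k) (b k) (c k) (d k) (r k) (s k)

variable (a b c d : Fin (n + 1) → A0 K) (r s : Fin (n + 1) → K)
@[simp] theorem c11_mkv : c11 (mkv a b c d r s) = a := rfl
@[simp] theorem c12_mkv : c12 (mkv a b c d r s) = b := rfl
@[simp] theorem c21_mkv : c21 (mkv a b c d r s) = c := rfl
@[simp] theorem c22_mkv : c22 (mkv a b c d r s) = d := rfl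
@[simp] theorem cro_mkv : cro (mkv a b c d r s) = r := rfl
@[simp] theorem csi_mkv : csi (mkv a b c d r s) = s := rfl

end E

end Pool.Agent.H38.B2
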