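import Pool.Agent.H38.B2.Xi

/-!
Components of the differentials.
-/

set_option linter.unusedSectionVars false

namespace Pool.Agent.H38.B2

open Matrix

variable {K : Type*} [Field K]

namespace AA

/-- entry as a linear map -/
def l11 : AA K →ₗ[K] A0 K := ⟨⟨a11, fun _ _ => rfl⟩, fun _ _ => rfl⟩
/-- entry as a linear map -/
def l12 : AA K →ₗ[K] A0 K := ⟨⟨a12, fun _ _ => rfl⟩, fun _ _ => rfl⟩
/-- entry as a linear map -/
def l21 : AA K →ₗ[K] A0 K := ⟨⟨a21, fun _ _ => rfl⟩, fun _ _ => rfl⟩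
/-- entry as a linear map -/
def l22 : AA K →ₗ[K] A0 K := ⟨⟨a22, fun _ _ => rfl⟩, fun _ _ => rfl⟩
/-- entry as a linear map -/
def lro : AA K →ₗ[K] K := ⟨⟨ro, fun _ _ => rfl⟩, fun _ _ => rfl⟩
/-- entry as a linear map -/
def lsi : AA K →ₗ[K] K := ⟨⟨si, fun _ _ => rfl⟩, fun _ _ => rfl⟩

end AA

variable {n : ℕ}

/-- component of a row vector -/
def c11 (f : Fin (n + 1) → AA K) : Fin (n + 1) → A0 K := fun k => (f k).a11
/-- component of a row vector -/
def c12 (f : Fin (n + 1) → AA K) : Fin (n + 1) → A0 K := fun k => (f k).a12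
/-- component of a row vector -/
def c21 (f : Fin (n + 1) → AA K) : Fin (n + 1) → A0 K := fun k => (f k).a21
/-- component of a row vector -/
def c22 (f : Fin (n + 1) → AA K) : Fin (n + 1) → A0 K := fun k => (f k).a22
/-- component of a row vector -/
def cro (f : Fin (n + 1) → AA K) : Fin (n + 1) → K := fun k => (f k).ro
/-- component of a row vector -/
def csi (f : Fin (n + 1) → AA K) : Fin (n + 1) → K := fun k => (f k).si

/-- scalars times `vol` -/
def vv (s : Fin (n + 1) → K) : Fin (n + 1) → A0 K := fun k => s k • A0.vol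

/-- coordinates of a row vector over `A0` -/
def co (i : Ix) (p : Fin (n + 1) → A0 K) : Fin (n + 1) → K := fun k => p k i

theorem vec_ext {f g : Fin (n + 1) → AA K} (h1 : c11 f = c11 g) (h2 : c12 f = c12 g)
    (h3 : c21 f = c21 g) (h4 : c22 f = c22 g) (h5 : cro f = cro g) (h6 : csi f = csi g) :
    f = g :=
  funext fun k => AA.ext (congrFun h1 k) (congrFun h2 k) (congrFun h3 k) (congrFun h4 k)
    (congrFun h5 k) (congrFun h6 k)

section comps

variable (f : Fin (n + 1) → AA K) (x : A0 K) (Y : Matrix (Fin (n + 1)) (Fin (n + 1)) K)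

theorem c11_actA : c11 (actA Y f) = act Y (c11 f) :=
  funext fun k => act_map AA.l11 Y f k
theorem c12_actA : c12 (actA Y f) = act Y (c12 f) :=
  funext fun k => act_map AA.l12 Y f k
theorem c21_actA : c21 (actA Y f) = act Y (c21 f) :=
  funext fun k => act_map AA.l21 Y f k
theorem c22_actA : c22 (actA Y f) = act Y (c22 f) :=
  funext fun k => act_map AA.l22 Y f k
theorem cro_actA : cro (actA Y f) = act Y (cro f) :=
  funext fun k => act_map AA.lro Y f k
theorem csi_actA : csi (actA Y f) = act Y (csi f) :=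
  funext fun k => act_map AA.lsi Y f k

theorem c11_dl : c11 (rmul n (AA.dl x) f) = rm (c11 f) x := by
  funext k
  simp [c11, rmul, rm, AA.dl]
theorem c12_dl : c12 (rmul n (AA.dl x) f) = rm (c12 f) x + x .p01s • vv (csi f) := by
  funext k
  simp [c12, rmul, rm, AA.dl, vv, csi, smul_smul, mul_comm]
theorem c21_dl : c21 (rmul n (AA.dl x) f) = rm (c21 f) x := by
  funext k
  simp [c21, rmul, rm, AA.dl]
theorem c22_dl : c22 (rmul n (AA.dl x) f) = rm (c22 f) x := by
  funext k
  simp [c22, rmul, rm, AA.dl]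
theorem cro_dl : cro (rmul n (AA.dl x) f) = x .p12s • co .p23s (c11 f) + x .d1 • cro f := by
  funext k
  simp [cro, rmul, AA.dl, co, c11, mul_comm]
theorem csi_dl : csi (rmul n (AA.dl x) f) = x .d1 • csi f := by
  funext k
  simp [csi, rmul, AA.dl, mul_comm]

theorem c11_Xi : c11 (XiA n f) = XiB (c11 f) := by
  have h : c11 (XiA n f) = c11 (rmul n (AA.dl A0.xi) f)
      - c11 (actA (y1 K n) (rmul n (AA.dl A0.al1) f))
      - c11 (actA (y2 K n) (rmul n (AA.dl A0.al2) f))
      - c11 (actA (y3 K n) (rmul n (AA.dl A0.al3) f)) := rfl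
  rw [h, c11_actA, c11_actA, c11_actA, c11_dl, c11_dl, c11_dl, c11_dl]
  rfl

theorem c12_Xi : c12 (XiA n f) = XiB (c12 f) + vv (csi f) := by
  have h : c12 (XiA n f) = c12 (rmul n (AA.dl A0.xi) f)
      - c12 (actA (y1 K n) (rmul n (AA.dl A0.al1) f))
      - c12 (actA (y2 K n) (rmul n (AA.dl A0.al2) f))
      - c12 (actA (y3 K n) (rmul n (AA.dl A0.al3) f)) := rfl
  rw [h, c12_actA, c12_actA, c12_actA, c12_dl, c12_dl, c12_dl, c12_dl]
  simp only [XiB, A0.xi_p01s, A0.al1_p01s, A0.al2_p01s, A0.al3_p01s, zero_smul, add_zero,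
    one_smul]
  abel

theorem c21_Xi : c21 (XiA n f) = XiB (c21 f) := by
  have h : c21 (XiA n f) = c21 (rmul n (AA.dl A0.xi) f)
      - c21 (actA (y1 K n) (rmul n (AA.dl A0.al1) f))
      - c21 (actA (y2 K n) (rmul n (AA.dl A0.al2) f))
      - c21 (actA (y3 K n) (rmul n (AA.dl A0.al3) f)) := rfl
  rw [h, c21_actA, c21_actA, c21_actA, c21_dl, c21_dl, c21_dl, c21_dl]
  rfl

theorem c22_Xi : c22 (XiA n f) = XiB (c22 f) := by
  have h : c22 (XiA n f) = c22 (rmul n (AA.dl A0.xi) f)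
      - c22 (actA (y1 K n) (rmul n (AA.dl A0.al1) f))
      - c22 (actA (y2 K n) (rmul n (AA.dl A0.al2) f))
      - c22 (actA (y3 K n) (rmul n (AA.dl A0.al3) f)) := rfl
  rw [h, c22_actA, c22_actA, c22_actA, c22_dl, c22_dl, c22_dl, c22_dl]
  rfl

theorem cro_Xi : cro (XiA n f) = co .p23s (c11 f) := by
  have h : cro (XiA n f) = cro (rmul n (AA.dl A0.xi) f)
      - cro (actA (y1 K n) (rmul n (AA.dl A0.al1) f))
      - cro (actA (y2 K n) (rmul n (AA.dl A0.al2) f))
      - cro (actA (y3 K n) (rmul n (AA.dl A0.al3) f)) := rfl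
  rw [h, cro_actA, cro_actA, cro_actA, cro_dl, cro_dl, cro_dl, cro_dl]
  simp [act_zero]

theorem csi_Xi : csi (XiA n f) = 0 := by
  have h : csi (XiA n f) = csi (rmul n (AA.dl A0.xi) f)
      - csi (actA (y1 K n) (rmul n (AA.dl A0.al1) f))
      - csi (actA (y2 K n) (rmul n (AA.dl A0.al2) f))
      - csi (actA (y3 K n) (rmul n (AA.dl A0.al3) f)) := rfl
  rw [h, csi_actA, csi_actA, csi_actA, csi_dl, csi_dl, csi_dl, csi_dl]
  simp [act_zero]

variable (l : ℕ)

theorem c11_DA : c11 (DA n l f) = cc K l • vv (co .d3 (c11 f))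
    + sgn K l • XiB (rm (c11 f) A0.om) := by
  have h : c11 (DA n l f) = c11 (rmul n (AA.za + cc K l • AA.dl A0.vol) f)
      + c11 (XiA n (rmul n (sgn K l • AA.dl A0.om) f)) := rfl
  rw [h, c11_Xi, ← XiB_smul]
  congr 1
  · funext k
    simp [c11, rmul, AA.za, AA.dl, vv, co, A0.mul_vol, smul_smul, mul_comm]
  · congr 1
    funext k
    simp [c11, rmul, AA.dl, rm]

theorem c21_DA : c21 (DA n l f) = c22 f + cc K l • vv (co .d3 (c21 f))
    + sgn K l • XiB (rm (c21 f) A0.om) := by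
  have h : c21 (DA n l f) = c21 (rmul n (AA.za + cc K l • AA.dl A0.vol) f)
      + c21 (XiA n (rmul n (sgn K l • AA.dl A0.om) f)) := rfl
  rw [h, c21_Xi, ← XiB_smul]
  congr 1
  · funext k
    simp [c21, c22, rmul, AA.za, AA.dl, vv, co, A0.mul_vol, smul_smul, mul_comm, add_comm]
  · congr 1
    funext k
    simp [c21, rmul, AA.dl, rm]

theorem c22_DA : c22 (DA n l f) = cc K l • vv (co .d3 (c22 f))
    + sgn K l • XiB (rm (c22 f) A0.om) := by
  have h : c22 (DA n l f) = c22 (rmul n (AA.za + cc K l • AA.dl A0.vol) f)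
      + c22 (XiA n (rmul n (sgn K l • AA.dl A0.om) f)) := rfl
  rw [h, c22_Xi, ← XiB_smul]
  congr 1
  · funext k
    simp [c22, rmul, AA.za, AA.dl, vv, co, A0.mul_vol, smul_smul, mul_comm]
  · congr 1
    funext k
    simp [c22, rmul, AA.dl, rm]

theorem c12_DA : c12 (DA n l f) = c11 f + cc K l • vv (co .d3 (c12 f))
    + sgn K l • XiB (rm (c12 f) A0.om) - sgn K l • vv (csi f) := by
  have h : c12 (DA n l f) = c12 (rmul n (AA.za + cc K l • AA.dl A0.vol) f)
      + c12 (XiA n (rmul n (sgn K l • AA.dl A0.om) f)) := rfl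
  rw [h, c12_Xi, ← XiB_smul, ← add_assoc, sub_eq_add_neg]
  congr 1
  · congr 1
    · funext k
      simp [c11, c12, rmul, AA.za, AA.dl, vv, co, A0.mul_vol, smul_smul, mul_comm]
    · congr 1
      funext k
      simp [c12, rmul, AA.dl, rm]
  · funext k
    simp [csi, rmul, AA.dl, vv, mul_smul, mul_comm]

theorem cro_DA : cro (DA n l f) = csi f + sgn K l • co .p23s (rm (c11 f) A0.om) := by
  have h : cro (DA n l f) = cro (rmul n (AA.za + cc K l • AA.dl A0.vol) f)
      + cro (XiA n (rmul n (sgn K l • AA.dl A0.om) f)) := rfl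
  rw [h, cro_Xi]
  congr 1
  · funext k
    simp [cro, csi, rmul, AA.za, AA.dl]
  · funext k
    simp [c11, rmul, AA.dl, rm, co]

theorem csi_DA : csi (DA n l f) = - co .d3 (c11 f) := by
  have h : csi (DA n l f) = csi (rmul n (AA.za + cc K l • AA.dl A0.vol) f)
      + csi (XiA n (rmul n (sgn K l • AA.dl A0.om) f)) := rfl
  rw [h, csi_Xi]
  funext k
  simp [c11, csi, co, rmul, AA.za, AA.dl]

end comps

end Pool.Agent.H38.B2
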