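import Pool.Agent.H38.B2.Comp

/-!
Idempotent bookkeeping for row vectors over `A0`.
-/

set_option linter.unusedSectionVars false
set_option linter.unusedSimpArgs false

namespace Pool.Agent.H38.B2

variable {K : Type*} [Field K]

namespace A0

theorem e0_mul_e0 : (e0 : A0 K) * e0 = e0 := by
  ext i
  cases i <;> simp

theorem e0_mul_e1 : (e0 : A0 K) * e1 = 0 := by
  ext i
  cases i <;> simp

theorem e0_mul_e2 : (e0 : A0 K) * e2 = 0 := by
  ext i
  cases i <;> simp

theorem e0_mul_e3 : (e0 : A0 K) * e3 = 0 := by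
  ext i
  cases i <;> simp

theorem e1_mul_e0 : (e1 : A0 K) * e0 = 0 := by
  ext i
  cases i <;> simp

theorem e1_mul_e1 : (e1 : A0 K) * e1 = e1 := by
  ext i
  cases i <;> simp

theorem e1_mul_e2 : (e1 : A0 K) * e2 = 0 := by
  ext i
  cases i <;> simp

theorem e1_mul_e3 : (e1 : A0 K) * e3 = 0 := by
  ext i
  cases i <;> simp

theorem e2_mul_e0 : (e2 : A0 K) * e0 = 0 := by
  ext i
  cases i <;> simp

theorem e2_mul_e1 : (e2 : A0 K) * e1 = 0 := by
  ext i
  cases i <;> simp

theorem e2_mul_e2 : (e2 : A0 K) * e2 = e2 := by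
  ext i
  cases i <;> simp

theorem e2_mul_e3 : (e2 : A0 K) * e3 = 0 := by
  ext i
  cases i <;> simp

theorem e3_mul_e0 : (e3 : A0 K) * e0 = 0 := by
  ext i
  cases i <;> simp

theorem e3_mul_e1 : (e3 : A0 K) * e1 = 0 := by
  ext i
  cases i <;> simp

theorem e3_mul_e2 : (e3 : A0 K) * e2 = 0 := by
  ext i
  cases i <;> simp

theorem e3_mul_e3 : (e3 : A0 K) * e3 = e3 := by
  ext i
  cases i <;> simp

theorem xi_mul_e0 : (xi : A0 K) * e0 = e1 * xi := by
  ext i
  cases i <;> simp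

theorem xi_mul_e1 : (xi : A0 K) * e1 = e2 * xi := by
  ext i
  cases i <;> simp

theorem xi_mul_e2 : (xi : A0 K) * e2 = e3 * xi := by
  ext i
  cases i <;> simp

theorem xi_mul_e3 : (xi : A0 K) * e3 = 0 := by
  ext i
  cases i <;> simp

theorem e0_mul_xi : (e0 : A0 K) * xi = 0 := by
  ext i
  cases i <;> simp

theorem al1_mul_e0 : (al1 : A0 K) * e0 = e1 * al1 := by
  ext i
  cases i <;> simp

theorem al1_mul_e1 : (al1 : A0 K) * e1 = e2 * al1 := by
  ext i
  cases i <;> simp

theorem al1_mul_e2 : (al1 : A0 K) * e2 = e3 * al1 := by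
  ext i
  cases i <;> simp

theorem al1_mul_e3 : (al1 : A0 K) * e3 = 0 := by
  ext i
  cases i <;> simp

theorem e0_mul_al1 : (e0 : A0 K) * al1 = 0 := by
  ext i
  cases i <;> simp

theorem al2_mul_e0 : (al2 : A0 K) * e0 = e1 * al2 := by
  ext i
  cases i <;> simp

theorem al2_mul_e1 : (al2 : A0 K) * e1 = e2 * al2 := by
  ext i
  cases i <;> simp

theorem al2_mul_e2 : (al2 : A0 K) * e2 = e3 * al2 := by
  ext i
  cases i <;> simp

theorem al2_mul_e3 : (al2 : A0 K) * e3 = 0 := by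
  ext i
  cases i <;> simp

theorem e0_mul_al2 : (e0 : A0 K) * al2 = 0 := by
  ext i
  cases i <;> simp

theorem al3_mul_e0 : (al3 : A0 K) * e0 = e1 * al3 := by
  ext i
  cases i <;> simp

theorem al3_mul_e1 : (al3 : A0 K) * e1 = e2 * al3 := by
  ext i
  cases i <;> simp

theorem al3_mul_e2 : (al3 : A0 K) * e2 = e3 * al3 := by
  ext i
  cases i <;> simp

theorem al3_mul_e3 : (al3 : A0 K) * e3 = 0 := by
  ext i
  cases i <;> simp

theorem e0_mul_al3 : (e0 : A0 K) * al3 = 0 := by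
  ext i
  cases i <;> simp

theorem vol_mul_e0 : (vol : A0 K) * e0 = vol := by
  ext i
  cases i <;> simp

theorem vol_mul_e1 : (vol : A0 K) * e1 = 0 := by
  ext i
  cases i <;> simp

theorem vol_mul_e2 : (vol : A0 K) * e2 = 0 := by
  ext i
  cases i <;> simp

theorem vol_mul_e3 : (vol : A0 K) * e3 = 0 := by
  ext i
  cases i <;> simp

theorem vol_mul_xi : (vol : A0 K) * xi = 0 := by
  ext i
  cases i <;> simp

theorem vol_mul_al1 : (vol : A0 K) * al1 = 0 := by
  ext i
  cases i <;> simp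

theorem vol_mul_al2 : (vol : A0 K) * al2 = 0 := by
  ext i
  cases i <;> simp

theorem vol_mul_al3 : (vol : A0 K) * al3 = 0 := by
  ext i
  cases i <;> simp

theorem ev_eq : (ev : A0 K) = e0 + e2 := by
  ext i
  cases i <;> simp

theorem od_eq : (od : A0 K) = e1 + e3 := by
  ext i
  cases i <;> simp

theorem om_eq : (om : A0 K) = e0 - e1 + e2 - e3 := by
  ext i
  cases i <;> simp

theorem kap_mul_e1 (x : A0 K) : kap x * e1 = kap (x * e0) := by
  ext i
  cases i <;> simp

theorem kap_mul_e2 (x : A0 K) : kap x * e2 = kap (x * e1) := by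
  ext i
  cases i <;> simp

theorem kap_mul_e3 (x : A0 K) : kap x * e3 = kap (x * e2) := by
  ext i
  cases i <;> simp

theorem kap_mul_e0 (x : A0 K) : kap x * e0 = 0 := by
  ext i
  cases i <;> simp

theorem kap_e3 (x : A0 K) : kap (x * e3) = 0 := by
  ext i
  cases i <;> simp

theorem lam_mul_e1 (x : A0 K) : lam (x * e1) = 0 := by
  ext i
  cases i <;> simp

theorem lam_mul_e2 (x : A0 K) : lam (x * e2) = 0 := by
  ext i
  cases i <;> simp

theorem lam_mul_e3 (x : A0 K) : lam (x * e3) = 0 := by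
  ext i
  cases i <;> simp

end A0

end Pool.Agent.H38.B2
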