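import Pool.Agent.H38.B2.LieDefs

/-!
MODULE L1 of the project for `MP_b2fb47_al`: the `sl2` facts (a)-(d) for `n ≠ m`, together
with the homotopy used for them.
-/

namespace Pool.Agent.H38.B2.LL

open Matrix

section rel
variable {K : Type*} [Field K]

theorem matE_mul_matF (n : ℕ) (i j : Fin (n + 1)) :
    (matE K n * matF K n) i j =
      if i = j then (((j : ℕ) : K) + 1) * ((n : K) - ((j : ℕ) : K)) else 0 := by
  rw [Matrix.mul_apply]
  by_cases hj : (j : ℕ) + 1 < n + 1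
  · rw [Finset.sum_eq_single (⟨(j : ℕ) + 1, hj⟩ : Fin (n + 1))]
    · simp only [matE, matF, Fin.ext_iff]
      by_cases h : (i : ℕ) = j
      · rw [if_pos (by omega), if_pos h]; push_cast; simp; left; ring
      · rw [if_neg (by omega), if_neg h]; ring
    · intro b _ hb
      have : ¬ ((b : ℕ) = j + 1) := fun h => hb (Fin.ext h)
      simp [matF, this]
    · intro h; exact absurd (Finset.mem_univ _) h
  · have hj' : (j : ℕ) = n := by have := j.2; omega
    rw [Finset.sum_eq_zero]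
    · rw [hj']; simp
    · intro b _
      have : ¬ ((b : ℕ) = j + 1) := by have := b.2; omega
      simp [matF, this]

theorem matF_mul_matE (n : ℕ) (i j : Fin (n + 1)) :
    (matF K n * matE K n) i j =
      if i = j then ((j : ℕ) : K) * ((n : K) - ((j : ℕ) : K) + 1) else 0 := by
  rw [Matrix.mul_apply]
  by_cases hj : (j : ℕ) = 0
  · rw [Finset.sum_eq_zero]
    · rw [hj]; simp
    · intro b _
      have : ¬ ((b : ℕ) + 1 = j) := by omega
      simp [matE, this]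
  · have hj2 := j.2
    rw [Finset.sum_eq_single (⟨(j : ℕ) - 1, by omega⟩ : Fin (n + 1))]
    · simp only [matE, matF, Fin.ext_iff]
      by_cases h : (i : ℕ) = j
      · rw [if_pos (by omega), if_pos h, if_pos (by omega)]; ring
      · rw [if_neg (by omega), if_neg h]; ring
    · intro b _ hb
      have : ¬ ((b : ℕ) + 1 = j) := fun h => hb (Fin.ext (by simp; omega))
      simp [matE, this]
    · intro h; exact absurd (Finset.mem_univ _) h

theorem matH_eq (n : ℕ) : matH K n = Matrix.diagonal (fun j : Fin (n + 1) => (n : K) - 2 * ((j : ℕ) : K)) := by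
  ext i j
  simp only [matH, Matrix.diagonal_apply]
  by_cases h : i = j
  · subst h; simp
  · simp [h]

theorem matE_matF_comm (n : ℕ) :
    matE K n * matF K n - matF K n * matE K n = matH K n := by
  ext i j
  rw [Matrix.sub_apply, matE_mul_matF, matF_mul_matE, matH]
  split_ifs <;> ring

theorem matH_matE_comm (n : ℕ) :
    matH K n * matE K n - matE K n * matH K n = (2 : K) • matE K n := by
  ext i j
  rw [Matrix.sub_apply, matH_eq, Matrix.diagonal_mul, Matrix.mul_diagonal, Matrix.smul_apply]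
  simp only [matE, smul_eq_mul]
  split_ifs with h
  · have : ((i : ℕ) : K) = (j : ℕ) - 1 := by
      have : ((i : ℕ) : K) + 1 = (j : ℕ) := by exact_mod_cast congrArg (Nat.cast : ℕ → K) h
      rw [← this]; ring
    rw [this]; ring
  · ring

theorem matH_matF_comm (n : ℕ) :
    matH K n * matF K n - matF K n * matH K n = - (2 : K) • matF K n := by
  ext i j
  rw [Matrix.sub_apply, matH_eq, Matrix.diagonal_mul, Matrix.mul_diagonal, Matrix.smul_apply]
  simp only [matF, smul_eq_mul]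
  split_ifs with h
  · have : ((i : ℕ) : K) = (j : ℕ) + 1 := by exact_mod_cast congrArg (Nat.cast : ℕ → K) h
    rw [this]; ring
  · ring

theorem casimir (n : ℕ) :
    (2 : K) • (matE K n * matF K n + matF K n * matE K n) + matH K n * matH K n =
      ((n : K) * ((n : K) + 2)) • (1 : Matrix (Fin (n + 1)) (Fin (n + 1)) K) := by
  ext i j
  rw [Matrix.add_apply, Matrix.smul_apply, Matrix.add_apply, matE_mul_matF, matF_mul_matE,
    matH_eq, Matrix.diagonal_mul, Matrix.smul_apply, Matrix.one_apply, Matrix.diagonal_apply]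
  by_cases h : i = j
  · subst h; simp only [if_true, smul_eq_mul]; ring
  · simp [h]

theorem y_rel12 (n : ℕ) : y1 K n * y2 K n - y2 K n * y1 K n = - y3 K n := by
  simp only [y1, y2, y3, neg_mul_neg, neg_neg]
  exact matE_matF_comm n

theorem y_rel23 (n : ℕ) : y2 K n * y3 K n - y3 K n * y2 K n = - (2 : K) • y2 K n := by
  simp only [y1, y2, y3, neg_mul_neg, neg_neg]
  rw [← neg_sub, matH_matF_comm]
  module

theorem y_rel31 (n : ℕ) : y3 K n * y1 K n - y1 K n * y3 K n = - (2 : K) • y1 K n := by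
  simp only [y1, y2, y3, neg_mul_neg, neg_neg]
  rw [matH_matE_comm]
  module

theorem y_casimir (n : ℕ) :
    (2 : K) • (y1 K n * y2 K n + y2 K n * y1 K n) + y3 K n * y3 K n =
      ((n : K) * ((n : K) + 2)) • (1 : Matrix (Fin (n + 1)) (Fin (n + 1)) K) := by
  simp only [y1, y2, y3, neg_mul_neg, neg_neg]
  exact casimir n

end rel

section homotopy
variable {K : Type*} [Field K] {n m : ℕ}

/-- the operators of the homotopy. -/
def Z1 (f : HomM K n m) : HomM K n m := (2 : K) • (y2 K m * f + f * y2 K n)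
def Z2 (f : HomM K n m) : HomM K n m := (2 : K) • (y1 K m * f + f * y1 K n)
def Z3 (f : HomM K n m) : HomM K n m := y3 K m * f + f * y3 K n

/-- moving `y1` past `y2` on the left -/
theorem left12 (f : HomM K n m) :
    y1 K m * (y2 K m * f) = y2 K m * (y1 K m * f) - y3 K m * f := by
  have h := congrArg (fun A => A * f) (y_rel12 (K := K) m)
  simp only [Matrix.sub_mul, Matrix.mul_assoc, Matrix.neg_mul] at h
  rw [sub_eq_iff_eq_add] at h
  rw [h]; abel

theorem left23 (f : HomM K n m) :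
    y2 K m * (y3 K m * f) = y3 K m * (y2 K m * f) - (2 : K) • (y2 K m * f) := by
  have h := congrArg (fun A => A * f) (y_rel23 (K := K) m)
  simp only [Matrix.sub_mul, Matrix.mul_assoc, Matrix.smul_mul] at h
  rw [sub_eq_iff_eq_add] at h
  rw [h]; module

theorem left31 (f : HomM K n m) :
    y3 K m * (y1 K m * f) = y1 K m * (y3 K m * f) - (2 : K) • (y1 K m * f) := by
  have h := congrArg (fun A => A * f) (y_rel31 (K := K) m)
  simp only [Matrix.sub_mul, Matrix.mul_assoc, Matrix.smul_mul] at h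
  rw [sub_eq_iff_eq_add] at h
  rw [h]; module

theorem right12 (f : HomM K n m) :
    f * (y1 K n * y2 K n) = f * (y2 K n * y1 K n) - f * y3 K n := by
  have h := congrArg (fun A => f * A) (y_rel12 (K := K) n)
  simp only [Matrix.mul_sub, Matrix.mul_neg] at h
  rw [sub_eq_iff_eq_add] at h
  rw [h]; abel

theorem right23 (f : HomM K n m) :
    f * (y2 K n * y3 K n) = f * (y3 K n * y2 K n) - (2 : K) • (f * y2 K n) := by
  have h := congrArg (fun A => f * A) (y_rel23 (K := K) n)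
  simp only [Matrix.mul_sub, Matrix.mul_smul] at h
  rw [sub_eq_iff_eq_add] at h
  rw [h]; module

theorem right31 (f : HomM K n m) :
    f * (y3 K n * y1 K n) = f * (y1 K n * y3 K n) - (2 : K) • (f * y1 K n) := by
  have h := congrArg (fun A => f * A) (y_rel31 (K := K) n)
  simp only [Matrix.mul_sub, Matrix.mul_smul] at h
  rw [sub_eq_iff_eq_add] at h
  rw [h]; module

theorem Y1_Z1 (f : HomM K n m) : Y1 (Z1 f) = Z1 (Y1 f) - (2 : K) • Z3 f := by
  simp only [Y1, Z1, Z3, Matrix.mul_add, Matrix.add_mul, Matrix.mul_sub, Matrix.sub_mul,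
    Matrix.mul_smul, Matrix.smul_mul, Matrix.mul_assoc, left12, right12]
  module

theorem Y1_Z2 (f : HomM K n m) : Y1 (Z2 f) = Z2 (Y1 f) := by
  simp only [Y1, Z2, Matrix.mul_add, Matrix.add_mul, Matrix.mul_sub, Matrix.sub_mul,
    Matrix.mul_smul, Matrix.smul_mul, Matrix.mul_assoc]
  module

theorem Y1_Z3 (f : HomM K n m) : Y1 (Z3 f) = Z3 (Y1 f) + Z2 f := by
  simp only [Y1, Z2, Z3, Matrix.mul_add, Matrix.add_mul, Matrix.mul_sub, Matrix.sub_mul,
    Matrix.mul_smul, Matrix.smul_mul, Matrix.mul_assoc, left31, right31]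
  module

theorem Y2_Z1 (f : HomM K n m) : Y2 (Z1 f) = Z1 (Y2 f) := by
  simp only [Y2, Z1, Matrix.mul_add, Matrix.add_mul, Matrix.mul_sub, Matrix.sub_mul,
    Matrix.mul_smul, Matrix.smul_mul, Matrix.mul_assoc]
  module

theorem Y2_Z2 (f : HomM K n m) : Y2 (Z2 f) = Z2 (Y2 f) + (2 : K) • Z3 f := by
  simp only [Y2, Z2, Z3, Matrix.mul_add, Matrix.add_mul, Matrix.mul_sub, Matrix.sub_mul,
    Matrix.mul_smul, Matrix.smul_mul, Matrix.mul_assoc, left12, right12]
  module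

theorem Y2_Z3 (f : HomM K n m) : Y2 (Z3 f) = Z3 (Y2 f) - Z1 f := by
  simp only [Y2, Z1, Z3, Matrix.mul_add, Matrix.add_mul, Matrix.mul_sub, Matrix.sub_mul,
    Matrix.mul_smul, Matrix.smul_mul, Matrix.mul_assoc, left23, right23]
  module

theorem Y3_Z1 (f : HomM K n m) : Y3 (Z1 f) = Z1 (Y3 f) + (2 : K) • Z1 f := by
  simp only [Y3, Z1, Matrix.mul_add, Matrix.add_mul, Matrix.mul_sub, Matrix.sub_mul,
    Matrix.mul_smul, Matrix.smul_mul, Matrix.mul_assoc, left23, right23]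
  module

theorem Y3_Z2 (f : HomM K n m) : Y3 (Z2 f) = Z2 (Y3 f) - (2 : K) • Z2 f := by
  simp only [Y3, Z2, Matrix.mul_add, Matrix.add_mul, Matrix.mul_sub, Matrix.sub_mul,
    Matrix.mul_smul, Matrix.smul_mul, Matrix.mul_assoc, left31, right31]
  module

theorem Y3_Z3 (f : HomM K n m) : Y3 (Z3 f) = Z3 (Y3 f) := by
  simp only [Y3, Z3, Matrix.mul_add, Matrix.add_mul, Matrix.mul_sub, Matrix.sub_mul,
    Matrix.mul_smul, Matrix.smul_mul, Matrix.mul_assoc]
  module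

/-- the Casimir operator `T = ∑ Z_a Y_a` on `Hom(N_n,N_m)`; it is a scalar. -/
theorem Z_Y_sum (f : HomM K n m) :
    Z1 (Y1 f) + Z2 (Y2 f) + Z3 (Y3 f) =
      ((m : K) * ((m : K) + 2) - (n : K) * ((n : K) + 2)) • f := by
  have hl := congrArg (fun A => A * f) (y_casimir (K := K) m)
  have hr := congrArg (fun A => f * A) (y_casimir (K := K) n)
  simp only [Matrix.add_mul, Matrix.mul_add, Matrix.smul_mul, Matrix.mul_smul, Matrix.one_mul,
    Matrix.mul_one, Matrix.mul_assoc] at hl hr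
  rw [sub_smul, ← hl, ← hr]
  simp only [Y1, Y2, Y3, Z1, Z2, Z3, Matrix.mul_add, Matrix.add_mul, Matrix.mul_sub,
    Matrix.sub_mul, Matrix.mul_smul, Matrix.smul_mul, Matrix.mul_assoc]
  module

/-- the scalar of `Z_Y_sum`. -/
def cas (K : Type*) [Field K] (n m : ℕ) : K :=
  (m : K) * ((m : K) + 2) - (n : K) * ((n : K) + 2)

theorem cas_ne_zero [CharZero K] (h : n ≠ m) : cas K n m ≠ 0 := by
  unfold cas
  intro h0
  have h1 : ((m * (m + 2) : ℕ) : K) = ((n * (n + 2) : ℕ) : K) := by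
    push_cast; exact sub_eq_zero.1 h0
  have h2 : m * (m + 2) = n * (n + 2) := by exact_mod_cast h1
  rcases lt_or_gt_of_ne h with h3 | h3
  · have : n * (n + 2) < m * (m + 2) := by nlinarith
    omega
  · have : m * (m + 2) < n * (n + 2) := by nlinarith
    omega

theorem Y1_smul (c : K) (f : HomM K n m) : Y1 (c • f) = c • Y1 f := by
  simp only [Y1, Matrix.mul_smul, Matrix.smul_mul, smul_sub]

theorem Y2_smul (c : K) (f : HomM K n m) : Y2 (c • f) = c • Y2 f := by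
  simp only [Y2, Matrix.mul_smul, Matrix.smul_mul, smul_sub]

theorem Y3_smul (c : K) (f : HomM K n m) : Y3 (c • f) = c • Y3 f := by
  simp only [Y3, Matrix.mul_smul, Matrix.smul_mul, smul_sub]

theorem Y1_add (f g : HomM K n m) : Y1 (f + g) = Y1 f + Y1 g := by
  simp only [Y1, Matrix.mul_add, Matrix.add_mul]; abel

theorem Y2_add (f g : HomM K n m) : Y2 (f + g) = Y2 f + Y2 g := by
  simp only [Y2, Matrix.mul_add, Matrix.add_mul]; abel

theorem Y3_add (f g : HomM K n m) : Y3 (f + g) = Y3 f + Y3 g := by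
  simp only [Y3, Matrix.mul_add, Matrix.add_mul]; abel

theorem Y1_sub (f g : HomM K n m) : Y1 (f - g) = Y1 f - Y1 g := by
  simp only [Y1, Matrix.mul_sub, Matrix.sub_mul]; abel

theorem Y2_sub (f g : HomM K n m) : Y2 (f - g) = Y2 f - Y2 g := by
  simp only [Y2, Matrix.mul_sub, Matrix.sub_mul]; abel

theorem Y3_sub (f g : HomM K n m) : Y3 (f - g) = Y3 f - Y3 g := by
  simp only [Y3, Matrix.mul_sub, Matrix.sub_mul]; abel

theorem Z1_add (f g : HomM K n m) : Z1 (f + g) = Z1 f + Z1 g := by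
  simp only [Z1, Matrix.mul_add, Matrix.add_mul]; module

theorem Z2_add (f g : HomM K n m) : Z2 (f + g) = Z2 f + Z2 g := by
  simp only [Z2, Matrix.mul_add, Matrix.add_mul]; module

theorem Z3_add (f g : HomM K n m) : Z3 (f + g) = Z3 f + Z3 g := by
  simp only [Z3, Matrix.mul_add, Matrix.add_mul]; abel

theorem Z1_sub (f g : HomM K n m) : Z1 (f - g) = Z1 f - Z1 g := by
  simp only [Z1, Matrix.mul_sub, Matrix.sub_mul]; module

theorem Z2_sub (f g : HomM K n m) : Z2 (f - g) = Z2 f - Z2 g := by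
  simp only [Z2, Matrix.mul_sub, Matrix.sub_mul]; module

theorem Z3_sub (f g : HomM K n m) : Z3 (f - g) = Z3 f - Z3 g := by
  simp only [Z3, Matrix.mul_sub, Matrix.sub_mul]; abel

theorem Z1_smul (c : K) (f : HomM K n m) : Z1 (c • f) = c • Z1 f := by
  simp only [Z1, Matrix.mul_smul, Matrix.smul_mul]; module

theorem Z2_smul (c : K) (f : HomM K n m) : Z2 (c • f) = c • Z2 f := by
  simp only [Z2, Matrix.mul_smul, Matrix.smul_mul]; module

theorem Z3_smul (c : K) (f : HomM K n m) : Z3 (c • f) = c • Z3 f := by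
  simp only [Z3, Matrix.mul_smul, Matrix.smul_mul]; module

/-- homotopy identity in degree 1 (`D0 s + s D1 = T`), component 1. -/
theorem homotopy1_1 (u1 u2 u3 : HomM K n m) :
    Y1 (Z1 u1 + Z2 u2 + Z3 u3) +
      (Z3 ((2 : K) • u1 + Y3 u1 - Y1 u3) - Z2 (u3 + Y1 u2 - Y2 u1)) = cas K n m • u1 := by
  rw [cas, ← Z_Y_sum]
  simp only [Y1_add, Y1_Z1, Y1_Z2, Y1_Z3, Z3_add, Z3_sub, Z3_smul, Z2_add, Z2_sub]
  module

theorem homotopy1_2 (u1 u2 u3 : HomM K n m) :
    Y2 (Z1 u1 + Z2 u2 + Z3 u3) +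
      (Z1 (u3 + Y1 u2 - Y2 u1) - Z3 ((2 : K) • u2 + Y2 u3 - Y3 u2)) = cas K n m • u2 := by
  rw [cas, ← Z_Y_sum]
  simp only [Y2_add, Y2_Z1, Y2_Z2, Y2_Z3, Z3_add, Z3_sub, Z3_smul, Z1_add, Z1_sub]
  module

theorem homotopy1_3 (u1 u2 u3 : HomM K n m) :
    Y3 (Z1 u1 + Z2 u2 + Z3 u3) +
      (Z2 ((2 : K) • u2 + Y2 u3 - Y3 u2) - Z1 ((2 : K) • u1 + Y3 u1 - Y1 u3)) =
      cas K n m • u3 := by
  rw [cas, ← Z_Y_sum]
  simp only [Y3_add, Y3_Z1, Y3_Z2, Y3_Z3, Z2_add, Z2_sub, Z2_smul, Z1_add, Z1_sub, Z1_smul]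
  module

/-- homotopy identity in degree 2, component 1. -/
theorem homotopy2_1 (m1 m2 m3 : HomM K n m) :
    ((2 : K) • (Z1 m3 - Z3 m1) + Y2 (Z2 m1 - Z1 m2) - Y3 (Z1 m3 - Z3 m1)) +
      Z1 (Y1 m1 + Y2 m2 + Y3 m3) = cas K n m • m1 := by
  rw [cas, ← Z_Y_sum]
  simp only [Y2_sub, Y3_sub, Y2_Z1, Y2_Z2, Y3_Z1, Y3_Z3, Z1_add]
  module

theorem homotopy2_2 (m1 m2 m3 : HomM K n m) :
    ((2 : K) • (Z3 m2 - Z2 m3) + Y3 (Z3 m2 - Z2 m3) - Y1 (Z2 m1 - Z1 m2)) +
      Z2 (Y1 m1 + Y2 m2 + Y3 m3) = cas K n m • m2 := by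
  rw [cas, ← Z_Y_sum]
  simp only [Y1_sub, Y3_sub, Y1_Z1, Y1_Z2, Y3_Z2, Y3_Z3, Z2_add]
  module

theorem homotopy2_3 (m1 m2 m3 : HomM K n m) :
    ((Z2 m1 - Z1 m2) + Y1 (Z1 m3 - Z3 m1) - Y2 (Z3 m2 - Z2 m3)) +
      Z3 (Y1 m1 + Y2 m2 + Y3 m3) = cas K n m • m3 := by
  rw [cas, ← Z_Y_sum]
  simp only [Y1_sub, Y2_sub, Y1_Z1, Y1_Z3, Y2_Z2, Y2_Z3, Z3_add]
  module

/-- homotopy identity in degree 3. -/
theorem homotopy3 (f : HomM K n m) :
    Y1 (Z1 f) + Y2 (Z2 f) + Y3 (Z3 f) = cas K n m • f := by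
  rw [cas, ← Z_Y_sum]
  simp only [Y1_Z1, Y2_Z2, Y3_Z3]
  module

variable [CharZero K]

/-- (a) for `n ≠ m`. -/
theorem lie_a_ne (hnm : n ≠ m) (u1 u2 u3 : HomM K n m)
    (h1 : (2 : K) • u2 + Y2 u3 - Y3 u2 = 0)
    (h2 : (2 : K) • u1 + Y3 u1 - Y1 u3 = 0)
    (h3 : u3 + Y1 u2 - Y2 u1 = 0) :
    ∃ f : HomM K n m, u1 = Y1 f ∧ u2 = Y2 f ∧ u3 = Y3 f := by
  have hc := cas_ne_zero (K := K) hnm
  refine ⟨(cas K n m)⁻¹ • (Z1 u1 + Z2 u2 + Z3 u3), ?_, ?_, ?_⟩
  · have h := homotopy1_1 u1 u2 u3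
    rw [h2, h3, ← zero_smul K (0 : HomM K n m), Z3_smul, Z2_smul] at h
    rw [Y1_smul, eq_inv_smul_iff₀ hc, ← h]; simp
  · have h := homotopy1_2 u1 u2 u3
    rw [h1, h3, ← zero_smul K (0 : HomM K n m), Z3_smul, Z1_smul] at h
    rw [Y2_smul, eq_inv_smul_iff₀ hc, ← h]; simp
  · have h := homotopy1_3 u1 u2 u3
    rw [h1, h2, ← zero_smul K (0 : HomM K n m), Z2_smul, Z1_smul] at h
    rw [Y3_smul, eq_inv_smul_iff₀ hc, ← h]; simp

/-- (b) for `n ≠ m`. -/
theorem lie_b_ne (hnm : n ≠ m) (m1 m2 m3 : HomM K n m) (h : Y1 m1 + Y2 m2 + Y3 m3 = 0) :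
    ∃ u1 u2 u3 : HomM K n m, m1 = (2 : K) • u2 + Y2 u3 - Y3 u2 ∧
      m2 = (2 : K) • u1 + Y3 u1 - Y1 u3 ∧ m3 = u3 + Y1 u2 - Y2 u1 := by
  have hc := cas_ne_zero (K := K) hnm
  refine ⟨(cas K n m)⁻¹ • (Z3 m2 - Z2 m3), (cas K n m)⁻¹ • (Z1 m3 - Z3 m1),
    (cas K n m)⁻¹ • (Z2 m1 - Z1 m2), ?_, ?_, ?_⟩
  · have h' := homotopy2_1 m1 m2 m3
    rw [h, ← zero_smul K (0 : HomM K n m), Z1_smul, zero_smul, add_zero] at h'
    rw [Y2_smul, Y3_smul, smul_comm (2 : K), ← smul_add, ← smul_sub, eq_inv_smul_iff₀ hc, ← h']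
  · have h' := homotopy2_2 m1 m2 m3
    rw [h, ← zero_smul K (0 : HomM K n m), Z2_smul, zero_smul, add_zero] at h'
    rw [Y1_smul, Y3_smul, smul_comm (2 : K), ← smul_add, ← smul_sub, eq_inv_smul_iff₀ hc, ← h']
  · have h' := homotopy2_3 m1 m2 m3
    rw [h, ← zero_smul K (0 : HomM K n m), Z3_smul, zero_smul, add_zero] at h'
    rw [Y1_smul, Y2_smul, ← smul_add, ← smul_sub, eq_inv_smul_iff₀ hc, ← h']

/-- (c) for `n ≠ m` (no assumption on `f` being a boundary is needed). -/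
theorem lie_c_ne (hnm : n ≠ m) (f : HomM K n m) (h1 : Y1 f = 0) (h2 : Y2 f = 0)
    (h3 : Y3 f = 0) : f = 0 := by
  have hc := cas_ne_zero (K := K) hnm
  have h := Z_Y_sum f
  rw [h1, h2, h3, ← zero_smul K (0 : HomM K n m), Z1_smul, Z2_smul, Z3_smul] at h
  simp only [zero_smul, add_zero] at h
  rcases smul_eq_zero.1 h.symm with h' | h'
  · exact absurd h' hc
  · exact h'

/-- (d) for `n ≠ m`, with `g = 0`. -/
theorem lie_d_ne (hnm : n ≠ m) (f : HomM K n m) : ∃ m1 m2 m3 : HomM K n m,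
    f = Y1 m1 + Y2 m2 + Y3 m3 := by
  have hc := cas_ne_zero (K := K) hnm
  refine ⟨(cas K n m)⁻¹ • Z1 f, (cas K n m)⁻¹ • Z2 f, (cas K n m)⁻¹ • Z3 f, ?_⟩
  rw [Y1_smul, Y2_smul, Y3_smul, ← smul_add, ← smul_add, homotopy3, smul_smul,
    inv_mul_cancel₀ hc, one_smul]

end homotopy

end Pool.Agent.H38.B2.LL
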