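import Mathlib

/-!
The matrices of the irreducible representations of sl2 and the three operators
`D0, D1, D2` of the (twisted) Chevalley-Eilenberg complex with values in
`Hom(N_n, N_m)`, written as matrices.
-/

namespace Pool.Agent.H38.B2

open Matrix

variable (K : Type*) [Field K]

/-- `E v_j = j (n - j + 1) v_{j-1}`. -/
def matE (n : ℕ) : Matrix (Fin (n + 1)) (Fin (n + 1)) K := fun i j =>
  if (i : ℕ) + 1 = j then ((j : ℕ) : K) * ((n : K) - ((j : ℕ) : K) + 1) else 0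

/-- `F v_j = v_{j+1}`. -/
def matF (n : ℕ) : Matrix (Fin (n + 1)) (Fin (n + 1)) K := fun i j =>
  if (i : ℕ) = j + 1 then 1 else 0

/-- `H v_j = (n - 2 j) v_j`. -/
def matH (n : ℕ) : Matrix (Fin (n + 1)) (Fin (n + 1)) K := fun i j =>
  if i = j then (n : K) - 2 * ((j : ℕ) : K) else 0

/-- the three matrices `y_1 = -E`, `y_2 = -F`, `y_3 = -H`. -/
def y1 (n : ℕ) : Matrix (Fin (n + 1)) (Fin (n + 1)) K := - matE K n
def y2 (n : ℕ) : Matrix (Fin (n + 1)) (Fin (n + 1)) K := - matF K n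
def y3 (n : ℕ) : Matrix (Fin (n + 1)) (Fin (n + 1)) K := - matH K n

/-- the space `Hom(N_n, N_m)`. -/
abbrev HomM (n m : ℕ) := Matrix (Fin (m + 1)) (Fin (n + 1)) K

variable {K}

/-- the operators `Y_a φ = y_a φ - φ y_a`. -/
def Y1 {n m : ℕ} (f : HomM K n m) : HomM K n m := y1 K m * f - f * y1 K n
def Y2 {n m : ℕ} (f : HomM K n m) : HomM K n m := y2 K m * f - f * y2 K n
def Y3 {n m : ℕ} (f : HomM K n m) : HomM K n m := y3 K m * f - f * y3 K n

end Pool.Agent.H38.B2
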