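import Pool.Agent.H38.B2.Bk

/-!
Exactness of the resolution.
-/

set_option linter.unusedSectionVars false
set_option linter.unusedSimpArgs false

namespace Pool.Agent.H38.B2

open Matrix

variable {K : Type*} [Field K] {n : ℕ}

theorem sum_e (p : Fin (n + 1) → A0 K) :
    rm p A0.e0 + rm p A0.e1 + rm p A0.e2 + rm p A0.e3 = p := by
  have h : (A0.e0 + A0.e1 + A0.e2 + A0.e3 : A0 K) = 1 := by
    ext i
    cases i <;> simp
  rw [← rm_add, ← rm_add, ← rm_add, h]
  funext k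
  simp [rm]

/-- even columns only -/
def EvP (p : Fin (n + 1) → A0 K) : Prop := rm p A0.e1 = 0 ∧ rm p A0.e3 = 0
/-- odd columns only -/
def OdP (p : Fin (n + 1) → A0 K) : Prop := rm p A0.e0 = 0 ∧ rm p A0.e2 = 0

section EO
variable {p q : Fin (n + 1) → A0 K}

theorem EvP.om (h : EvP p) : rm p A0.om = p := by
  conv_rhs => rw [← sum_e p]
  rw [A0.om_eq, rm_sub, rm_add, rm_sub, h.1, h.2]
  abel

theorem OdP.om (h : OdP p) : rm p A0.om = - p := by
  conv_rhs => rw [← sum_e p]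
  rw [A0.om_eq, rm_sub, rm_add, rm_sub, h.1, h.2]
  abel

theorem EvP.ev (h : EvP p) : rm p A0.ev = p := by
  conv_rhs => rw [← sum_e p]
  rw [A0.ev_eq, rm_add, h.1, h.2]
  abel

theorem OdP.od (h : OdP p) : rm p A0.od = p := by
  conv_rhs => rw [← sum_e p]
  rw [A0.od_eq, rm_add, h.1, h.2]
  abel

theorem EvP_iff : EvP p ↔ rm p A0.ev = p := by
  constructor
  · exact fun h => h.ev
  · intro h
    constructor
    · rw [← h, rm_rm, A0.ev_eq, add_mul, A0.e0_mul_e1, A0.e2_mul_e1, add_zero, rm_zero]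
    · rw [← h, rm_rm, A0.ev_eq, add_mul, A0.e0_mul_e3, A0.e2_mul_e3, add_zero, rm_zero]

theorem OdP_iff : OdP p ↔ rm p A0.od = p := by
  constructor
  · exact fun h => h.od
  · intro h
    constructor
    · rw [← h, rm_rm, A0.od_eq, add_mul, A0.e1_mul_e0, A0.e3_mul_e0, add_zero, rm_zero]
    · rw [← h, rm_rm, A0.od_eq, add_mul, A0.e1_mul_e2, A0.e3_mul_e2, add_zero, rm_zero]

theorem EvP.d3 (h : EvP p) : co .d3 p = 0 := by
  have := congrArg (co .d3) h.2
  rw [co_d3_rm] at this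
  simpa [co_zero] using this

theorem OdP.p23s (h : OdP p) : co .p23s p = 0 := by
  have := congrArg (co .p23s) h.2
  rw [co_p23s_rm] at this
  simpa [co_zero] using this

theorem OdP.XiB (h : OdP p) : EvP (XiB p) := by
  constructor
  · rw [rm_XiB_e1, h.2, XiB_zero]
  · rw [rm_XiB_e3]

theorem EvP.XiB (h : EvP p) : OdP (XiB p) := by
  constructor
  · rw [rm_XiB_e0, h.1, XiB_zero]
  · rw [rm_XiB_e2, h.2, XiB_zero]

theorem EvP_vv (s : Fin (n + 1) → K) : EvP (vv s) := by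
  constructor
  · rw [rm_vv]
    simp
  · rw [rm_vv]
    simp

theorem EvP.add (h : EvP p) (h' : EvP q) : EvP (p + q) := by
  constructor
  · rw [add_rm, h.1, h'.1, add_zero]
  · rw [add_rm, h.2, h'.2, add_zero]

theorem OdP.add (h : OdP p) (h' : OdP q) : OdP (p + q) := by
  constructor
  · rw [add_rm, h.1, h'.1, add_zero]
  · rw [add_rm, h.2, h'.2, add_zero]

theorem EvP.smul (h : EvP p) (c : K) : EvP (c • p) := by
  constructor
  · rw [smul_rm, h.1, smul_zero]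
  · rw [smul_rm, h.2, smul_zero]

theorem OdP.smul (h : OdP p) (c : K) : OdP (c • p) := by
  constructor
  · rw [smul_rm, h.1, smul_zero]
  · rw [smul_rm, h.2, smul_zero]

theorem EvP.neg (h : EvP p) : EvP (-p) := by
  constructor
  · rw [neg_rm, h.1, neg_zero]
  · rw [neg_rm, h.2, neg_zero]

theorem OdP.neg (h : OdP p) : OdP (-p) := by
  constructor
  · rw [neg_rm, h.1, neg_zero]
  · rw [neg_rm, h.2, neg_zero]

theorem EvP_zero : EvP (0 : Fin (n + 1) → A0 K) := by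
  constructor
  · funext k
    simp [rm]
  · funext k
    simp [rm]

theorem OdP_zero : OdP (0 : Fin (n + 1) → A0 K) := by
  constructor
  · funext k
    simp [rm]
  · funext k
    simp [rm]

end EO

theorem eq_zero_of_EvOd {p : Fin (n + 1) → A0 K} (h : EvP p) (h' : OdP p) : p = 0 := by
  rw [← sum_e p, h.1, h.2, h'.1, h'.2]
  simp

/-- even type -/
def Pev (f : Fin (n + 1) → AA K) : Prop :=
  EvP (c11 f) ∧ OdP (c12 f) ∧ EvP (c21 f) ∧ OdP (c22 f) ∧ cro f = 0

/-- odd type -/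
def Pod (f : Fin (n + 1) → AA K) : Prop :=
  OdP (c11 f) ∧ EvP (c12 f) ∧ OdP (c21 f) ∧ EvP (c22 f) ∧ csi f = 0

theorem Pev_iff (f : Fin (n + 1) → AA K) :
    rmul n (AA.mk A0.ev 0 0 A0.od 0 0) f = f ↔ Pev f := by
  constructor
  · intro h
    refine ⟨EvP_iff.mpr ?_, OdP_iff.mpr ?_, EvP_iff.mpr ?_, OdP_iff.mpr ?_, ?_⟩
    · have := congrArg c11 h
      rwa [c11_E] at this
    · have := congrArg c12 h
      rw [c12_E] at this
      simpa using this
    · have := congrArg c21 h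
      rwa [c21_E] at this
    · have := congrArg c22 h
      rwa [c22_E] at this
    · have := congrArg cro h
      rw [cro_E] at this
      simpa using this.symm
  · rintro ⟨h1, h2, h3, h4, h5⟩
    apply vec_ext
    · rw [c11_E, h1.ev]
    · rw [c12_E, h2.od]
      simp
    · rw [c21_E, h3.ev]
    · rw [c22_E, h4.od]
    · rw [cro_E, h5]
      simp
    · rw [csi_E]
      simp

theorem Pod_iff (f : Fin (n + 1) → AA K) :
    rmul n (AA.mk A0.od 0 0 A0.ev 0 0) f = f ↔ Pod f := by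
  constructor
  · intro h
    refine ⟨OdP_iff.mpr ?_, EvP_iff.mpr ?_, OdP_iff.mpr ?_, EvP_iff.mpr ?_, ?_⟩
    · have := congrArg c11 h
      rwa [c11_E] at this
    · have := congrArg c12 h
      rw [c12_E] at this
      simpa using this
    · have := congrArg c21 h
      rwa [c21_E] at this
    · have := congrArg c22 h
      rwa [c22_E] at this
    · have := congrArg csi h
      rw [csi_E] at this
      simpa using this.symm
  · rintro ⟨h1, h2, h3, h4, h5⟩
    apply vec_ext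
    · rw [c11_E, h1.od]
    · rw [c12_E, h2.ev]
      simp
    · rw [c21_E, h3.od]
    · rw [c22_E, h4.ev]
    · rw [cro_E]
      simp
    · rw [csi_E, h5]
      simp

theorem mem_R_odd {l : ℕ} (hl : l % 2 = 1) (h3 : 3 ≤ l) (f : Fin (n + 1) → AA K) :
    f ∈ R K n l ↔ Pod f := by
  obtain ⟨m, rfl⟩ : ∃ m, l = m + 3 := ⟨l - 3, by omega⟩
  have : m % 2 = 0 := by omega
  rw [mem_R, ← Pod_iff]
  simp [AA.Eid, this]

theorem mem_R_even {l : ℕ} (hl : l % 2 = 0) (h3 : 3 ≤ l) (f : Fin (n + 1) → AA K) :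
    f ∈ R K n l ↔ Pev f := by
  obtain ⟨m, rfl⟩ : ∃ m, l = m + 3 := ⟨l - 3, by omega⟩
  have : ¬ m % 2 = 0 := by omega
  rw [mem_R, ← Pev_iff]
  simp only [AA.Eid, if_neg this]

/-! the squares vanish -/

theorem sgn_even {l : ℕ} (hl : l % 2 = 0) : sgn K l = 1 := if_pos hl
theorem sgn_odd {l : ℕ} (hl : l % 2 = 1) : sgn K l = -1 := if_neg (by omega)

theorem cc_even [CharZero K] {l : ℕ} (hl : l % 2 = 0) : cc K (l + 1) = - (1 + cc K l) := by
  have h : ¬ (l + 1) % 2 = 0 := by omega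
  simp only [cc, if_pos hl, if_neg h]
  have : (2 : K) ≠ 0 := two_ne_zero
  field_simp
  push_cast
  ring

theorem cc_odd [CharZero K] {l : ℕ} (hl : l % 2 = 1) : cc K (l + 1) = - cc K l := by
  have h : ¬ l % 2 = 0 := by omega
  have h' : (l + 1) % 2 = 0 := by omega
  simp only [cc, if_pos h', if_neg h]
  have : (2 : K) ≠ 0 := two_ne_zero
  field_simp
  push_cast
  ring

theorem DA_Pod {l : ℕ} {f : Fin (n + 1) → AA K} (h : Pod f) :
    Pev (DA n l f) := by
  obtain ⟨h1, h2, h3, h4, h5⟩ := h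
  refine ⟨?_, ?_, ?_, ?_, ?_⟩
  · rw [c11_DA, h1.om]
    exact ((EvP_vv _).smul _).add (h1.neg.XiB.smul _)
  · rw [c12_DA, h2.om, h5, vv_zero, smul_zero, sub_zero, h2.d3, vv_zero, smul_zero, add_zero]
    exact h1.add (h2.XiB.smul _)
  · rw [c21_DA, h3.om]
    exact (h4.add ((EvP_vv _).smul _)).add (h3.neg.XiB.smul _)
  · rw [c22_DA, h4.om, h4.d3, vv_zero, smul_zero, zero_add]
    exact h4.XiB.smul _
  · rw [cro_DA, h1.om, h5, co_neg, h1.p23s]
    simp

theorem DA_Pev {l : ℕ} {f : Fin (n + 1) → AA K} (h : Pev f) :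
    Pod (DA n l f) := by
  obtain ⟨h1, h2, h3, h4, h5⟩ := h
  refine ⟨?_, ?_, ?_, ?_, ?_⟩
  · rw [c11_DA, h1.om, h1.d3, vv_zero, smul_zero, zero_add]
    exact h1.XiB.smul _
  · rw [c12_DA, h2.om, sub_eq_add_neg]
    exact ((h1.add ((EvP_vv _).smul _)).add (h2.neg.XiB.smul _)).add ((EvP_vv _).smul _).neg
  · rw [c21_DA, h3.om, h3.d3, vv_zero, smul_zero, add_zero]
    exact h4.add (h3.XiB.smul _)
  · rw [c22_DA, h4.om]
    exact ((EvP_vv _).smul _).add (h4.neg.XiB.smul _)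
  · rw [csi_DA, h1.d3, neg_zero]

/-- preimage for even degree -/
theorem pre_even [CharZero K] {l : ℕ} (hl : l % 2 = 0) {f : Fin (n + 1) → AA K} (h : Pev f)
    (hA : c11 f = XiB (c12 f) + vv (csi f) - cc K l • vv (co .d3 (c12 f)))
    (hB : c22 f = - XiB (c21 f)) (hC : csi f = - co .p23s (c11 f)) :
    Pod (mkv (c12 f) 0 0 (c21 f) 0 0) ∧ DA n (l + 1) (mkv (c12 f) 0 0 (c21 f) 0 0) = f := by
  obtain ⟨h1, h2, h3, h4, h5⟩ := h
  have hs : sgn K (l + 1) = -1 := sgn_odd (by omega)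
  have hC' : csi f = - co .d3 (c12 f) := by
    rw [hC, hA, co_sub, co_add, co_p23s_XiB, co_smul, co_vv, co_vv]
    simp
  refine ⟨⟨h2, EvP_zero, OdP_zero, h3, rfl⟩, ?_⟩
  apply vec_ext
  · rw [c11_DA, c11_mkv, h2.om, hs, cc_even hl, XiB_neg, hA, hC', vv_neg]
    module
  · rw [c12_DA, c11_mkv, c12_mkv, csi_mkv, vv_zero, EvP_zero.om, XiB_zero, co_zero, vv_zero]
    simp
  · rw [c21_DA, c21_mkv, c22_mkv, OdP_zero.om, neg_zero, XiB_zero, co_zero, vv_zero]
    simp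
  · rw [c22_DA, c22_mkv, h3.om, h3.d3, hs, vv_zero, hB]
    module
  · rw [cro_DA, c11_mkv, csi_mkv, h2.om, co_neg, h2.p23s, h5]
    simp
  · rw [csi_DA, c11_mkv, hC']

/-- preimage for odd degree -/
theorem pre_odd [CharZero K] {l : ℕ} (hl : l % 2 = 1) {f : Fin (n + 1) → AA K} (h : Pod f)
    (hA : c11 f = XiB (c12 f))
    (hB : c22 f = - XiB (c21 f) - cc K l • vv (co .d3 (c21 f))) :
    Pev (mkv (c12 f + vv (cro f - co .p23s (c12 f))) 0 0 (c21 f) 0 (cro f - co .p23s (c12 f))) ∧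
    DA n (l + 1) (mkv (c12 f + vv (cro f - co .p23s (c12 f))) 0 0 (c21 f) 0
      (cro f - co .p23s (c12 f))) = f := by
  obtain ⟨h1, h2, h3, h4, h5⟩ := h
  have hs : sgn K (l + 1) = 1 := sgn_even (by omega)
  have hE : EvP (c12 f + vv (cro f - co .p23s (c12 f))) := h2.add (EvP_vv _)
  refine ⟨⟨hE, OdP_zero, EvP_zero, h3, rfl⟩, ?_⟩
  apply vec_ext
  · rw [c11_DA, c11_mkv, hE.om, hE.d3, hs, vv_zero, XiB_add, XiB_vv, hA]
    module
  · rw [c12_DA, c11_mkv, c12_mkv, csi_mkv, OdP_zero.om, neg_zero, XiB_zero, co_zero, vv_zero, hs]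
    module
  · rw [c21_DA, c21_mkv, c22_mkv, EvP_zero.om, XiB_zero, co_zero, vv_zero]
    simp
  · rw [c22_DA, c22_mkv, h3.om, hs, cc_odd hl, XiB_neg, hB]
    module
  · rw [cro_DA, c11_mkv, csi_mkv, hE.om, co_add, co_vv, hs]
    simp
  · rw [csi_DA, c11_mkv, hE.d3, h5, neg_zero]

end Pool.Agent.H38.B2
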