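import Pool.Agent.H38.B2.RExact

/-!
Exactness of the resolution, second part.
-/

set_option linter.unusedSectionVars false
set_option linter.unusedSimpArgs false

namespace Pool.Agent.H38.B2

open Matrix

variable {K : Type*} [Field K] {n : ℕ}

theorem DA_DA_even [CharZero K] {l : ℕ} (hl : l % 2 = 0) {g : Fin (n + 1) → AA K} (hg : Pod g) :
    DA n l (DA n (l + 1) g) = 0 := by
  have hs : sgn K l = 1 := sgn_even hl
  have hs' : sgn K (l + 1) = -1 := sgn_odd (by omega)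
  have hP := DA_Pod (l := l + 1) hg
  obtain ⟨h1, h2, h3, h4, h5⟩ := hg
  obtain ⟨k1, k2, k3, k4, k5⟩ := hP
  apply vec_ext
  · rw [c11_DA, k1.om, k1.d3, c11_DA, h1.om, XiB_add, XiB_smul, XiB_smul, XiB_vv, XiB_XiB, vv_zero]
    simp
    rfl
  · rw [c12_DA, k2.om, XiB_neg, c12_DA, h2.om, h2.d3, h5, c11_DA, h1.om, csi_DA, hs, hs', vv_zero,
      vv_neg, cc_even hl, co_sub, co_add, co_add, co_smul, co_smul, co_smul, co_d3_XiB, co_zero,
      XiB_sub, XiB_add, XiB_add, XiB_smul, XiB_smul, XiB_smul, XiB_XiB, XiB_zero, XiB_neg]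
    simp only [smul_zero, add_zero, sub_zero]
    have : c12 (0 : Fin (n + 1) → AA K) = 0 := rfl
    rw [this]
    module
  · rw [c21_DA, k3.om, k3.d3, c21_DA, h3.om, XiB_neg, c22_DA, h4.om, h4.d3, hs, hs', vv_zero,
      XiB_add, XiB_add, XiB_smul, XiB_smul, XiB_vv, XiB_neg, XiB_XiB]
    have : c21 (0 : Fin (n + 1) → AA K) = 0 := rfl
    rw [this]
    simp
  · rw [c22_DA, k4.om, XiB_neg, c22_DA, h4.om, h4.d3, co_add, co_smul, co_smul, co_d3_XiB, vv_zero,
      co_zero, XiB_add, XiB_smul, XiB_smul, XiB_XiB, XiB_zero]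
    simp only [smul_zero, add_zero, vv_zero, neg_zero]
    rfl
  · rw [cro_DA, k1.om, csi_DA, c11_DA, h1.om, hs, hs', co_add, co_smul, co_smul, co_vv, XiB_neg,
      co_neg, co_p23s_XiB]
    have : cro (0 : Fin (n + 1) → AA K) = 0 := rfl
    rw [this]
    simp
  · rw [csi_DA, k1.d3]
    rw [neg_zero]
    rfl

theorem DA_DA_odd [CharZero K] {l : ℕ} (hl : l % 2 = 1) {g : Fin (n + 1) → AA K} (hg : Pev g) :
    DA n l (DA n (l + 1) g) = 0 := by
  have hs : sgn K l = -1 := sgn_odd hl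
  have hs' : sgn K (l + 1) = 1 := sgn_even (by omega)
  have hP := DA_Pev (l := l + 1) hg
  obtain ⟨h1, h2, h3, h4, h5⟩ := hg
  obtain ⟨k1, k2, k3, k4, k5⟩ := hP
  apply vec_ext
  · rw [c11_DA, k1.om, c11_DA, h1.om, h1.d3, XiB_neg, vv_zero, XiB_add, XiB_smul, XiB_smul,
      XiB_XiB, XiB_zero, co_add, co_smul, co_smul, co_d3_XiB, co_zero]
    simp only [smul_zero, add_zero, vv_zero, neg_zero]
    rfl
  · rw [c12_DA, k2.om, k2.d3, k5, c12_DA, h2.om, c11_DA, h1.om, h1.d3, hs, hs', vv_zero, XiB_sub,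
      XiB_add, XiB_add, XiB_smul, XiB_smul, XiB_smul, XiB_vv, XiB_vv, XiB_neg, XiB_neg, XiB_XiB]
    have : c12 (0 : Fin (n + 1) → AA K) = 0 := rfl
    rw [this]
    module
  · rw [c21_DA, k3.om, c21_DA, h3.om, h3.d3, c22_DA, h4.om, hs, hs', cc_odd hl, vv_zero, co_add,
      co_add, co_smul, co_smul, co_d3_XiB, co_zero, XiB_neg, XiB_neg, XiB_add, XiB_add, XiB_smul,
      XiB_smul, XiB_XiB, XiB_zero]
    have : c21 (0 : Fin (n + 1) → AA K) = 0 := rfl
    rw [this]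
    simp only [smul_zero, add_zero]
    module
  · rw [c22_DA, k4.om, k4.d3, c22_DA, h4.om, XiB_neg, vv_zero, XiB_add, XiB_smul, XiB_smul,
      XiB_neg, XiB_XiB, XiB_vv]
    simp only [smul_zero, add_zero, neg_zero]
    rfl
  · rw [cro_DA, k1.om, k5, c11_DA, h1.om, h1.d3, vv_zero, co_neg, co_add, co_smul, co_smul,
      co_p23s_XiB, h1.d3, co_zero]
    simp only [smul_zero, add_zero, neg_zero]
    rfl
  · rw [csi_DA, c11_DA, h1.om, h1.d3, vv_zero, co_add, co_smul, co_smul, co_d3_XiB, co_zero]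
    simp only [smul_zero, add_zero, neg_zero]
    rfl

end Pool.Agent.H38.B2
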