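import Pool.Agent.H38.B2.RExact2

/-!
Exactness of the resolution, third part.
-/

set_option linter.unusedSectionVars false
set_option linter.unusedSimpArgs false

namespace Pool.Agent.H38.B2

open Matrix

variable {K : Type*} [Field K] {n : ℕ}

theorem c11_zero : c11 (0 : Fin (n + 1) → AA K) = 0 := rfl
theorem c12_zero : c12 (0 : Fin (n + 1) → AA K) = 0 := rfl
theorem c21_zero : c21 (0 : Fin (n + 1) → AA K) = 0 := rfl
theorem c22_zero : c22 (0 : Fin (n + 1) → AA K) = 0 := rfl
theorem cro_zero : cro (0 : Fin (n + 1) → AA K) = 0 := rfl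
theorem csi_zero : csi (0 : Fin (n + 1) → AA K) = 0 := rfl

theorem dR_val (l : ℕ) (f : R K n (l + 1)) :
    (dR K n l f : Fin (n + 1) → AA K) = rmul n (AA.Eid l) (DA n (l + 1) f.1) := rfl

theorem dR_eq_zero_iff (l : ℕ) (f : R K n (l + 1)) :
    dR K n l f = 0 ↔ rmul n (AA.Eid l) (DA n (l + 1) f.1) = 0 :=
  ⟨fun h => congrArg Subtype.val h, fun h => Subtype.ext h⟩

theorem rm_e3_eq_zero {p : Fin (n + 1) → A0 K} (h : co .d3 p = 0) : rm p A0.e3 = 0 := by
  funext k
  have h1 : p k .d3 = 0 := congrFun h k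
  ext i
  cases i <;> simp [rm, h1]

theorem DA_mem {l : ℕ} (hl : 3 ≤ l) {g : Fin (n + 1) → AA K} (hg : g ∈ R K n (l + 1)) :
    DA n (l + 1) g ∈ R K n l := by
  rcases Nat.mod_two_eq_zero_or_one l with h | h
  · rw [mem_R_even h hl]
    rw [mem_R_odd (by omega) (by omega)] at hg
    exact DA_Pod hg
  · rw [mem_R_odd h hl]
    rw [mem_R_even (by omega) (by omega)] at hg
    exact DA_Pev hg

theorem DA_DA [CharZero K] {l : ℕ} (hl : 3 ≤ l) {g : Fin (n + 1) → AA K}
    (hg : g ∈ R K n (l + 1)) : DA n l (DA n (l + 1) g) = 0 := by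
  rcases Nat.mod_two_eq_zero_or_one l with h | h
  · rw [mem_R_odd (by omega) (by omega)] at hg
    exact DA_DA_even h hg
  · rw [mem_R_even (by omega) (by omega)] at hg
    exact DA_DA_odd h hg

/-- exactness at `R l` for `l ≥ 3`, from the weak form of the kernel condition. -/
theorem ker_odd [CharZero K] {l : ℕ} (hl : l % 2 = 1) {f : Fin (n + 1) → AA K} (h : Pod f)
    (h12 : rm (c12 (DA n l f)) A0.e1 = 0) (h21 : rm (c21 (DA n l f)) A0.ev = 0)
    (hsi : csi (DA n l f) = 0) : ∃ g : Fin (n + 1) → AA K, Pev g ∧ DA n (l + 1) g = f := by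
  have hs : sgn K l = -1 := sgn_odd hl
  have h' := h
  obtain ⟨h1, h2, h3, h4, h5⟩ := h
  have hd3 : co .d3 (c11 f) = 0 := by
    rw [csi_DA] at hsi
    exact neg_eq_zero.mp hsi
  have e12 : c12 (DA n l f) = c11 f - XiB (c12 f) := by
    rw [c12_DA, h2.om, h2.d3, h5, vv_zero, hs]
    module
  have e21 : c21 (DA n l f) = c22 f + cc K l • vv (co .d3 (c21 f)) + XiB (c21 f) := by
    rw [c21_DA, h3.om, hs, XiB_neg]
    module
  have hA : c11 f = XiB (c12 f) := by
    rw [e12] at h12
    have hO : OdP (c11 f - XiB (c12 f)) := by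
      rw [sub_eq_add_neg]
      exact h1.add h2.XiB.neg
    have h3' : rm (c11 f - XiB (c12 f)) A0.e3 = 0 := by
      rw [sub_rm, rm_e3_eq_zero hd3, rm_XiB_e3, sub_zero]
    have := sum_e (c11 f - XiB (c12 f))
    rw [hO.1, hO.2, h12, h3'] at this
    simp only [add_zero] at this
    exact (sub_eq_zero.mp this.symm)
  have hB : c22 f = - XiB (c21 f) - cc K l • vv (co .d3 (c21 f)) := by
    rw [e21] at h21
    have hE : EvP (c22 f + cc K l • vv (co .d3 (c21 f)) + XiB (c21 f)) :=
      (h4.add ((EvP_vv _).smul _)).add h3.XiB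
    rw [hE.ev] at h21
    rw [← sub_eq_zero, ← h21]
    module
  exact ⟨_, pre_odd hl h' hA hB⟩

theorem ker_even [CharZero K] {l : ℕ} (hl : l % 2 = 0) {f : Fin (n + 1) → AA K} (h : Pev f)
    (h12 : c12 (DA n l f) = 0) (h21 : c21 (DA n l f) = 0)
    (hro : cro (DA n l f) = 0) : ∃ g : Fin (n + 1) → AA K, Pod g ∧ DA n (l + 1) g = f := by
  have hs : sgn K l = 1 := sgn_even hl
  have h' := h
  obtain ⟨h1, h2, h3, h4, h5⟩ := h
  have hA : c11 f = XiB (c12 f) + vv (csi f) - cc K l • vv (co .d3 (c12 f)) := by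
    rw [c12_DA, h2.om, XiB_neg, hs] at h12
    rw [← sub_eq_zero, ← h12]
    module
  have hB : c22 f = - XiB (c21 f) := by
    rw [c21_DA, h3.om, h3.d3, vv_zero, hs] at h21
    rw [← sub_eq_zero, ← h21]
    module
  have hC : csi f = - co .p23s (c11 f) := by
    rw [cro_DA, h1.om, hs] at hro
    rw [← sub_eq_zero, ← hro]
    module
  exact ⟨_, pre_even hl h' hA hB hC⟩

theorem dR_exact_high [CharZero K] (n l : ℕ) (hl : 2 ≤ l) :
    Function.Exact (dR K n (l + 1)) (dR K n l) := by
  intro y
  constructor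
  · intro hy
    rw [dR_eq_zero_iff] at hy
    have hgoal : ∀ g : Fin (n + 1) → AA K, g ∈ R K n (l + 2) → DA n (l + 2) g = y.1 →
        y ∈ Set.range (dR K n (l + 1)) := by
      intro g hg hgy
      refine ⟨⟨g, hg⟩, ?_⟩
      apply Subtype.ext
      rw [dR_val, hgy]
      exact mem_R.mp y.2
    rcases Nat.mod_two_eq_zero_or_one l with h | h
    · -- `l + 1` is odd
      have hyP : Pod y.1 := (mem_R_odd (by omega) (by omega) y.1).mp y.2
      have key : rm (c12 (DA n (l + 1) y.1)) A0.e1 = 0 ∧ rm (c21 (DA n (l + 1) y.1)) A0.ev = 0 ∧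
          csi (DA n (l + 1) y.1) = 0 := by
        rcases Nat.lt_or_ge l 3 with h2 | h2
        · have : l = 2 := by omega
          subst this
          refine ⟨?_, ?_, ?_⟩
          · have := congrArg c12 hy
            simp only [AA.Eid, c12_E] at this
            simpa [c12_zero] using this
          · have := congrArg c21 hy
            simp only [AA.Eid, c21_E] at this
            rw [A0.ev_eq]
            exact this
          · have := congrArg csi hy
            simp only [AA.Eid, csi_E] at this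
            simpa [csi_zero] using this
        · rw [mem_R.mp (DA_mem h2 y.2)] at hy
          rw [hy]
          refine ⟨?_, ?_, rfl⟩
          · funext k
            simp [rm, c12]
          · funext k
            simp [rm, c21]
      obtain ⟨g, hg, hgy⟩ := ker_odd (by omega) hyP key.1 key.2.1 key.2.2
      exact hgoal g ((mem_R_even (by omega) (by omega) g).mpr hg) hgy
    · have hyP : Pev y.1 := (mem_R_even (by omega) (by omega) y.1).mp y.2
      rw [mem_R.mp (DA_mem (by omega) y.2)] at hy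
      obtain ⟨g, hg, hgy⟩ := ker_even (l := l + 1) (by omega) hyP (by rw [hy]; rfl)
        (by rw [hy]; rfl) (by rw [hy]; rfl)
      exact hgoal g ((mem_R_odd (by omega) (by omega) g).mpr hg) hgy
  · rintro ⟨g, rfl⟩
    rw [dR_eq_zero_iff, dR_val, mem_R.mp (DA_mem (l := l + 1) (by omega) g.2),
      DA_DA (l := l + 1) (by omega) g.2, map_zero]

end Pool.Agent.H38.B2
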