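import Pool.Agent.H38.B2.RExact3

/-!
Exactness of the resolution in low degrees.
-/

set_option linter.unusedSectionVars false
set_option linter.unusedSimpArgs false

namespace Pool.Agent.H38.B2

open Matrix

variable {K : Type*} [Field K] {n : ℕ}

theorem rm_mul (p : Fin (n + 1) → A0 K) (x y z : A0 K) (h : x * y = z) :
    rm (rm p x) y = rm p z := by
  rw [rm_rm, h]

theorem cc_one : cc K 1 = 0 := by
  simp [cc]

theorem cc_two : cc K 2 = 0 := by
  simp [cc]

theorem cc_three [CharZero K] : cc K 3 = -1 := by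
  have : (2 : K) ≠ 0 := two_ne_zero
  simp only [cc]
  norm_num

/-- `R 1` -/
theorem mem_R1 {f : Fin (n + 1) → AA K} : f ∈ R K n 1 ↔
    rm (c11 f) A0.e1 = c11 f ∧ rm (c12 f) A0.e0 = c12 f ∧ rm (c21 f) A0.e1 = c21 f ∧
    rm (c22 f) A0.e0 = c22 f ∧ csi f = 0 := by
  rw [mem_R]
  constructor
  · intro h
    have h11 := congrArg c11 h
    have h12 := congrArg c12 h
    have h21 := congrArg c21 h
    have h22 := congrArg c22 h
    have hsi := congrArg csi h
    simp only [AA.Eid, c11_E, c12_E, c21_E, c22_E, csi_E, A0.e0_p01s, A0.e0_d1, zero_smul,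
      add_zero] at h11 h12 h21 h22 hsi
    exact ⟨h11, h12, h21, h22, hsi.symm⟩
  · rintro ⟨h1, h2, h3, h4, h5⟩
    apply vec_ext
    · simp only [AA.Eid, c11_E, h1]
    · simp only [AA.Eid, c12_E, h2, A0.e0_p01s, zero_smul, add_zero]
    · simp only [AA.Eid, c21_E, h3]
    · simp only [AA.Eid, c22_E, h4]
    · simp only [AA.Eid, cro_E, A0.e1_p12s, A0.e1_d1, zero_smul, one_smul, zero_add]
    · simp only [AA.Eid, csi_E, h5, smul_zero]

/-- `R 2` -/
theorem mem_R2 {f : Fin (n + 1) → AA K} : f ∈ R K n 2 ↔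
    EvP (c11 f) ∧ rm (c12 f) A0.e1 = c12 f ∧ EvP (c21 f) ∧
    rm (c22 f) A0.e1 = c22 f ∧ cro f = 0 := by
  rw [mem_R, EvP_iff, EvP_iff, A0.ev_eq]
  constructor
  · intro h
    have h11 := congrArg c11 h
    have h12 := congrArg c12 h
    have h21 := congrArg c21 h
    have h22 := congrArg c22 h
    have hro := congrArg cro h
    simp only [AA.Eid, c11_E, c12_E, c21_E, c22_E, cro_E, A0.e1_p01s, zero_smul,
      add_zero, A0.add_apply, A0.e0_p12s, A0.e2_p12s, A0.e0_d1, A0.e2_d1] at h11 h12 h21 h22 hro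
    exact ⟨h11, h12, h21, h22, hro.symm⟩
  · rintro ⟨h1, h2, h3, h4, h5⟩
    apply vec_ext
    · simp only [AA.Eid, c11_E, h1]
    · simp only [AA.Eid, c12_E, h2, A0.e1_p01s, zero_smul, add_zero]
    · simp only [AA.Eid, c21_E, h3]
    · simp only [AA.Eid, c22_E, h4]
    · simp only [AA.Eid, cro_E, h5, A0.add_apply, A0.e0_p12s, A0.e2_p12s, zero_smul, add_zero,
        smul_zero]
    · simp only [AA.Eid, csi_E, A0.e1_d1, one_smul]

theorem OdP_of_e1 {p : Fin (n + 1) → A0 K} (h : rm p A0.e1 = p) : OdP p ∧ rm p A0.e3 = 0 := by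
  refine ⟨⟨?_, ?_⟩, ?_⟩ <;> rw [← h, rm_rm]
  · rw [A0.e1_mul_e0, rm_zero]
  · rw [A0.e1_mul_e2, rm_zero]
  · rw [A0.e1_mul_e3, rm_zero]

theorem EvP_of_e0 {p : Fin (n + 1) → A0 K} (h : rm p A0.e0 = p) : EvP p ∧ rm p A0.e2 = 0 := by
  refine ⟨⟨?_, ?_⟩, ?_⟩ <;> rw [← h, rm_rm]
  · rw [A0.e0_mul_e1, rm_zero]
  · rw [A0.e0_mul_e3, rm_zero]
  · rw [A0.e0_mul_e2, rm_zero]

theorem d3_of_e1 {p : Fin (n + 1) → A0 K} (h : rm p A0.e1 = p) : co .d3 p = 0 := by
  rw [← h, co_d3_rm]
  simp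

theorem p23s_of_e0 {p : Fin (n + 1) → A0 K} (h : rm p A0.e0 = p) : co .p23s p = 0 := by
  rw [← h, co_p23s_rm]
  simp

theorem p23s_of_e1 {p : Fin (n + 1) → A0 K} (h : rm p A0.e1 = p) : co .p23s p = 0 := by
  rw [← h, co_p23s_rm]
  simp

/-- exactness at `R 2` -/
theorem dR_exact_one [CharZero K] (n : ℕ) : Function.Exact (dR K n 2) (dR K n 1) := by
  rintro ⟨f, hf⟩
  have hy2 := mem_R2.mp hf
  obtain ⟨h1, h2, h3, h4, h5⟩ := hy2
  constructor
  · intro hy
    rw [dR_eq_zero_iff] at hy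
    change rmul n (AA.Eid 1) (DA n 2 f) = 0 at hy
    have k11 := congrArg c11 hy
    have k12 := congrArg c12 hy
    have k21 := congrArg c21 hy
    have kro := congrArg cro hy
    have hs : sgn K 2 = 1 := sgn_even (by norm_num)
    simp only [AA.Eid, c11_E, c12_E, c21_E, cro_E, A0.e0_p01s, A0.e1_p12s, A0.e1_d1, zero_smul,
      add_zero, zero_add, one_smul, c11_zero, c12_zero, c21_zero, cro_zero] at k11 k12 k21 kro
    set a := c11 f with ha
    set b := c12 f with hb
    set c := c21 f with hc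
    set d := c22 f with hd
    set s := csi f with hs'
    obtain ⟨hbO, hb3⟩ := OdP_of_e1 h2
    -- `a e0 = XiB b + vv s`
    have kA : rm a A0.e0 = XiB b + vv s := by
      rw [c12_DA, cc_two, hbO.om, hs, XiB_neg] at k12
      have hb' : XiB b = rm (XiB b) A0.e0 := by
        rw [rm_XiB_e0, h2]
      rw [hb', ← sub_eq_zero, ← k12, ← hb, ← ha]
      simp only [zero_smul, add_zero, one_smul, sub_rm, add_rm, neg_rm, rm_vv, A0.e0_d0, ← hs']
      module
    have kX : XiB (rm a A0.e2) = 0 := by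
      rw [c11_DA, cc_two, h1.om, hs] at k11
      simp only [zero_smul, zero_add, one_smul, rm_XiB_e1] at k11
      exact k11
    have kB : d = - XiB c := by
      rw [c21_DA, cc_two, h3.om, hs] at k21
      simp only [zero_smul, add_zero, one_smul, add_rm, rm_XiB_e1] at k21
      have h6 : XiB c = XiB (rm c A0.e2) := by
        conv_lhs => rw [← sum_e c]
        rw [h3.1, h3.2, XiB_add, XiB_add, XiB_add, XiB_e0, XiB_zero]
        simp
      rw [h6, ← h4]
      exact eq_neg_of_add_eq_zero_left k21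
    have kC : s = - co .p23s a := by
      rw [cro_DA, h1.om, hs] at kro
      rw [← sub_eq_zero, ← kro]
      module
    have hKO : OdP (kp (rm a A0.e2)) := by
      constructor
      · rw [rm_kp_e0]
      · rw [rm_kp_e2, rm_rm, A0.e2_mul_e1, rm_zero, kp_zero]
    have hgP : Pod (mkv (b + kp (rm a A0.e2)) 0 0 c 0 0) :=
      ⟨hbO.add hKO, EvP_zero, OdP_zero, h3, rfl⟩
    have hsum : rm a A0.e0 + rm a A0.e2 = a := by
      conv_rhs => rw [← sum_e a]
      rw [h1.1, h1.2]
      abel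
    refine ⟨⟨_, (mem_R_odd (by norm_num) (by norm_num) _).mpr hgP⟩, ?_⟩
    apply Subtype.ext
    rw [dR_val]
    have hs3 : sgn K 3 = -1 := sgn_odd (by norm_num)
    have hXk : XiB (kp (rm a A0.e2)) = rm a A0.e2 := by
      have := XiB_kp (rm a A0.e2) (by rw [rm_rm, A0.e2_mul_e0, rm_zero])
      rwa [kX, kp_zero, add_zero] at this
    have hd3 : co .d3 (b + kp (rm a A0.e2)) = co .p23s a := by
      rw [co_add, d3_of_e1 h2, co_d3_kp, co_p23s_rm]
      simp
    show rmul n (AA.Eid 2) (DA n 3 (mkv (b + kp (rm a A0.e2)) 0 0 c 0 0)) = f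
    simp only [AA.Eid]
    apply vec_ext
    · rw [c11_E, c11_DA, c11_mkv, (hbO.add hKO).om, hs3, cc_three, hd3, XiB_neg, XiB_add, hXk,
        ← A0.ev_eq]
      have : (-1 : K) • vv (co .p23s a) + (-1 : K) • -(XiB b + rm a A0.e2) = a := by
        have e1 : vv s = - vv (co .p23s a) := by rw [kC, vv_neg]
        conv_rhs => rw [← hsum, kA, e1]
        module
      rw [this]
      exact h1.ev
    · rw [c12_E, c12_DA, c12_mkv, c11_mkv, csi_mkv, EvP_zero.om, XiB_zero, vv_zero, co_zero, vv_zero]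
      simp only [smul_zero, add_zero, sub_zero, A0.e1_p01s, zero_smul, add_rm, h2]
      rw [rm_kp_e1, rm_rm, A0.e2_mul_e0, rm_zero, kp_zero, add_zero]
    · rw [c21_E, c21_DA, c21_mkv, c22_mkv, OdP_zero.om, neg_zero, XiB_zero, co_zero, vv_zero,
        ← A0.ev_eq]
      simp only [smul_zero, add_zero]
      exact h3.ev
    · rw [c22_E, c22_DA, c22_mkv, h3.om, h3.d3, vv_zero, hs3, smul_zero, zero_add, neg_one_smul,
        ← kB]
      exact h4
    · rw [cro_E, h5]
      simp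
    · rw [csi_E, csi_DA, c11_mkv, hd3]
      simp only [A0.e1_d1, one_smul]
      exact kC.symm
  · rintro ⟨g, hg'⟩
    rw [← hg', dR_eq_zero_iff, dR_val]
    have hg : Pod g.1 := (mem_R_odd (by norm_num) (by norm_num) _).mp g.2
    have h0 : DA n 2 (DA n 3 g.1) = 0 := DA_DA_even (l := 2) (by norm_num) hg
    have hP : Pev (DA n 3 g.1) := DA_Pod hg
    set h := DA n 3 g.1 with hh
    show rmul n (AA.Eid 1) (DA n 2 (rmul n (AA.Eid 2) h)) = 0
    have hdec : rmul n (AA.Eid 2) h = h - mkv 0 (rm (c12 h) A0.e3) 0 (rm (c22 h) A0.e3) 0 0 := by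
      obtain ⟨p1, p2, p3, p4, p5⟩ := hP
      have q2 : rm (c12 h) A0.e1 = c12 h - rm (c12 h) A0.e3 := by
        conv_rhs => rw [← sum_e (c12 h)]
        rw [p2.1, p2.2]
        simp only [zero_add, add_zero, add_rm, rm_rm, A0.e1_mul_e3, A0.e3_mul_e3, rm_zero]
        abel
      have q4 : rm (c22 h) A0.e1 = c22 h - rm (c22 h) A0.e3 := by
        conv_rhs => rw [← sum_e (c22 h)]
        rw [p4.1, p4.2]
        simp only [zero_add, add_zero, add_rm, rm_rm, A0.e1_mul_e3, A0.e3_mul_e3, rm_zero]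
        abel
      simp only [AA.Eid]
      apply vec_ext
      · rw [c11_E, ← A0.ev_eq, p1.ev]
        show c11 h = c11 h - 0
        rw [sub_zero]
      · rw [c12_E, q2]
        show _ = c12 h - rm (c12 h) A0.e3
        simp
      · rw [c21_E, ← A0.ev_eq, p3.ev]
        show c21 h = c21 h - 0
        rw [sub_zero]
      · rw [c22_E, q4]
        rfl
      · rw [cro_E]
        show _ = cro h - 0
        rw [p5]
        simp
      · rw [csi_E]
        show _ = csi h - 0
        simp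
    rw [hdec, map_sub, h0, zero_sub, map_neg, neg_eq_zero]
    have hs : sgn K 2 = 1 := sgn_even (by norm_num)
    have ho : ∀ p : Fin (n + 1) → A0 K, rm (rm p A0.e3) A0.om = - rm p A0.e3 := by
      intro p
      rw [rm_rm, A0.om_eq, mul_sub, mul_add, mul_sub, A0.e3_mul_e0, A0.e3_mul_e1, A0.e3_mul_e2,
        A0.e3_mul_e3]
      simp [rm_neg]
    simp only [AA.Eid]
    apply vec_ext
    · rw [c11_E, c11_DA, c11_mkv, OdP_zero.om, neg_zero, XiB_zero, co_zero, vv_zero, smul_zero,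
        smul_zero, add_zero]
      funext k
      simp [rm, c11]
    · rw [c12_E, c12_DA, c11_mkv, c12_mkv, csi_mkv, ho, cc_two, vv_zero, XiB_neg]
      simp only [zero_smul, add_zero, zero_add, smul_zero, sub_zero, A0.e0_p01s, smul_rm, neg_rm,
        rm_XiB_e0]
      rw [rm_rm, A0.e3_mul_e1, rm_zero, XiB_zero, neg_zero, smul_zero]
      rfl
    · rw [c21_E, c21_DA, c21_mkv, c22_mkv, OdP_zero.om, neg_zero, XiB_zero, co_zero, vv_zero]
      simp only [smul_zero, add_zero, rm_rm, A0.e3_mul_e1, rm_zero]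
      rfl
    · rw [c22_E, c22_DA, c22_mkv, ho, cc_two, XiB_neg]
      simp only [zero_smul, zero_add, smul_rm, neg_rm, rm_XiB_e0]
      rw [rm_rm, A0.e3_mul_e1, rm_zero, XiB_zero, neg_zero, smul_zero]
      rfl
    · rw [cro_E, cro_DA, c11_mkv, csi_mkv, OdP_zero.om, neg_zero, co_zero]
      simp only [A0.e1_p12s, zero_smul, smul_zero, add_zero]
      rfl
    · rw [csi_E]
      simp only [A0.e0_d1, zero_smul]
      rfl

end Pool.Agent.H38.B2
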