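import Pool.Agent.H38.B2.RExact4

/-!
Exactness of the resolution at `R 1`, and the final statement.
-/

set_option linter.unusedSectionVars false
set_option linter.unusedSimpArgs false

namespace Pool.Agent.H38.B2

open Matrix

variable {K : Type*} [Field K] {n : ℕ}

/-- exactness at `R 1` -/
theorem dR_exact_zero [CharZero K] (n : ℕ) : Function.Exact (dR K n 1) (dR K n 0) := by
  rintro ⟨f, hf⟩
  have hf1 := mem_R1.mp hf
  obtain ⟨h1, h2, h3, h4, h5⟩ := hf1
  constructor
  · intro hy
    rw [dR_eq_zero_iff] at hy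
    change rmul n (AA.Eid 0) (DA n 1 f) = 0 at hy
    have k11 := congrArg c11 hy
    have k21 := congrArg c21 hy
    have hs : sgn K 1 = -1 := sgn_odd (by norm_num)
    simp only [AA.Eid, c11_E, c21_E, c11_zero, c21_zero] at k11 k21
    set a := c11 f with ha
    set b := c12 f with hb
    set c := c21 f with hc
    set d := c22 f with hd
    set r := cro f with hr
    obtain ⟨haO, ha3⟩ := OdP_of_e1 h1
    obtain ⟨hbE, hb2⟩ := EvP_of_e0 h2
    obtain ⟨hcO, hc3⟩ := OdP_of_e1 h3
    have kX : XiB a = 0 := by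
      rw [c11_DA, cc_one, haO.om, hs, XiB_neg] at k11
      simp only [zero_smul, zero_add, neg_smul, one_smul, neg_neg, rm_XiB_e0] at k11
      rwa [h1] at k11
    have kB : d = - XiB c := by
      rw [c21_DA, cc_one, hcO.om, hs, XiB_neg] at k21
      simp only [zero_smul, add_zero, neg_smul, one_smul, neg_neg, add_rm, rm_XiB_e0] at k21
      rw [← hd, h3, h4] at k21
      exact eq_neg_of_add_eq_zero_left k21
    have hXk : XiB (kp a) = a := by
      have := XiB_kp a haO.1
      rwa [kX, kp_zero, add_zero] at this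
    have hXb : XiB b = 0 := by
      rw [← h2, XiB_e0]
    have hKE : EvP (kp a) := by
      constructor
      · rw [rm_kp_e1, haO.1, kp_zero]
      · rw [rm_kp_e3, haO.2, kp_zero]
    have hgE : EvP (b + vv r + kp a) := (hbE.add (EvP_vv r)).add hKE
    have hg2 : mkv (b + vv r + kp a) 0 0 c 0 r ∈ R K n 2 := by
      rw [mem_R2]
      refine ⟨hgE, ?_, EvP_zero, h3, rfl⟩
      funext k
      simp [rm, c12, mkv]
    refine ⟨⟨_, hg2⟩, ?_⟩
    apply Subtype.ext
    rw [dR_val]
    have hs2 : sgn K 2 = 1 := sgn_even (by norm_num)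
    show rmul n (AA.Eid 1) (DA n 2 (mkv (b + vv r + kp a) 0 0 c 0 r)) = f
    simp only [AA.Eid]
    apply vec_ext
    · rw [c11_E, c11_DA, c11_mkv, hgE.om, hs2, cc_two, XiB_add, XiB_add, XiB_vv, hXb, hXk]
      simp only [zero_smul, zero_add, one_smul]
      exact h1
    · rw [c12_E, c12_DA, c12_mkv, c11_mkv, csi_mkv, OdP_zero.om, neg_zero, XiB_zero, hs2, cc_two]
      simp only [zero_smul, smul_zero, add_zero, one_smul, A0.e0_p01s]
      rw [show b + vv r + kp a - vv r = b + kp a by abel, add_rm, h2, rm_kp_e0, add_zero]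
    · rw [c21_E, c21_DA, c21_mkv, c22_mkv, EvP_zero.om, XiB_zero, co_zero, vv_zero]
      simp only [smul_zero, add_zero]
      exact h3
    · rw [c22_E, c22_DA, c22_mkv, hcO.om, hs2, cc_two, XiB_neg, ← kB]
      simp only [zero_smul, zero_add, one_smul]
      exact h4
    · rw [cro_E, cro_DA, c11_mkv, csi_mkv, hgE.om, co_add, co_add, co_vv, co_p23s_kp,
        p23s_of_e0 h2]
      simp [hr]
    · rw [csi_E, h5]
      simp
  · rintro ⟨g, hg'⟩
    rw [← hg', dR_eq_zero_iff, dR_val]
    obtain ⟨g1, g2, g3, g4, g5⟩ := mem_R2.mp g.2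
    have hg : Pev g.1 := ⟨g1, (OdP_of_e1 g2).1, g3, (OdP_of_e1 g4).1, g5⟩
    have h0 : DA n 1 (DA n 2 g.1) = 0 := DA_DA_odd (l := 1) (by norm_num) hg
    have hP : Pod (DA n 2 g.1) := DA_Pev hg
    set h := DA n 2 g.1 with hh
    show rmul n (AA.Eid 0) (DA n 1 (rmul n (AA.Eid 1) h)) = 0
    have hdec : rmul n (AA.Eid 1) h = h - mkv (rm (c11 h) A0.e3) (rm (c12 h) A0.e2)
        (rm (c21 h) A0.e3) (rm (c22 h) A0.e2) 0 0 := by
      obtain ⟨p1, p2, p3, p4, p5⟩ := hP
      have q1 : rm (c11 h) A0.e1 = c11 h - rm (c11 h) A0.e3 := by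
        conv_rhs => rw [← sum_e (c11 h)]
        rw [p1.1, p1.2]
        simp only [zero_add, add_zero, add_rm, rm_rm, A0.e1_mul_e3, A0.e3_mul_e3, rm_zero]
        abel
      have q2 : rm (c12 h) A0.e0 = c12 h - rm (c12 h) A0.e2 := by
        conv_rhs => rw [← sum_e (c12 h)]
        rw [p2.1, p2.2]
        simp only [zero_add, add_zero, add_rm, rm_rm, A0.e0_mul_e2, A0.e2_mul_e2, rm_zero]
        abel
      have q3 : rm (c21 h) A0.e1 = c21 h - rm (c21 h) A0.e3 := by
        conv_rhs => rw [← sum_e (c21 h)]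
        rw [p3.1, p3.2]
        simp only [zero_add, add_zero, add_rm, rm_rm, A0.e1_mul_e3, A0.e3_mul_e3, rm_zero]
        abel
      have q4 : rm (c22 h) A0.e0 = c22 h - rm (c22 h) A0.e2 := by
        conv_rhs => rw [← sum_e (c22 h)]
        rw [p4.1, p4.2]
        simp only [zero_add, add_zero, add_rm, rm_rm, A0.e0_mul_e2, A0.e2_mul_e2, rm_zero]
        abel
      simp only [AA.Eid]
      apply vec_ext
      · rw [c11_E, q1]
        rfl
      · rw [c12_E, q2]
        show _ = c12 h - rm (c12 h) A0.e2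
        simp
      · rw [c21_E, q3]
        rfl
      · rw [c22_E, q4]
        rfl
      · rw [cro_E]
        show _ = cro h - 0
        simp
      · rw [csi_E]
        show _ = csi h - 0
        rw [p5]
        simp
    rw [hdec, map_sub, h0, zero_sub, map_neg, neg_eq_zero]
    have ho : ∀ p : Fin (n + 1) → A0 K, rm (rm p A0.e3) A0.om = - rm p A0.e3 := by
      intro p
      rw [rm_rm, A0.om_eq, mul_sub, mul_add, mul_sub, A0.e3_mul_e0, A0.e3_mul_e1, A0.e3_mul_e2,
        A0.e3_mul_e3]
      simp [rm_neg]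
    simp only [AA.Eid]
    apply vec_ext
    · rw [c11_E, c11_DA, c11_mkv, ho, XiB_neg, cc_one]
      simp only [zero_smul, zero_add, smul_rm, neg_rm, rm_XiB_e0]
      rw [rm_rm, A0.e3_mul_e1, rm_zero, XiB_zero, neg_zero, smul_zero]
      rfl
    · rw [c12_E]
      rw [show (0 : A0 K) Ix.p01s = 0 from rfl, zero_smul, rm_zero, add_zero]
      rfl
    · rw [c21_E, c21_DA, c21_mkv, c22_mkv, ho, XiB_neg, cc_one]
      simp only [zero_smul, add_zero, smul_rm, neg_rm, add_rm, rm_XiB_e0]
      rw [rm_rm, rm_rm, A0.e3_mul_e1, A0.e2_mul_e0, rm_zero, rm_zero, XiB_zero, neg_zero,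
        smul_zero, add_zero]
      rfl
    · rw [c22_E, rm_zero]
      rfl
    · rw [cro_E]
      simp only [A0.e0_p12s, A0.e0_d1, zero_smul, add_zero]
      rfl
    · rw [csi_E]
      rw [show (0 : A0 K) Ix.d1 = 0 from rfl, zero_smul]
      rfl

/-- The sequence `... → R 2 → R 1 → R 0` is exact at all `R (l+1)`. -/
theorem dR_exact [CharZero K] (n l : ℕ) : Function.Exact (dR K n (l + 1)) (dR K n l) := by
  match l with
  | 0 => exact dR_exact_zero n
  | 1 => exact dR_exact_one n
  | (l + 2) => exact dR_exact_high n (l + 2) (by omega)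

end Pool.Agent.H38.B2
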