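import Pool.Agent.H38.B2.LieDefs

/-!
The commutation relations.
-/

namespace Pool.Agent.H38.B2

open Matrix

variable {K : Type*} [Field K]

theorem matE_mul_matF (n : ℕ) : matE K n * matF K n =
    diagonal fun i : Fin (n + 1) => (((i : ℕ) : K) + 1) * ((n : K) - ((i : ℕ) : K)) := by
  ext i j
  rw [Matrix.mul_apply]
  by_cases h : (i : ℕ) + 1 < n + 1
  · rw [Finset.sum_eq_single ⟨(i : ℕ) + 1, h⟩]
    · by_cases hij : i = j
      · subst hij
        simp only [matE, matF, diagonal_apply_eq, if_true]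
        push_cast
        ring
      · have : ¬ (i : ℕ) = j := fun h => hij (Fin.ext h)
        simp [matE, matF, diagonal_apply_ne _ hij, this]
    · intro b _ hb
      have : ¬ (i : ℕ) + 1 = b := fun h' => hb (Fin.ext h'.symm)
      simp [matE, this]
    · simp
  · have hi : (i : ℕ) = n := by omega
    rw [Finset.sum_eq_zero]
    · by_cases hij : i = j
      · subst hij
        simp [hi]
      · rw [diagonal_apply_ne _ hij]
    · intro k _
      have : ¬ (i : ℕ) + 1 = k := by omega
      simp [matE, this]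

theorem matF_mul_matE (n : ℕ) : matF K n * matE K n =
    diagonal fun i : Fin (n + 1) => ((i : ℕ) : K) * ((n : K) - ((i : ℕ) : K) + 1) := by
  ext i j
  rw [Matrix.mul_apply]
  by_cases h : (i : ℕ) = 0
  · rw [Finset.sum_eq_zero]
    · by_cases hij : i = j
      · subst hij
        simp [h]
      · rw [diagonal_apply_ne _ hij]
    · intro k _
      have : ¬ (i : ℕ) = k + 1 := by omega
      simp [matF, this]
  · have h1 : (i : ℕ) - 1 < n + 1 := by omega
    rw [Finset.sum_eq_single ⟨(i : ℕ) - 1, h1⟩]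
    · by_cases hij : i = j
      · subst hij
        have h2 : (i : ℕ) = (i : ℕ) - 1 + 1 := by omega
        simp only [matF, matE, diagonal_apply_eq]
        rw [if_pos h2, if_pos h2.symm, one_mul]
      · have h2 : ¬ (i : ℕ) = j := fun h => hij (Fin.ext h)
        have h3 : ¬ (i : ℕ) - 1 + 1 = j := by omega
        simp only [matF, matE]
        rw [if_neg h3, mul_zero, diagonal_apply_ne _ hij]
    · intro b _ hb
      have : ¬ (i : ℕ) = b + 1 := fun h' => hb (Fin.ext (by simp; omega))
      simp [matF, this]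
    · simp

theorem matH_eq (n : ℕ) : matH K n = diagonal fun i : Fin (n + 1) =>
    (n : K) - 2 * ((i : ℕ) : K) := by
  ext i j
  by_cases hij : i = j
  · subst hij
    simp [matH]
  · simp [matH, hij]

theorem matE_matF_comm (n : ℕ) : matE K n * matF K n - matF K n * matE K n = matH K n := by
  rw [matE_mul_matF, matF_mul_matE, matH_eq, diagonal_sub]
  congr 1
  funext i
  ring

theorem matH_matE_comm (n : ℕ) : matH K n * matE K n - matE K n * matH K n =
    (2 : K) • matE K n := by
  rw [matH_eq]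
  ext i j
  rw [Matrix.sub_apply, diagonal_mul, mul_diagonal, Matrix.smul_apply]
  simp only [matE]
  split_ifs with h
  · rw [← h]
    push_cast
    simp only [smul_eq_mul]
    ring
  · simp

theorem matH_matF_comm (n : ℕ) : matH K n * matF K n - matF K n * matH K n =
    - (2 : K) • matF K n := by
  rw [matH_eq]
  ext i j
  rw [Matrix.sub_apply, diagonal_mul, mul_diagonal, Matrix.smul_apply]
  simp only [matF]
  split_ifs with h
  · rw [h]
    push_cast
    simp only [smul_eq_mul]
    ring
  · simp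

theorem y_rel12 (n : ℕ) : y1 K n * y2 K n - y2 K n * y1 K n = - y3 K n := by
  have := matE_matF_comm (K := K) n
  simp only [y1, y2, y3, neg_mul_neg, neg_neg]
  exact this

theorem y_rel23 (n : ℕ) : y2 K n * y3 K n - y3 K n * y2 K n = - (2 : K) • y2 K n := by
  have := matH_matF_comm (K := K) n
  simp only [y2, y3, neg_mul_neg, smul_neg, neg_smul, neg_neg]
  rw [← neg_sub, this]
  simp

theorem y_rel31 (n : ℕ) : y3 K n * y1 K n - y1 K n * y3 K n = - (2 : K) • y1 K n := by
  have := matH_matE_comm (K := K) n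
  simp only [y1, y3, neg_mul_neg, smul_neg, neg_smul, neg_neg]
  exact this

theorem y_vec12 (n : ℕ) (w : Fin (n + 1) → K) : y1 K n *ᵥ (y2 K n *ᵥ w) =
    y2 K n *ᵥ (y1 K n *ᵥ w) - y3 K n *ᵥ w := by
  have h : y1 K n * y2 K n = y2 K n * y1 K n - y3 K n := by
    rw [sub_eq_add_neg, ← y_rel12]
    abel
  rw [mulVec_mulVec, h, sub_mulVec, mulVec_mulVec]

theorem y_vec23 (n : ℕ) (w : Fin (n + 1) → K) : y2 K n *ᵥ (y3 K n *ᵥ w) =
    y3 K n *ᵥ (y2 K n *ᵥ w) - (2 : K) • (y2 K n *ᵥ w) := by
  have h : y2 K n * y3 K n = y3 K n * y2 K n - (2 : K) • y2 K n := by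
    rw [sub_eq_add_neg, ← neg_smul, ← y_rel23]
    abel
  rw [mulVec_mulVec, h, sub_mulVec, mulVec_mulVec, smul_mulVec]

theorem y_vec13 (n : ℕ) (w : Fin (n + 1) → K) : y1 K n *ᵥ (y3 K n *ᵥ w) =
    y3 K n *ᵥ (y1 K n *ᵥ w) + (2 : K) • (y1 K n *ᵥ w) := by
  have h : y1 K n * y3 K n = y3 K n * y1 K n + (2 : K) • y1 K n := by
    have := y_rel31 (K := K) n
    rw [← sub_eq_zero] at this
    rw [← sub_eq_zero, ← neg_eq_zero, ← this]
    module
  rw [mulVec_mulVec, h, add_mulVec, mulVec_mulVec, smul_mulVec]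

end Pool.Agent.H38.B2
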