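import Pool.Agent.H38.B2.ResDefs
import Pool.Agent.H38.B2.VMod

/-!
The differentials between the `R l` and the augmentation.
-/

set_option linter.unusedSectionVars false

namespace Pool.Agent.H38.B2

open Matrix

variable {K : Type*} [Field K]

theorem AA.Eid_idem (l : ℕ) : (AA.Eid l : AA K) * AA.Eid l = AA.Eid l := by
  match l with
  | 0 =>
    ext1 <;> simp [AA.Eid]
    ext i
    cases i <;> simp
  | 1 =>
    ext1 <;> simp [AA.Eid] <;>
    · ext i
      cases i <;> simp
  | 2 =>
    ext1 <;> simp [AA.Eid] <;>
    · ext i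
      cases i <;> simp
  | (l + 3) =>
    simp only [AA.Eid]
    split_ifs
    · ext1 <;> simp <;>
      · ext i
        cases i <;> simp
    · ext1 <;> simp <;>
      · ext i
        cases i <;> simp

/-- the differential `R (l+1) → R l`. -/
def dR (K : Type*) [Field K] (n l : ℕ) : R K n (l + 1) →ₗ[AA K] R K n l :=
  LinearMap.codRestrict (R K n l) ((rmul n (AA.Eid l) ∘ₗ DA n (l + 1)) ∘ₗ (R K n (l + 1)).subtype)
    (by
      intro f k
      simp only [rmul, LinearMap.comp_apply, LinearMap.coe_mk, AddHom.coe_mk, mul_assoc,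
        AA.Eid_idem])

/-- generators of `V n` -/
def gen {n : ℕ} (k : Fin (n + 1)) : V K n
  | .a => Pi.single k 1
  | _ => 0

/-- the augmentation on all row vectors -/
def augF (n : ℕ) : (Fin (n + 1) → AA K) →ₗ[AA K] V K n where
  toFun f := ∑ k, f k • gen k
  map_add' f g := by
    simp [add_smul, Finset.sum_add_distrib]
  map_smul' X f := by
    simp [mul_smul, Finset.smul_sum]

/-- the augmentation `R 0 → V n` -/
def aug (K : Type*) [Field K] (n : ℕ) : R K n 0 →ₗ[AA K] V K n :=
  augF n ∘ₗ (R K n 0).subtype

instance (n l : ℕ) : Module.Projective (AA K) (R K n l) :=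
  Module.Projective.of_split (R K n l).subtype
    (LinearMap.codRestrict (R K n l) (rmul n (AA.Eid l))
      (by
        intro f k
        simp only [rmul, LinearMap.coe_mk, AddHom.coe_mk, mul_assoc, AA.Eid_idem]))
    (by
      refine LinearMap.ext fun f => Subtype.ext (funext fun k => ?_)
      exact f.2 k)

end Pool.Agent.H38.B2
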