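import Pool.Agent.H38.B2.AA
import Pool.Agent.H38.B2.LieDefs

/-!
The terms `R l` and the differentials `d l : R (l+1) → R l` of the resolution of `V n`.
-/

set_option linter.unusedSectionVars false

namespace Pool.Agent.H38.B2

open Matrix

variable {K : Type*} [Field K]

/-- a matrix acting on functions with values in a vector space. -/
def act {M : Type*} [AddCommGroup M] [Module K M] {n : ℕ}
    (Y : Matrix (Fin (n + 1)) (Fin (n + 1)) K) (p : Fin (n + 1) → M) : Fin (n + 1) → M :=
  fun k => ∑ j, Y k j • p j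

namespace AA

/-- `z + a - rhat` -/
def za : AA K := mk 0 1 1 0 0 (-1)

/-- diagonal embedding of `A0` (not multiplicative on everything). -/
def dl (x : A0 K) : AA K := mk x 0 0 x 0 0

/-- The idempotent `E_l`. -/
def Eid : ℕ → AA K
  | 0 => mk A0.e0 0 0 0 0 0
  | 1 => mk A0.e1 0 0 A0.e0 0 0
  | 2 => mk (A0.e0 + A0.e2) 0 0 A0.e1 0 0
  | (l + 3) => if l % 2 = 0 then mk A0.od 0 0 A0.ev 0 0 else mk A0.ev 0 0 A0.od 0 0

end AA

/-- the sign `(-1)^l` -/
def sgn (K : Type*) [Field K] (l : ℕ) : K := if l % 2 = 0 then 1 else -1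

/-- the scalar `c_l`: `(l-2)/2` for `l` even and `-(l-1)/2` for `l` odd -/
def cc (K : Type*) [Field K] (l : ℕ) : K :=
  if l % 2 = 0 then ((l : K) - 2) / 2 else - (((l : K) - 1) / 2)

/-- right multiplication by an element, on row vectors -/
def rmul (n : ℕ) (C : AA K) : (Fin (n + 1) → AA K) →ₗ[AA K] (Fin (n + 1) → AA K) where
  toFun f := fun k => f k * C
  map_add' f g := by
    funext k
    simp [add_mul]
  map_smul' X f := by
    funext k
    simp [mul_assoc]

/-- a scalar matrix acting on row vectors -/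
def actA {n : ℕ} (Y : Matrix (Fin (n + 1)) (Fin (n + 1)) K) :
    (Fin (n + 1) → AA K) →ₗ[AA K] (Fin (n + 1) → AA K) where
  toFun f := act Y f
  map_add' f g := by
    funext k
    simp [act, Finset.sum_add_distrib]
  map_smul' X f := by
    funext k
    simp [act, Finset.mul_sum]

/-- the map `Xi` -/
def XiA (n : ℕ) : (Fin (n + 1) → AA K) →ₗ[AA K] (Fin (n + 1) → AA K) :=
  rmul n (AA.dl A0.xi) - actA (y1 K n) ∘ₗ rmul n (AA.dl A0.al1)
    - actA (y2 K n) ∘ₗ rmul n (AA.dl A0.al2) - actA (y3 K n) ∘ₗ rmul n (AA.dl A0.al3)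

/-- the differential before truncation: `f * (z + a - rhat + c vol) + s Xi (f * omega)` -/
def DA (n l : ℕ) : (Fin (n + 1) → AA K) →ₗ[AA K] (Fin (n + 1) → AA K) :=
  rmul n (AA.za + cc K l • AA.dl A0.vol) + XiA n ∘ₗ rmul n (sgn K l • AA.dl A0.om)

/-- The projective module `R l`. -/
def R (K : Type*) [Field K] (n l : ℕ) : Submodule (AA K) (Fin (n + 1) → AA K) where
  carrier := {f | ∀ k, f k * AA.Eid l = f k}
  add_mem' := by
    intro f g hf hg k
    simp [add_mul, hf k, hg k]
  zero_mem' := by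
    intro k
    simp
  smul_mem' := by
    intro X f hf k
    simp [mul_assoc, hf k]

end Pool.Agent.H38.B2
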