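import Pool.Agent.H38.B2.AA
import Pool.Agent.H38.B2.Rel

/-!
The modules `V n`.
-/

set_option linter.unusedSectionVars false
set_option linter.unusedSimpArgs false

namespace Pool.Agent.H38.B2

open Matrix

/-- index set for the eight components of `V n`: `a` in degree 0, `b` in degree 1, `c` in degree 2
and `t` in degree 3. -/
inductive Vx
  | a | b1 | b2 | b3 | c1 | c2 | c3 | t
  deriving DecidableEq

instance : Fintype Vx := ⟨{.a, .b1, .b2, .b3, .c1, .c2, .c3, .t}, by intro x; cases x <;> decide⟩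

/-- the module `V n`: exterior algebra of `K^3` tensored with `K^(n+1)`. -/
def V (K : Type*) (n : ℕ) := Vx → Fin (n + 1) → K

variable {K : Type*} [Field K] {n : ℕ}

namespace V

instance : AddCommGroup (V K n) := inferInstanceAs (AddCommGroup (Vx → Fin (n + 1) → K))

instance : Module K (V K n) := inferInstanceAs (Module K (Vx → Fin (n + 1) → K))

instance : Module.Finite K (V K n) := inferInstanceAs (Module.Finite K (Vx → Fin (n + 1) → K))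

@[ext] theorem ext {x y : V K n} (h : ∀ i, x i = y i) : x = y := funext h

@[simp] theorem add_apply (x y : V K n) (i : Vx) : (x + y) i = x i + y i := rfl
@[simp] theorem sub_apply (x y : V K n) (i : Vx) : (x - y) i = x i - y i := rfl
@[simp] theorem neg_apply (x : V K n) (i : Vx) : (-x) i = - x i := rfl
@[simp] theorem zero_apply (i : Vx) : (0 : V K n) i = 0 := rfl
@[simp] theorem smul_apply (c : K) (x : V K n) (i : Vx) : (c • x) i = c • x i := rfl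

/-- the action of `A0` on `V n` -/
def smul' (x : A0 K) (v : V K n) : V K n
  | .a => x .d0 • v .a
  | .b1 => x .d1 • v .b1 + x .p01u1 • v .a + x .p01s • (y1 K n *ᵥ v .a)
  | .b2 => x .d1 • v .b2 + x .p01u2 • v .a + x .p01s • (y2 K n *ᵥ v .a)
  | .b3 => x .d1 • v .b3 + x .p01u3 • v .a + x .p01s • (y3 K n *ᵥ v .a)
  | .c1 => x .d2 • v .c1 + (x .p12u2 • v .b3 - x .p12u3 • v .b2)
      + x .p12s • ((2 : K) • v .b2 + (y2 K n *ᵥ v .b3) - (y3 K n *ᵥ v .b2))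
      + x .q02m1 • v .a + (x .q02w2 • (y3 K n *ᵥ v .a) - x .q02w3 • (y2 K n *ᵥ v .a))
  | .c2 => x .d2 • v .c2 + (x .p12u3 • v .b1 - x .p12u1 • v .b3)
      + x .p12s • ((2 : K) • v .b1 + (y3 K n *ᵥ v .b1) - (y1 K n *ᵥ v .b3))
      + x .q02m2 • v .a + (x .q02w3 • (y1 K n *ᵥ v .a) - x .q02w1 • (y3 K n *ᵥ v .a))
  | .c3 => x .d2 • v .c3 + (x .p12u1 • v .b2 - x .p12u2 • v .b1)
      + x .p12s • (v .b3 + (y1 K n *ᵥ v .b2) - (y2 K n *ᵥ v .b1))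
      + x .q02m3 • v .a + (x .q02w1 • (y2 K n *ᵥ v .a) - x .q02w2 • (y1 K n *ᵥ v .a))
  | .t => x .d3 • v .t + (x .p23u1 • v .c1 + x .p23u2 • v .c2 + x .p23u3 • v .c3)
      + x .p23s • ((y1 K n *ᵥ v .c1) + (y2 K n *ᵥ v .c2) + (y3 K n *ᵥ v .c3))
      + (x .q13m1 • v .b1 + x .q13m2 • v .b2 + x .q13m3 • v .b3)
      + x .q13w1 • ((2 : K) • v .b2 + (y2 K n *ᵥ v .b3) - (y3 K n *ᵥ v .b2))
      + x .q13w2 • ((2 : K) • v .b1 + (y3 K n *ᵥ v .b1) - (y1 K n *ᵥ v .b3))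
      + x .q13w3 • (v .b3 + (y1 K n *ᵥ v .b2) - (y2 K n *ᵥ v .b1))
      + x .r03c • v .a + (x .r03n1 • (y1 K n *ᵥ v .a) + x .r03n2 • (y2 K n *ᵥ v .a)
        + x .r03n3 • (y3 K n *ᵥ v .a))

instance : SMul (A0 K) (V K n) := ⟨smul'⟩

section
variable (x : A0 K) (v : V K n)
@[simp] theorem sm_a : (x • v) .a = x .d0 • v .a := rfl
@[simp] theorem sm_b1 : (x • v) .b1 =
    x .d1 • v .b1 + x .p01u1 • v .a + x .p01s • (y1 K n *ᵥ v .a) := rfl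
@[simp] theorem sm_b2 : (x • v) .b2 =
    x .d1 • v .b2 + x .p01u2 • v .a + x .p01s • (y2 K n *ᵥ v .a) := rfl
@[simp] theorem sm_b3 : (x • v) .b3 =
    x .d1 • v .b3 + x .p01u3 • v .a + x .p01s • (y3 K n *ᵥ v .a) := rfl
@[simp] theorem sm_c1 : (x • v) .c1 =
    x .d2 • v .c1 + (x .p12u2 • v .b3 - x .p12u3 • v .b2)
      + x .p12s • ((2 : K) • v .b2 + (y2 K n *ᵥ v .b3) - (y3 K n *ᵥ v .b2))
      + x .q02m1 • v .a + (x .q02w2 • (y3 K n *ᵥ v .a) - x .q02w3 • (y2 K n *ᵥ v .a)) := rfl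
@[simp] theorem sm_c2 : (x • v) .c2 =
    x .d2 • v .c2 + (x .p12u3 • v .b1 - x .p12u1 • v .b3)
      + x .p12s • ((2 : K) • v .b1 + (y3 K n *ᵥ v .b1) - (y1 K n *ᵥ v .b3))
      + x .q02m2 • v .a + (x .q02w3 • (y1 K n *ᵥ v .a) - x .q02w1 • (y3 K n *ᵥ v .a)) := rfl
@[simp] theorem sm_c3 : (x • v) .c3 =
    x .d2 • v .c3 + (x .p12u1 • v .b2 - x .p12u2 • v .b1)
      + x .p12s • (v .b3 + (y1 K n *ᵥ v .b2) - (y2 K n *ᵥ v .b1))
      + x .q02m3 • v .a + (x .q02w1 • (y2 K n *ᵥ v .a) - x .q02w2 • (y1 K n *ᵥ v .a)) := rfl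
@[simp] theorem sm_t : (x • v) .t =
    x .d3 • v .t + (x .p23u1 • v .c1 + x .p23u2 • v .c2 + x .p23u3 • v .c3)
      + x .p23s • ((y1 K n *ᵥ v .c1) + (y2 K n *ᵥ v .c2) + (y3 K n *ᵥ v .c3))
      + (x .q13m1 • v .b1 + x .q13m2 • v .b2 + x .q13m3 • v .b3)
      + x .q13w1 • ((2 : K) • v .b2 + (y2 K n *ᵥ v .b3) - (y3 K n *ᵥ v .b2))
      + x .q13w2 • ((2 : K) • v .b1 + (y3 K n *ᵥ v .b1) - (y1 K n *ᵥ v .b3))
      + x .q13w3 • (v .b3 + (y1 K n *ᵥ v .b2) - (y2 K n *ᵥ v .b1))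
      + x .r03c • v .a + (x .r03n1 • (y1 K n *ᵥ v .a) + x .r03n2 • (y2 K n *ᵥ v .a)
        + x .r03n3 • (y3 K n *ᵥ v .a)) := rfl
end

theorem mul_smul' (x y : A0 K) (v : V K n)
    (h12 : ∀ w : Fin (n + 1) → K, y1 K n *ᵥ (y2 K n *ᵥ w) = y2 K n *ᵥ (y1 K n *ᵥ w) - y3 K n *ᵥ w)
    (h23 : ∀ w : Fin (n + 1) → K, y2 K n *ᵥ (y3 K n *ᵥ w) =
      y3 K n *ᵥ (y2 K n *ᵥ w) - (2 : K) • (y2 K n *ᵥ w))
    (h13 : ∀ w : Fin (n + 1) → K, y1 K n *ᵥ (y3 K n *ᵥ w) =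
      y3 K n *ᵥ (y1 K n *ᵥ w) + (2 : K) • (y1 K n *ᵥ w)) :
    (x * y) • v = x • (y • v) := by
  ext1 i
  cases i
  · simp only [sm_a, A0.mul_d0]
    module
  · simp only [sm_a, sm_b1, A0.mul_d0, A0.mul_d1, A0.mul_p01u1, A0.mul_p01s, mulVec_add,
      mulVec_smul]
    module
  · simp only [sm_a, sm_b2, A0.mul_d0, A0.mul_d1, A0.mul_p01u2, A0.mul_p01s, mulVec_add,
      mulVec_smul]
    module
  · simp only [sm_a, sm_b3, A0.mul_d0, A0.mul_d1, A0.mul_p01u3, A0.mul_p01s, mulVec_add,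
      mulVec_smul]
    module
  · simp only [sm_a, sm_b1, sm_b2, sm_b3, sm_c1, A0.mul_d2, A0.mul_p12u2, A0.mul_p12u3,
      A0.mul_p12s, A0.mul_q02m1, A0.mul_q02w2, A0.mul_q02w3, mulVec_add, mulVec_sub,
      mulVec_smul, h12, h23, h13]
    module
  · simp only [sm_a, sm_b1, sm_b2, sm_b3, sm_c2, A0.mul_d2, A0.mul_p12u1, A0.mul_p12u3,
      A0.mul_p12s, A0.mul_q02m2, A0.mul_q02w1, A0.mul_q02w3, mulVec_add, mulVec_sub,
      mulVec_smul, h12, h23, h13]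
    module
  · simp only [sm_a, sm_b1, sm_b2, sm_b3, sm_c3, A0.mul_d2, A0.mul_p12u1, A0.mul_p12u2,
      A0.mul_p12s, A0.mul_q02m3, A0.mul_q02w1, A0.mul_q02w2, mulVec_add, mulVec_sub,
      mulVec_smul, h12, h23, h13]
    module
  · simp only [sm_a, sm_b1, sm_b2, sm_b3, sm_c1, sm_c2, sm_c3, sm_t, A0.mul_d3, A0.mul_p23u1,
      A0.mul_p23u2, A0.mul_p23u3, A0.mul_p23s, A0.mul_q13m1, A0.mul_q13m2, A0.mul_q13m3,
      A0.mul_q13w1, A0.mul_q13w2, A0.mul_q13w3, A0.mul_r03c, A0.mul_r03n1, A0.mul_r03n2,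
      A0.mul_r03n3, mulVec_add, mulVec_sub, mulVec_smul, h12, h23, h13]
    module

end V

end Pool.Agent.H38.B2
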