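import Pool.Agent.H38.B2.ResD

/-!
Components of the differentials.
-/

set_option linter.unusedSectionVars false

namespace Pool.Agent.H38.B2

open Matrix

variable {K : Type*} [Field K]

section act

variable {n : ℕ} {M : Type*} [AddCommGroup M] [Module K M]

theorem act_add (Y : Matrix (Fin (n + 1)) (Fin (n + 1)) K) (p q : Fin (n + 1) → M) :
    act Y (p + q) = act Y p + act Y q := by
  funext k
  simp [act, Finset.sum_add_distrib]

theorem act_neg (Y : Matrix (Fin (n + 1)) (Fin (n + 1)) K) (p : Fin (n + 1) → M) :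
    act Y (-p) = - act Y p := by
  funext k
  simp [act]

theorem act_sub (Y : Matrix (Fin (n + 1)) (Fin (n + 1)) K) (p q : Fin (n + 1) → M) :
    act Y (p - q) = act Y p - act Y q := by
  rw [sub_eq_add_neg, act_add, act_neg, ← sub_eq_add_neg]

theorem act_smul (Y : Matrix (Fin (n + 1)) (Fin (n + 1)) K) (c : K) (p : Fin (n + 1) → M) :
    act Y (c • p) = c • act Y p := by
  funext k
  simp only [act, Pi.smul_apply, Finset.smul_sum]
  exact Finset.sum_congr rfl fun j _ => smul_comm _ _ _

theorem act_zero (Y : Matrix (Fin (n + 1)) (Fin (n + 1)) K) :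
    act Y (0 : Fin (n + 1) → M) = 0 := by
  funext k
  simp [act]

theorem act_mul (Y Z : Matrix (Fin (n + 1)) (Fin (n + 1)) K) (p : Fin (n + 1) → M) :
    act (Y * Z) p = act Y (act Z p) := by
  funext k
  simp only [act, Matrix.mul_apply, Finset.sum_smul, Finset.smul_sum, smul_smul]
  rw [Finset.sum_comm]

theorem sub_act (Y Z : Matrix (Fin (n + 1)) (Fin (n + 1)) K) (p : Fin (n + 1) → M) :
    act (Y - Z) p = act Y p - act Z p := by
  funext k
  simp [act, sub_smul]

theorem neg_act (Y : Matrix (Fin (n + 1)) (Fin (n + 1)) K) (p : Fin (n + 1) → M) :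
    act (-Y) p = - act Y p := by
  funext k
  simp [act]

theorem smul_act (c : K) (Y : Matrix (Fin (n + 1)) (Fin (n + 1)) K) (p : Fin (n + 1) → M) :
    act (c • Y) p = c • act Y p := by
  funext k
  simp [act, Finset.smul_sum, smul_smul]

/-- linear maps commute with scalar matrices -/
theorem act_map {M' : Type*} [AddCommGroup M'] [Module K M'] (g : M →ₗ[K] M')
    (Y : Matrix (Fin (n + 1)) (Fin (n + 1)) K) (p : Fin (n + 1) → M) (k : Fin (n + 1)) :
    g (act Y p k) = act Y (fun j => g (p j)) k := by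
  simp [act]

/-- relation in terms of `act` -/
theorem act12 (p : Fin (n + 1) → M) : act (y1 K n) (act (y2 K n) p) =
    act (y2 K n) (act (y1 K n) p) - act (y3 K n) p := by
  have h : y1 K n * y2 K n = y2 K n * y1 K n - y3 K n := by
    rw [sub_eq_add_neg, ← y_rel12]
    abel
  rw [← act_mul, h, sub_act, act_mul]

theorem act23 (p : Fin (n + 1) → M) : act (y2 K n) (act (y3 K n) p) =
    act (y3 K n) (act (y2 K n) p) - (2 : K) • act (y2 K n) p := by
  have h : y2 K n * y3 K n = y3 K n * y2 K n - (2 : K) • y2 K n := by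
    rw [sub_eq_add_neg, ← neg_smul, ← y_rel23]
    abel
  rw [← act_mul, h, sub_act, act_mul, smul_act]

theorem act13 (p : Fin (n + 1) → M) : act (y1 K n) (act (y3 K n) p) =
    act (y3 K n) (act (y1 K n) p) + (2 : K) • act (y1 K n) p := by
  have h : y1 K n * y3 K n = y3 K n * y1 K n - (-(2 : K)) • y1 K n := by
    rw [← y_rel31]
    abel
  rw [← act_mul, h, sub_act, act_mul, smul_act, neg_smul, sub_neg_eq_add]

end act

/-- right multiplication by an element of `A0` on row vectors -/
def rm {n : ℕ} (p : Fin (n + 1) → A0 K) (x : A0 K) : Fin (n + 1) → A0 K := fun k => p k * x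

section rm
variable {n : ℕ} (p q : Fin (n + 1) → A0 K) (x y : A0 K) (c : K)

theorem rm_rm : rm (rm p x) y = rm p (x * y) := by
  funext k
  simp [rm, mul_assoc]

theorem rm_add : rm p (x + y) = rm p x + rm p y := by
  funext k
  simp [rm, mul_add]

theorem rm_sub : rm p (x - y) = rm p x - rm p y := by
  funext k
  simp [rm, mul_sub]

theorem rm_neg : rm p (-x) = - rm p x := by
  funext k
  simp [rm]

theorem rm_smul : rm p (c • x) = c • rm p x := by
  funext k
  simp [rm]

theorem rm_zero : rm p 0 = 0 := by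
  funext k
  simp [rm]

theorem add_rm : rm (p + q) x = rm p x + rm q x := by
  funext k
  simp [rm, add_mul]

theorem sub_rm : rm (p - q) x = rm p x - rm q x := by
  funext k
  simp [rm, sub_mul]

theorem neg_rm : rm (-p) x = - rm p x := by
  funext k
  simp [rm]

theorem smul_rm : rm (c • p) x = c • rm p x := by
  funext k
  simp [rm]

theorem rm_act (Y : Matrix (Fin (n + 1)) (Fin (n + 1)) K) :
    rm (act Y p) x = act Y (rm p x) := by
  funext k
  simp [rm, act, Finset.sum_mul]

end rm

/-- the map `Xi` on row vectors over `A0` -/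
def XiB {n : ℕ} (p : Fin (n + 1) → A0 K) : Fin (n + 1) → A0 K :=
  rm p A0.xi - act (y1 K n) (rm p A0.al1) - act (y2 K n) (rm p A0.al2)
    - act (y3 K n) (rm p A0.al3)

section XiB

variable {n : ℕ} (p q : Fin (n + 1) → A0 K) (x : A0 K) (c : K)

theorem XiB_add : XiB (p + q) = XiB p + XiB q := by
  simp only [XiB, add_rm, act_add]
  abel

theorem XiB_neg : XiB (-p) = - XiB p := by
  simp only [XiB, neg_rm, act_neg]
  abel

theorem XiB_sub : XiB (p - q) = XiB p - XiB q := by
  simp only [XiB, sub_rm, act_sub]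
  abel

theorem XiB_smul : XiB (c • p) = c • XiB p := by
  simp only [XiB, smul_rm, act_smul]
  module

theorem XiB_XiB : XiB (XiB p) = 0 := by
  simp only [XiB, sub_rm, rm_act, act_sub, rm_rm, A0.xi_mul_xi, A0.al1_mul_al1, A0.al2_mul_al2,
    A0.al3_mul_al3, A0.al1_mul_al2, A0.al2_mul_al3, A0.al3_mul_al1, A0.xi_mul_al1, A0.xi_mul_al2,
    A0.xi_mul_al3, rm_sub, rm_neg, rm_smul, rm_zero, act_zero, act_neg, act_smul, act12, act23,
    act13]
  module

end XiB

end Pool.Agent.H38.B2
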